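import Pool.Agent.Lib_helper41.DIM.Defs
import Pool.Agent.Lib_helper98.WAF.A1
import Pool.Agent.Lib_helper98.WAF.A2
import Pool.Agent.Lib_helper98.WAF.A4
import Pool.Agent.Lib_helper68.LEV.FAM

/-! DIM block COS: cosets and the Fricke involution -/

namespace Pool.Agent.DIMK

open Complex MeasureTheory Filter Topology UpperHalfPlane ModularGroup CongruenceSubgroup
open scoped MatrixGroups Modular ENNReal ModularForm ComplexConjugate
open Pool.Agent.LEV (PX pa sg wz S2 G0 co IsFricke Hol)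
open Pool.Agent.WA (ch)

section
variable {N : ℕ} [Fact N.Prime]

theorem cos_mem (h : SL(2, ℤ)) : h * sg (pa (N := N) h⁻¹ OnePoint.infty) ∈ Gamma0 N := by
  rw [← LEV.pa_inf_iff, LEV.pa_mul, LEV.pa_sg, ← LEV.pa_mul, mul_inv_cancel, LEV.pa_one]

theorem cosE_pr : ∃ e : (Gamma0 N) × PX N ≃ SL(2, ℤ), ∀ x, e x = (x.1 : SL(2, ℤ)) * (sg x.2)⁻¹ := by
  refine ⟨⟨fun x => (x.1 : SL(2, ℤ)) * (sg x.2)⁻¹,
    fun h => (⟨h * sg (pa (N := N) h⁻¹ OnePoint.infty), cos_mem h⟩, pa h⁻¹ OnePoint.infty),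
    ?_, ?_⟩, fun x => rfl⟩
  · rintro ⟨g, q⟩
    have hq : pa (N := N) ((g : SL(2, ℤ)) * (sg q)⁻¹)⁻¹ OnePoint.infty = q := by
      rw [mul_inv_rev, inv_inv, LEV.pa_mul]
      have hg : pa (N := N) ((g : SL(2, ℤ)))⁻¹ OnePoint.infty = OnePoint.infty := by
        rw [LEV.pa_inf_iff]
        exact (Gamma0 N).inv_mem g.2
      rw [hg, LEV.pa_sg]
    simp only [hq]
    rw [Prod.mk.injEq]
    refine ⟨?_, rfl⟩
    apply Subtype.ext
    show (g : SL(2, ℤ)) * (sg q)⁻¹ * sg q = g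
    rw [inv_mul_cancel_right]
  · intro h
    show h * sg (pa (N := N) h⁻¹ OnePoint.infty) * (sg (pa (N := N) h⁻¹ OnePoint.infty))⁻¹ = h
    rw [mul_inv_cancel_right]

theorem cos_N0 : (N : ℂ) ≠ 0 := Nat.cast_ne_zero.2 (Fact.out : N.Prime).ne_zero

theorem cos_Npos : (0 : ℝ) < N := Nat.cast_pos.2 (Fact.out : N.Prime).pos

theorem cos_coe (z : ℍ) : ((wz N z : ℍ) : ℂ) = -1 / ((N : ℂ) * (z : ℂ)) := rfl

theorem wz_wz_pr (z : ℍ) : wz N (wz N z) = z := by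
  apply UpperHalfPlane.ext
  rw [cos_coe, cos_coe]
  have h1 := cos_N0 (N := N)
  have h2 := z.ne_zero
  field_simp

theorem wz_im_pr (z : ℍ) : (wz N z).im = z.im / (N * Complex.normSq z) := by
  show (-1 / ((N : ℂ) * (z : ℂ))).im = _
  rw [neg_div, Complex.neg_im, one_div, Complex.inv_im, Complex.normSq_mul, Complex.normSq_natCast,
    Complex.mul_im, Complex.natCast_re, Complex.natCast_im, zero_mul, add_zero, neg_div, neg_neg]
  have h2 : Complex.normSq z ≠ 0 := (Complex.normSq_pos.mpr z.ne_zero).ne'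
  have h3 : (N : ℝ) ≠ 0 := (cos_Npos (N := N)).ne'
  have h4 : (z : ℂ).im = z.im := rfl
  rw [h4]
  field_simp

/-- the matrix of the Fricke involution -/
noncomputable def cosM (N : ℕ) [Fact N.Prime] : GL (Fin 2) ℝ :=
  Matrix.GeneralLinearGroup.mkOfDetNeZero !![0, -1; (N : ℝ), 0] (by
    rw [Matrix.det_fin_two_of]
    have := cos_Npos (N := N)
    simp [this.ne'])

theorem cos_smul (z : ℍ) : cosM N • z = wz N z := by
  have hdet : 0 < (cosM N).det.val := by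
    show 0 < Matrix.det !![0, -1; (N : ℝ), 0]
    rw [Matrix.det_fin_two_of]
    have := cos_Npos (N := N)
    simpa using this
  apply UpperHalfPlane.ext
  rw [coe_smul_of_det_pos hdet, cos_coe, num, denom]
  have e00 : ((cosM N : GL (Fin 2) ℝ) 0 0 : ℝ) = 0 := rfl
  have e01 : ((cosM N : GL (Fin 2) ℝ) 0 1 : ℝ) = -1 := rfl
  have e10 : ((cosM N : GL (Fin 2) ℝ) 1 0 : ℝ) = N := rfl
  have e11 : ((cosM N : GL (Fin 2) ℝ) 1 1 : ℝ) = 0 := rfl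
  rw [e00, e01, e10, e11]
  push_cast
  ring_nf

theorem wz_mp_pr : MeasurePreserving (wz N) (volume : Measure ℍ) volume := by
  have h := measurePreserving_smul (cosM N) (volume : Measure ℍ)
  have e : (fun z : ℍ => cosM N • z) = wz N := funext cos_smul
  rw [← e]
  exact h

theorem ch_wz_pr (z w : ℍ) : ch (wz N z) (wz N w) = ch z w := by
  unfold ch
  rw [wz_im_pr, wz_im_pr, cos_coe, cos_coe]
  have h1 := cos_N0 (N := N)
  have h2 := z.ne_zero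
  have h3 := w.ne_zero
  have hw' : (starRingEnd ℂ) (w : ℂ) ≠ 0 := by
    intro h
    exact h3 (by simpa using h)
  have e1 : -1 / ((N : ℂ) * (z : ℂ)) - (starRingEnd ℂ) (-1 / ((N : ℂ) * (w : ℂ))) =
      ((z : ℂ) - (starRingEnd ℂ) (w : ℂ)) / ((N : ℂ) * (z : ℂ) * (starRingEnd ℂ) (w : ℂ)) := by
    rw [map_div₀, map_mul, Complex.conj_natCast, map_neg, map_one]
    field_simp
    ring
  rw [e1, norm_div, norm_mul, norm_mul, RCLike.norm_conj, Complex.norm_natCast]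
  have h4 : ‖(z : ℂ)‖ ≠ 0 := norm_ne_zero_iff.2 h2
  have h5 : ‖(w : ℂ)‖ ≠ 0 := norm_ne_zero_iff.2 h3
  have h6 : (N : ℝ) ≠ 0 := (cos_Npos (N := N)).ne'
  have h7 := z.im_pos.ne'
  have h8 := w.im_pos.ne'
  rw [Complex.normSq_eq_norm_sq, Complex.normSq_eq_norm_sq]
  field_simp

/-- `τ(a b; c d) = (d, -c/N; -N b, a)` -/
def cosT0 (N : ℕ) (g : SL(2, ℤ)) (h : (N : ℤ) ∣ g 1 0) : SL(2, ℤ) :=
  ⟨!![g 1 1, -(g 1 0 / N); -(N * g 0 1), g 0 0], by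
    rw [Matrix.det_fin_two_of]
    have h1 := g.det_coe
    rw [Matrix.det_fin_two] at h1
    have h2 : g 1 0 / (N : ℤ) * N = g 1 0 := Int.ediv_mul_cancel h
    have h3 : g 1 1 * g 0 0 - -(g 1 0 / (N : ℤ)) * -(N * g 0 1) =
        g 0 0 * g 1 1 - g 0 1 * (g 1 0 / (N : ℤ) * N) := by ring
    rw [h3, h2]
    exact h1⟩

theorem cos_dvd (g : Gamma0 N) : (N : ℤ) ∣ (g : SL(2, ℤ)) 1 0 :=
  (ZMod.intCast_zmod_eq_zero_iff_dvd _ _).1 (Gamma0_mem.1 g.2)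

/-- the involution of `Γ₀(N)` -/
def cosT (g : Gamma0 N) : Gamma0 N :=
  ⟨cosT0 N g (cos_dvd g), by
    rw [Gamma0_mem]
    show ((-((N : ℤ) * (g : SL(2, ℤ)) 0 1) : ℤ) : ZMod N) = 0
    push_cast
    simp⟩

theorem cosT_inv (g : Gamma0 N) : cosT (cosT g) = g := by
  apply Subtype.ext
  apply Subtype.ext
  have hN : (N : ℤ) ≠ 0 := by exact_mod_cast (Fact.out : N.Prime).ne_zero
  have h2 : (g : SL(2, ℤ)) 1 0 / (N : ℤ) * N = (g : SL(2, ℤ)) 1 0 := Int.ediv_mul_cancel (cos_dvd g)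
  ext i j
  fin_cases i <;> fin_cases j
  · rfl
  · show -(-((N : ℤ) * (g : SL(2, ℤ)) 0 1) / N) = (g : SL(2, ℤ)) 0 1
    rw [Int.neg_ediv_of_dvd (Dvd.intro _ rfl), Int.mul_ediv_cancel_left _ hN, neg_neg]
  · show -((N : ℤ) * -((g : SL(2, ℤ)) 1 0 / N)) = (g : SL(2, ℤ)) 1 0
    rw [mul_neg, neg_neg, mul_comm]
    exact h2
  · rfl

theorem cosW_pr : ∃ τ : Gamma0 N ≃ Gamma0 N, ∀ (g : Gamma0 N) (z : ℍ),
    wz N ((g : SL(2, ℤ)) • z) = ((τ g : Gamma0 N) : SL(2, ℤ)) • wz N z ∧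
    (((g : SL(2, ℤ)) • z : ℍ) : ℂ) * LEV.jd (g : SL(2, ℤ)) z =
      LEV.jd ((τ g : Gamma0 N) : SL(2, ℤ)) (wz N z) * (z : ℂ) := by
  refine ⟨⟨cosT, cosT, cosT_inv, cosT_inv⟩, fun g z => ?_⟩
  have hN := cos_N0 (N := N)
  have hz := z.ne_zero
  have hden := GL2.RSA_denom_ne (g : SL(2, ℤ)) z
  have e00 : ((cosT g : Gamma0 N) : SL(2, ℤ)) 0 0 = (g : SL(2, ℤ)) 1 1 := rfl
  have e01 : ((cosT g : Gamma0 N) : SL(2, ℤ)) 0 1 = -((g : SL(2, ℤ)) 1 0 / N) := rfl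
  have e10 : ((cosT g : Gamma0 N) : SL(2, ℤ)) 1 0 = -(N * (g : SL(2, ℤ)) 0 1) := rfl
  have e11 : ((cosT g : Gamma0 N) : SL(2, ℤ)) 1 1 = (g : SL(2, ℤ)) 0 0 := rfl
  have h2 : (((g : SL(2, ℤ)) 1 0 / (N : ℤ) : ℤ) : ℂ) * (N : ℂ) = (((g : SL(2, ℤ)) 1 0 : ℤ) : ℂ) := by
    have := Int.ediv_mul_cancel (cos_dvd g)
    exact_mod_cast congrArg (fun x : ℤ => (x : ℂ)) this
  set a : ℂ := (((g : SL(2, ℤ)) 0 0 : ℤ) : ℂ) with ha
  set b : ℂ := (((g : SL(2, ℤ)) 0 1 : ℤ) : ℂ) with hb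
  set c : ℂ := (((g : SL(2, ℤ)) 1 0 : ℤ) : ℂ) with hc
  set d : ℂ := (((g : SL(2, ℤ)) 1 1 : ℤ) : ℂ) with hd
  set c' : ℂ := (((g : SL(2, ℤ)) 1 0 / (N : ℤ) : ℤ) : ℂ) with hc'
  have hgz : (((g : SL(2, ℤ)) • z : ℍ) : ℂ) = (a * z + b) / (c * z + d) :=
    GL2.RSA_coe_smul (g : SL(2, ℤ)) z
  have hnum : a * (z : ℂ) + b ≠ 0 := by
    intro h
    rw [h, zero_div] at hgz
    exact ((g : SL(2, ℤ)) • z).ne_zero hgz
  have hj1 : LEV.jd (g : SL(2, ℤ)) z = c * z + d := rfl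
  have hj2 : LEV.jd ((cosT g : Gamma0 N) : SL(2, ℤ)) (wz N z) * (z : ℂ) = a * z + b := by
    unfold LEV.jd
    rw [e10, e11, cos_coe]
    push_cast
    rw [← ha, ← hb]
    field_simp
    ring
  constructor
  · apply UpperHalfPlane.ext
    show ((wz N ((g : SL(2, ℤ)) • z) : ℍ) : ℂ) =
      ((((cosT g : Gamma0 N) : SL(2, ℤ)) • wz N z : ℍ) : ℂ)
    rw [cos_coe, hgz, GL2.RSA_coe_smul, e00, e01, e10, e11, cos_coe]
    push_cast
    rw [← ha, ← hb, ← hd, ← hc']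
    have h3 : -((N : ℂ) * b) * (-1 / ((N : ℂ) * z)) + a = (a * z + b) / z := by
      field_simp
      ring
    have h4 : d * (-1 / ((N : ℂ) * z)) + -c' = -(c * z + d) / ((N : ℂ) * z) := by
      rw [← h2]
      field_simp
      ring
    rw [h3, h4]
    field_simp
  · show (((g : SL(2, ℤ)) • z : ℍ) : ℂ) * LEV.jd (g : SL(2, ℤ)) z =
      LEV.jd ((cosT g : Gamma0 N) : SL(2, ℤ)) (wz N z) * (z : ℂ)
    rw [hj2, hj1, hgz]
    rw [div_mul_cancel₀ _ hden]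

end

theorem cosE : type_of% @cosE_pr := @cosE_pr

theorem wz_wz : type_of% @wz_wz_pr := @wz_wz_pr

theorem wz_im : type_of% @wz_im_pr := @wz_im_pr

theorem wz_mp : type_of% @wz_mp_pr := @wz_mp_pr

theorem ch_wz : type_of% @ch_wz_pr := @ch_wz_pr

theorem cosW : type_of% @cosW_pr := @cosW_pr

end Pool.Agent.DIMK
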