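import Pool.Agent.Lib_helper41.DIM.Defs
import Pool.Agent.Lib_helper98.WAF.A1
import Pool.Agent.Lib_helper98.WAF.A2
import Pool.Agent.Lib_helper98.WAF.A4
import Pool.Agent.Lib_helper68.LEV.FAM
import Pool.Agent.Lib_helper41.DIMF.COS

/-! DIM block COV: covering by the two cusps -/

namespace Pool.Agent.DIMK

open Complex MeasureTheory Filter Topology UpperHalfPlane ModularGroup CongruenceSubgroup
open scoped MatrixGroups Modular ENNReal ModularForm ComplexConjugate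
open Pool.Agent.LEV (PX pa sg wz S2 G0 co IsFricke Hol)
open Pool.Agent.WA (ch)

section
variable {N : ℕ} [Fact N.Prime]

theorem cov_fd {z : ℍ} (hz : z ∈ 𝒟) : Real.sqrt 3 / 2 ≤ z.im := by
  obtain ⟨h1, h2⟩ := hz
  rw [Complex.normSq_apply] at h1
  have hre : (z : ℂ).re = z.re := rfl
  have him : (z : ℂ).im = z.im := rfl
  rw [hre, him] at h1
  have h3 : z.re ^ 2 ≤ 1 / 4 := by
    have : |z.re| ^ 2 ≤ (1 / 2) ^ 2 := pow_le_pow_left₀ (abs_nonneg _) h2 2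
    rw [sq_abs] at this
    linarith
  have h4 : 3 / 4 ≤ z.im ^ 2 := by nlinarith
  apply le_of_sq_le_sq _ z.im_pos.le
  rw [div_pow, Real.sq_sqrt (by norm_num)]
  linarith

theorem cov_pr (z : ℍ) : ∃ g : SL(2, ℤ), g ∈ Gamma0 N ∧
    (Real.sqrt 3 / (2 * N) ≤ (g • z).im ∨ Real.sqrt 3 / (2 * N) ≤ (g • wz N z).im) := by
  have hN1 : (1 : ℝ) ≤ N := by exact_mod_cast (Fact.out : N.Prime).one_lt.le
  have hN0 : (0 : ℝ) < N := by linarith
  have hNc : (N : ℂ) ≠ 0 := Nat.cast_ne_zero.2 (Fact.out : N.Prime).ne_zero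
  obtain ⟨h, hh⟩ := ModularGroup.exists_smul_mem_fd z
  have him := cov_fd hh
  obtain ⟨e, he⟩ := cosE (N := N)
  obtain ⟨⟨g, q⟩, hgq⟩ := e.surjective h⁻¹
  rw [he] at hgq
  simp only at hgq
  have hbound : Real.sqrt 3 / (2 * N) ≤ Real.sqrt 3 / 2 := by
    apply div_le_div_of_nonneg_left (Real.sqrt_nonneg 3) (by norm_num)
    linarith
  -- `g⁻¹ z = (sg q)⁻¹ (h z)`
  have hgz : ((g⁻¹ : Gamma0 N) : SL(2, ℤ)) • z = (sg q)⁻¹ • (h • z) := by
    have h1 : z = h⁻¹ • (h • z) := (inv_smul_smul h z).symm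
    conv_lhs => rw [h1, ← hgq]
    rw [mul_smul]
    show ((g : SL(2, ℤ)))⁻¹ • (g : SL(2, ℤ)) • (sg q)⁻¹ • h • z = _
    rw [inv_smul_smul]
  match q, hgz with
  | none, hgz =>
    refine ⟨((g⁻¹ : Gamma0 N) : SL(2, ℤ)), (g⁻¹ : Gamma0 N).2, Or.inl ?_⟩
    have h2 : sg (none : PX N) = 1 := rfl
    rw [hgz, h2, inv_one, one_smul]
    exact hbound.trans him
  | some j, hgz =>
    obtain ⟨τ, hτ⟩ := cosW (N := N)
    refine ⟨((τ g⁻¹ : Gamma0 N) : SL(2, ℤ)), (τ g⁻¹).2, Or.inr ?_⟩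
    rw [← (hτ g⁻¹ z).1, hgz]
    set w : ℍ := h • z with hw
    have h2 : sg (some j : PX N) = T ^ (j.val : ℤ) * S := rfl
    have hu : (((sg (some j : PX N))⁻¹ • w : ℍ) : ℂ) = -1 / ((w : ℂ) - (j.val : ℤ)) := by
      set u : ℍ := (sg (some j : PX N))⁻¹ • w with hud
      have h3 : w = (T ^ (j.val : ℤ) * S) • u := by
        rw [hud, ← h2, smul_inv_smul]
      have h4 : (w : ℂ) = -1 / (u : ℂ) + (j.val : ℤ) := by
        rw [h3, mul_smul, UpperHalfPlane.modular_T_zpow_smul, UpperHalfPlane.coe_vadd,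
          UpperHalfPlane.modular_S_smul]
        show (((j.val : ℤ) : ℝ) : ℂ) + (-(u : ℂ))⁻¹ = -1 / (u : ℂ) + (j.val : ℤ)
        push_cast
        rw [neg_div, one_div, inv_neg]
        ring
      have hu0 := u.ne_zero
      rw [h4]
      field_simp
      ring
    have h5 : (wz N ((sg (some j : PX N))⁻¹ • w)).im = w.im / N := by
      have h6 : ((wz N ((sg (some j : PX N))⁻¹ • w) : ℍ) : ℂ) = ((w : ℂ) - (j.val : ℤ)) / (N : ℂ) := by
        show -1 / ((N : ℂ) * (((sg (some j : PX N))⁻¹ • w : ℍ) : ℂ)) = _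
        rw [hu]
        have h7 : (w : ℂ) - (j.val : ℤ) ≠ 0 := by
          intro h0
          have h8 := congrArg Complex.im h0
          rw [Complex.sub_im, Complex.intCast_im, sub_zero, Complex.zero_im] at h8
          exact w.im_pos.ne' h8
        field_simp
      have h9 : (wz N ((sg (some j : PX N))⁻¹ • w)).im =
          (((wz N ((sg (some j : PX N))⁻¹ • w) : ℍ)) : ℂ).im := rfl
      rw [h9, h6, Complex.div_natCast_im, Complex.sub_im, Complex.intCast_im, sub_zero]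
      rfl
    rw [h5]
    calc Real.sqrt 3 / (2 * N) = Real.sqrt 3 / 2 / N := by rw [div_div]
      _ ≤ w.im / N := div_le_div_of_nonneg_right him hN0.le

/-- `‖F‖ y^m` is invariant -/
theorem nf_inv_pr {m : ℕ} {ε : ℂ} (hε : ε = 1 ∨ ε = -1) {F : ℍ → ℂ} (hF : F ∈ VV N m ε) :
    (∀ g : SL(2, ℤ), g ∈ Gamma0 N → ∀ z : ℍ, ‖nf m F (g • z)‖ = ‖nf m F z‖) ∧
    (∀ z : ℍ, ‖nf m F (wz N z)‖ = ‖nf m F z‖) := by
  have hF' : IsV N m ε F := hF
  constructor
  · intro g hg z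
    unfold nf
    rw [hF'.slash g hg z, GL2.RSA_im_smul]
    have hden := GL2.RSA_denom_ne g z
    have hn : ‖((g 1 0 : ℤ) : ℂ) * (z : ℂ) + ((g 1 1 : ℤ) : ℂ)‖ ≠ 0 := norm_ne_zero_iff.2 hden
    rw [norm_mul, norm_mul, norm_mul, norm_pow, Complex.norm_real, Complex.norm_real,
      Real.norm_of_nonneg (by positivity), Real.norm_of_nonneg (pow_nonneg z.im_pos.le m)]
    have h1 : ‖LEV.jd g z‖ = ‖((g 1 0 : ℤ) : ℂ) * (z : ℂ) + ((g 1 1 : ℤ) : ℂ)‖ := rfl
    rw [h1, div_pow, ← pow_mul]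
    obtain ⟨D, hD⟩ : ∃ D : ℝ, D = ‖((g 1 0 : ℤ) : ℂ) * (z : ℂ) + ((g 1 1 : ℤ) : ℂ)‖ := ⟨_, rfl⟩
    rw [← hD] at hn ⊢
    field_simp
  · intro z
    unfold nf
    rw [hF'.fricke z, wz_im]
    have hN0 : (0 : ℝ) < N := Nat.cast_pos.2 (Fact.out : N.Prime).pos
    have hz : ‖(z : ℂ)‖ ≠ 0 := norm_ne_zero_iff.2 z.ne_zero
    have hε1 : ‖ε‖ = 1 := by
      rcases hε with h | h
      · rw [h, norm_one]
      · rw [h, norm_neg, norm_one]
    have hns : (0 : ℝ) ≤ z.im / (N * Complex.normSq z) :=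
      div_nonneg z.im_pos.le (mul_nonneg hN0.le (Complex.normSq_nonneg _))
    rw [norm_mul, norm_mul, norm_mul, norm_mul, norm_mul, norm_pow, norm_pow, Complex.norm_real,
      Complex.norm_real, Complex.norm_natCast, hε1, Real.norm_of_nonneg (pow_nonneg hns m),
      Real.norm_of_nonneg (pow_nonneg z.im_pos.le m), Complex.normSq_eq_norm_sq, div_pow, mul_pow,
      ← pow_mul]
    field_simp

end

theorem cov : type_of% @cov_pr := @cov_pr

theorem nf_inv : type_of% @nf_inv_pr := @nf_inv_pr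

end Pool.Agent.DIMK
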