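import Pool.Agent.Lib_helper41.DIM.Defs
import Pool.Agent.Lib_helper98.WAF.A1
import Pool.Agent.Lib_helper98.WAF.A2
import Pool.Agent.Lib_helper98.WAF.A4

namespace Pool.Agent.DIMK

open Complex MeasureTheory Filter Topology UpperHalfPlane ModularGroup CongruenceSubgroup
open scoped MatrixGroups Modular ENNReal ModularForm ComplexConjugate
open Pool.Agent.LEV (PX pa sg wz S2 G0 co IsFricke Hol)
open Pool.Agent.WA (ch)

/-- the function of `q = e(z)` -/
noncomputable def qmx_g (F : ℍ → ℂ) : ℂ → ℂ :=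
  Function.Periodic.cuspFunction 1 (fun z : ℂ => F (UpperHalfPlane.ofComplex z))

/-- the successive divided functions -/
noncomputable def qmx_k (F : ℍ → ℂ) : ℕ → ℂ → ℂ
  | 0 => qmx_g F
  | (j + 1) => dslope (qmx_k F j) 0

theorem qmx_per {F : ℍ → ℂ} (hp : ∀ z : ℍ, F ((1 : ℝ) +ᵥ z) = F z) :
    Function.Periodic (fun z : ℂ => F (UpperHalfPlane.ofComplex z)) ((1 : ℝ) : ℂ) := by
  intro w
  show F (UpperHalfPlane.ofComplex (w + ((1 : ℝ) : ℂ))) = F (UpperHalfPlane.ofComplex w)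
  by_cases hw : 0 < w.im
  · have h1 : 0 < (w + ((1 : ℝ) : ℂ)).im := by
      rw [Complex.add_im, Complex.ofReal_im, add_zero]
      exact hw
    rw [UpperHalfPlane.ofComplex_apply_of_im_pos h1, UpperHalfPlane.ofComplex_apply_of_im_pos hw,
      ← hp ⟨w, hw⟩]
    congr 1
    ext1
    show w + ((1 : ℝ) : ℂ) = (((1 : ℝ) +ᵥ (⟨w, hw⟩ : ℍ) : ℍ) : ℂ)
    rw [UpperHalfPlane.coe_vadd, add_comm]
  · push Not at hw
    have h1 : (w + ((1 : ℝ) : ℂ)).im ≤ 0 := by
      rw [Complex.add_im, Complex.ofReal_im, add_zero]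
      exact hw
    rw [UpperHalfPlane.ofComplex_apply_eq_of_im_nonpos h1 hw]

theorem qmx_g_eq {F : ℍ → ℂ} (hp : ∀ z : ℍ, F ((1 : ℝ) +ᵥ z) = F z) (z : ℂ) :
    qmx_g F (Function.Periodic.qParam 1 z) = F (UpperHalfPlane.ofComplex z) :=
  Function.Periodic.eq_cuspFunction one_ne_zero (qmx_per hp) z

theorem qmx_diffAt {F : ℍ → ℂ} (hF : Hol F) {z : ℂ} (hz : 0 < z.im) :
    DifferentiableAt ℂ (fun z : ℂ => F (UpperHalfPlane.ofComplex z)) z :=
  hF.differentiableAt ((isOpen_lt continuous_const Complex.continuous_im).mem_nhds hz)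

theorem qmx_g_diff {F : ℍ → ℂ} (hF : Hol F) (hp : ∀ z : ℍ, F ((1 : ℝ) +ᵥ z) = F z)
    (hb : ∃ C : ℝ, ∀ z : ℍ, 1 ≤ z.im → ‖F z‖ ≤ C) :
    DifferentiableOn ℂ (qmx_g F) (Metric.ball 0 1) := by
  intro q hq
  apply DifferentiableAt.differentiableWithinAt
  rw [mem_ball_zero_iff] at hq
  by_cases h0 : q = 0
  · rw [h0]
    obtain ⟨C, hC⟩ := hb
    refine Function.Periodic.differentiableAt_cuspFunction_zero one_pos (qmx_per hp) ?_ ?_
    · exact (tendsto_comap.eventually (eventually_gt_atTop 0)).mono (fun z hz => qmx_diffAt hF hz)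
    · apply Asymptotics.IsBigO.of_bound C
      refine (tendsto_comap.eventually (eventually_ge_atTop (1 : ℝ))).mono (fun z hz => ?_)
      have hz0 : 0 < z.im := lt_of_lt_of_le one_pos hz
      rw [UpperHalfPlane.ofComplex_apply_of_im_pos hz0, Pi.one_apply, norm_one, mul_one]
      exact hC _ hz
  · have h1 : Function.Periodic.qParam 1 (Function.Periodic.invQParam 1 q) = q :=
      Function.Periodic.qParam_right_inv one_ne_zero h0
    have h2 : 0 < (Function.Periodic.invQParam 1 q).im := by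
      have h3 := (Function.Periodic.norm_qParam_lt_iff one_pos 0 (Function.Periodic.invQParam 1 q)).mp
      apply h3
      rw [h1]
      simpa using hq
    have h4 := Function.Periodic.differentiableAt_cuspFunction (h := 1) one_ne_zero (qmx_per hp)
      (qmx_diffAt hF h2)
    rw [h1] at h4
    exact h4

theorem qmx_mean {h : ℂ → ℂ} (hh : DifferentiableOn ℂ h (Metric.ball 0 1)) :
    ∫ x in (0 : ℝ)..1, h (Function.Periodic.qParam 1 ((x : ℂ) + Complex.I)) = h 0 := by
  set R : ℝ := Real.exp (-(2 * Real.pi)) with hR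
  have hR0 : 0 < R := Real.exp_pos _
  have hR1 : R < 1 := by
    rw [hR, Real.exp_lt_one_iff]
    linarith [Real.pi_pos]
  have h1 : ∀ x : ℝ, Function.Periodic.qParam 1 ((x : ℂ) + Complex.I) =
      circleMap 0 R (2 * Real.pi * x) := by
    intro x
    rw [Function.Periodic.qParam, circleMap, zero_add, hR, Complex.ofReal_exp, ← Complex.exp_add]
    congr 1
    push_cast
    linear_combination (2 * (Real.pi : ℂ)) * Complex.I_mul_I
  simp only [h1]
  have h2 : DiffContOnCl ℂ h (Metric.ball 0 |R|) := by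
    apply DifferentiableOn.diffContOnCl_ball hh
    rw [abs_of_pos hR0]
    exact Metric.closedBall_subset_ball hR1
  have h3 := h2.circleAverage
  rw [Real.circleAverage_def] at h3
  rw [intervalIntegral.integral_comp_mul_left (fun θ => h (circleMap 0 R θ))
    (by positivity : (2 * Real.pi) ≠ 0), mul_zero, mul_one, h3]

theorem qmx_coef {F : ℍ → ℂ} (hF : Hol F) (hp : ∀ z : ℍ, F ((1 : ℝ) +ᵥ z) = F z)
    (hb : ∃ C : ℝ, ∀ z : ℍ, 1 ≤ z.im → ‖F z‖ ≤ C) (j : ℕ)
    (h1 : DifferentiableOn ℂ (qmx_k F j) (Metric.ball 0 1))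
    (h2 : ∀ q, qmx_g F q = q ^ j * qmx_k F j q) : fc F j = qmx_k F j 0 := by
  rw [← qmx_mean h1]
  unfold fc
  apply intervalIntegral.integral_congr
  intro x _
  simp only
  rw [← qmx_g_eq hp, h2]
  have h3 : Function.Periodic.qParam 1 ((x : ℂ) + Complex.I) ^ j *
      cexp (-(2 * Real.pi * Complex.I * j * ((x : ℂ) + Complex.I))) = 1 := by
    rw [Function.Periodic.qParam, ← Complex.exp_nat_mul, ← Complex.exp_add, Complex.exp_eq_one_iff]
    refine ⟨0, ?_⟩
    push_cast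
    ring
  rw [mul_right_comm, h3, one_mul]

theorem qmx_step {F : ℍ → ℂ} (hF : Hol F) (hp : ∀ z : ℍ, F ((1 : ℝ) +ᵥ z) = F z)
    (hb : ∃ C : ℝ, ∀ z : ℍ, 1 ≤ z.im → ‖F z‖ ≤ C) (j : ℕ) (h0 : ∀ i < j, fc F i = 0) :
    DifferentiableOn ℂ (qmx_k F j) (Metric.ball 0 1) ∧ ∀ q, qmx_g F q = q ^ j * qmx_k F j q := by
  induction j with
  | zero => exact ⟨qmx_g_diff hF hp hb, fun q => by rw [pow_zero, one_mul]; rfl⟩
  | succ j ih =>
    obtain ⟨h1, h2⟩ := ih (fun i hi => h0 i (Nat.lt_succ_of_lt hi))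
    have h3 := qmx_coef hF hp hb j h1 h2
    rw [h0 j (Nat.lt_succ_self j)] at h3
    refine ⟨?_, fun q => ?_⟩
    · exact (Complex.differentiableOn_dslope (Metric.ball_mem_nhds 0 one_pos)).mpr h1
    · rw [h2 q]
      have h4 := sub_smul_dslope (qmx_k F j) 0 q
      rw [← h3, sub_zero, sub_zero, smul_eq_mul] at h4
      rw [← h4, pow_succ, mul_assoc]
      rfl

theorem fc_max_pr {F : ℍ → ℂ} (hF : Hol F) (hp : ∀ z : ℍ, F ((1 : ℝ) +ᵥ z) = F z)
    (hb : ∃ C : ℝ, ∀ z : ℍ, 1 ≤ z.im → ‖F z‖ ≤ C) (M : ℕ) (h0 : ∀ n ≤ M, fc F n = 0)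
    {y₁ B : ℝ} (hy : 0 < y₁) (hB : ∀ z : ℍ, z.im = y₁ → ‖F z‖ ≤ B) (z : ℍ) (hz : y₁ ≤ z.im) :
    ‖F z‖ ≤ B * Real.exp (-2 * Real.pi * (M + 1) * (z.im - y₁)) := by
  obtain ⟨h1, h2⟩ := qmx_step hF hp hb (M + 1) (fun i hi => h0 i (Nat.lt_succ_iff.mp hi))
  set R : ℝ := Real.exp (-2 * Real.pi * y₁) with hR
  have hR0 : 0 < R := Real.exp_pos _
  have hR1 : R < 1 := by
    rw [hR, Real.exp_lt_one_iff]
    nlinarith [mul_pos Real.pi_pos hy]
  have h3 : DiffContOnCl ℂ (qmx_k F (M + 1)) (Metric.ball 0 R) :=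
    DifferentiableOn.diffContOnCl_ball h1 (Metric.closedBall_subset_ball hR1)
  have h4 : ∀ q ∈ frontier (Metric.ball (0 : ℂ) R), ‖qmx_k F (M + 1) q‖ ≤ B / R ^ (M + 1) := by
    intro q hq
    rw [frontier_ball _ hR0.ne', mem_sphere_zero_iff_norm] at hq
    have hq0 : q ≠ 0 := by
      intro h
      rw [h, norm_zero] at hq
      exact hR0.ne hq
    have h5 : Function.Periodic.qParam 1 (Function.Periodic.invQParam 1 q) = q :=
      Function.Periodic.qParam_right_inv one_ne_zero hq0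
    have h6 : (Function.Periodic.invQParam 1 q).im = y₁ := by
      have h7 := Function.Periodic.norm_qParam 1 (Function.Periodic.invQParam 1 q)
      rw [h5, hq, hR, div_one] at h7
      have h8 := Real.exp_injective h7
      have h9 : (-2 * Real.pi) ≠ 0 := by
        have := Real.pi_pos
        intro h
        linarith
      exact (mul_left_cancel₀ h9 h8).symm
    have h10 : 0 < (Function.Periodic.invQParam 1 q).im := by rw [h6]; exact hy
    have h11 : ‖qmx_g F q‖ ≤ B := by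
      rw [← h5, qmx_g_eq hp, UpperHalfPlane.ofComplex_apply_of_im_pos h10]
      exact hB _ h6
    rw [h2, norm_mul, norm_pow, hq] at h11
    rw [le_div_iff₀ (pow_pos hR0 _), mul_comm]
    exact h11
  have hqn : ‖Function.Periodic.qParam 1 (z : ℂ)‖ = Real.exp (-2 * Real.pi * z.im) := by
    rw [Function.Periodic.norm_qParam, div_one]
    rfl
  have hmem : Function.Periodic.qParam 1 (z : ℂ) ∈ closure (Metric.ball (0 : ℂ) R) := by
    rw [closure_ball _ hR0.ne', mem_closedBall_zero_iff, hqn, hR, Real.exp_le_exp]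
    nlinarith [Real.pi_pos]
  have h12 := Complex.norm_le_of_forall_mem_frontier_norm_le Metric.isBounded_ball h3 h4 hmem
  have h13 : F z = qmx_g F (Function.Periodic.qParam 1 (z : ℂ)) := by
    rw [qmx_g_eq hp, UpperHalfPlane.ofComplex_apply]
  rw [h13, h2, norm_mul, norm_pow, hqn]
  calc Real.exp (-2 * Real.pi * z.im) ^ (M + 1) * ‖qmx_k F (M + 1) (Function.Periodic.qParam 1 z)‖
      ≤ Real.exp (-2 * Real.pi * z.im) ^ (M + 1) * (B / R ^ (M + 1)) := by gcongr
    _ = B * Real.exp (-2 * Real.pi * (M + 1) * (z.im - y₁)) := by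
      rw [hR, ← Real.exp_nat_mul, ← Real.exp_nat_mul, mul_div_assoc', mul_comm _ B, mul_div_assoc,
        ← Real.exp_sub]
      congr 2
      push_cast
      ring

theorem fc_zero_pr {F : ℍ → ℂ} (hF : Hol F) (hp : ∀ z : ℍ, F ((1 : ℝ) +ᵥ z) = F z)
    (hb : ∃ C : ℝ, ∀ z : ℍ, 1 ≤ z.im → ‖F z‖ * z.im ≤ C) : fc F 0 = 0 := by
  obtain ⟨C, hC⟩ := hb
  have hb' : ∃ C : ℝ, ∀ z : ℍ, 1 ≤ z.im → ‖F z‖ ≤ C := by
    refine ⟨C, fun z hz => le_trans ?_ (hC z hz)⟩
    exact le_mul_of_one_le_right (norm_nonneg _) hz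
  rw [qmx_coef hF hp hb' 0 (qmx_g_diff hF hp hb') (fun q => by rw [pow_zero, one_mul]; rfl)]
  apply Function.Periodic.cuspFunction_zero_of_zero_at_inf one_pos
  show Tendsto _ _ _
  rw [tendsto_zero_iff_norm_tendsto_zero]
  have h1 : Tendsto (fun z : ℂ => C / z.im) (comap Complex.im atTop) (𝓝 0) :=
    (tendsto_const_nhds.div_atTop tendsto_id).comp tendsto_comap
  refine squeeze_zero' (Eventually.of_forall (fun z => norm_nonneg _)) ?_ h1
  refine (tendsto_comap.eventually (eventually_ge_atTop (1 : ℝ))).mono (fun z hz => ?_)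
  have hz0 : 0 < z.im := lt_of_lt_of_le one_pos hz
  rw [le_div_iff₀ hz0, UpperHalfPlane.ofComplex_apply_of_im_pos hz0]
  exact hC ⟨z, hz0⟩ hz

theorem qmx_cont {F : ℍ → ℂ} (hF : Hol F) (n : ℕ) : Continuous (fun x : ℝ =>
    F (UpperHalfPlane.ofComplex ((x : ℂ) + Complex.I)) *
      cexp (-(2 * Real.pi * Complex.I * n * ((x : ℂ) + Complex.I)))) := by
  have h1 : ContinuousOn (fun z : ℂ => F (UpperHalfPlane.ofComplex z)) {z : ℂ | 0 < z.im} :=
    hF.continuousOn
  have h2 : Continuous (fun x : ℝ => F (UpperHalfPlane.ofComplex ((x : ℂ) + Complex.I))) := by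
    apply h1.comp_continuous (f := fun x : ℝ => (x : ℂ) + Complex.I) (by fun_prop)
    intro x
    show 0 < ((x : ℂ) + Complex.I).im
    simp
  exact h2.mul (by fun_prop)

section
variable {N : ℕ} [Fact N.Prime]

theorem fc_lin_pr {m : ℕ} {ε : ℂ} (n : ℕ) : ∃ l : VV N m ε →ₗ[ℂ] ℂ, ∀ F, l F = fc (F : ℍ → ℂ) n := by
  refine ⟨{ toFun := fun F => fc (F : ℍ → ℂ) n, map_add' := ?_, map_smul' := ?_ }, fun F => rfl⟩
  · intro F G
    have hF : IsV N m ε (F : ℍ → ℂ) := F.2
    have hG : IsV N m ε (G : ℍ → ℂ) := G.2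
    unfold fc
    rw [← intervalIntegral.integral_add ((qmx_cont hF.holo n).intervalIntegrable _ _)
      ((qmx_cont hG.holo n).intervalIntegrable _ _)]
    apply intervalIntegral.integral_congr
    intro x _
    simp only [Submodule.coe_add, Pi.add_apply, add_mul]
  · intro c F
    unfold fc
    rw [RingHom.id_apply, smul_eq_mul, ← intervalIntegral.integral_const_mul]
    apply intervalIntegral.integral_congr
    intro x _
    simp only [Submodule.coe_smul, Pi.smul_apply, smul_eq_mul, mul_assoc]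

end

theorem fc_max : type_of% @fc_max_pr := @fc_max_pr

theorem fc_zero : type_of% @fc_zero_pr := @fc_zero_pr

theorem fc_lin : type_of% @fc_lin_pr := @fc_lin_pr

end Pool.Agent.DIMK
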