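import Pool.Agent.Lib_helper41.DIM.Defs
import Pool.Agent.Lib_helper98.WAF.A1
import Pool.Agent.Lib_helper98.WAF.A2
import Pool.Agent.Lib_helper98.WAF.A4
import Pool.Agent.Lib_helper41.DIMF.COV
import Pool.Agent.Lib_helper41.DIMF.QMX

/-! DIM block FDV: finite dimension -/

namespace Pool.Agent.DIMK

open Complex MeasureTheory Filter Topology UpperHalfPlane ModularGroup CongruenceSubgroup
open scoped MatrixGroups Modular ENNReal ModularForm ComplexConjugate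
open Pool.Agent.LEV (PX pa sg wz S2 G0 co IsFricke Hol)
open Pool.Agent.WA (ch)

section
variable {N : ℕ} [Fact N.Prime]

theorem fdv_nf (m : ℕ) (F : ℍ → ℂ) (z : ℍ) : ‖nf m F z‖ = ‖F z‖ * z.im ^ m := by
  unfold nf
  rw [norm_mul, Complex.norm_real, Real.norm_of_nonneg (pow_nonneg z.im_pos.le m)]

theorem fdv_period {m : ℕ} {ε : ℂ} {F : ℍ → ℂ} (hF : F ∈ VV N m ε) (z : ℍ) :
    F ((1 : ℝ) +ᵥ z) = F z := by
  have hF' : IsV N m ε F := hF
  have hT : T ∈ Gamma0 N := by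
    rw [Gamma0_mem]
    have : (T : SL(2, ℤ)) 1 0 = 0 := rfl
    rw [this]
    simp
  have h := hF'.slash T hT z
  rw [UpperHalfPlane.modular_T_smul] at h
  rw [h]
  have hj : LEV.jd T z = 1 := by
    unfold LEV.jd
    have h1 : (T : SL(2, ℤ)) 1 0 = 0 := rfl
    have h2 : (T : SL(2, ℤ)) 1 1 = 1 := rfl
    rw [h1, h2]
    simp
  rw [hj, one_pow, one_mul]

theorem fdv_exp {m : ℕ} {K s : ℝ} (hK : (m : ℝ) + 1 ≤ K) (hs : 2 ≤ s) :
    s ^ m * Real.exp (-(K * (s - 1))) ≤ 1 / 2 := by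
  have h1 : s ≤ Real.exp (s - 1) := by
    have := Real.add_one_le_exp (s - 1)
    linarith
  have h2 : s ^ m ≤ Real.exp (m * (s - 1)) := by
    calc s ^ m ≤ Real.exp (s - 1) ^ m := pow_le_pow_left₀ (by linarith) h1 m
      _ = Real.exp (m * (s - 1)) := by rw [← Real.exp_nat_mul]
  calc s ^ m * Real.exp (-(K * (s - 1))) ≤ Real.exp (m * (s - 1)) * Real.exp (-(K * (s - 1))) := by
        gcongr
    _ = Real.exp (-((K - m) * (s - 1))) := by
        rw [← Real.exp_add]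
        congr 1
        ring
    _ ≤ Real.exp (-1) := by
        apply Real.exp_le_exp.2
        have : 1 * 1 ≤ (K - m) * (s - 1) := mul_le_mul (by linarith) (by linarith) (by norm_num)
          (by linarith)
        linarith
    _ ≤ 1 / 2 := by
        rw [Real.exp_neg, one_div]
        apply inv_anti₀ (by norm_num)
        have := Real.add_one_le_exp (1 : ℝ)
        linarith

theorem fdv_zero (m : ℕ) {ε : ℂ} (hε : ε = 1 ∨ ε = -1) : ∃ M : ℕ, ∀ F ∈ VV N m ε,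
    (∀ n ≤ M, fc F n = 0) → F = 0 := by
  have hN0 : (0 : ℝ) < N := Nat.cast_pos.2 (Fact.out : N.Prime).pos
  set y₁ : ℝ := Real.sqrt 3 / (2 * N) / 2 with hy₁
  have h3 : 0 < Real.sqrt 3 := Real.sqrt_pos.2 (by norm_num)
  have hy0 : 0 < y₁ := by positivity
  obtain ⟨M, hM⟩ := exists_nat_ge (((m : ℝ) + 1) / (2 * Real.pi * y₁))
  refine ⟨M, fun F hF h0 => ?_⟩
  have hF' : IsV N m ε F := hF
  have hpi := Real.pi_pos
  have hK : (m : ℝ) + 1 ≤ 2 * Real.pi * (M + 1) * y₁ := by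
    rw [div_le_iff₀ (by positivity)] at hM
    nlinarith [mul_pos (mul_pos two_pos hpi) hy0]
  obtain ⟨C, hC⟩ := hF'.bound
  have hC' : ∀ z : ℍ, ‖nf m F z‖ ≤ C := fun z => by rw [fdv_nf]; exact hC z
  have hbdd : BddAbove (Set.range fun z : ℍ => ‖nf m F z‖) := ⟨C, by
    rintro _ ⟨z, rfl⟩
    exact hC' z⟩
  set μ : ℝ := ⨆ z : ℍ, ‖nf m F z‖ with hμ
  have hle : ∀ z : ℍ, ‖nf m F z‖ ≤ μ := fun z => le_ciSup hbdd z
  have hμ0 : 0 ≤ μ := (norm_nonneg _).trans (hle UpperHalfPlane.I)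
  have hb1 : ∃ C : ℝ, ∀ z : ℍ, 1 ≤ z.im → ‖F z‖ ≤ C := ⟨C, fun z hz => by
    have h1 : (1 : ℝ) ≤ z.im ^ m := one_le_pow₀ hz
    calc ‖F z‖ = ‖F z‖ * 1 := (mul_one _).symm
      _ ≤ ‖F z‖ * z.im ^ m := by gcongr
      _ ≤ C := hC z⟩
  have hmax := fc_max hF'.holo (fdv_period hF) hb1 M h0 (y₁ := y₁) (B := μ / y₁ ^ m) hy0
    (fun z hz => by
      rw [le_div_iff₀ (by positivity), ← hz, ← fdv_nf]
      exact hle z)
  have hhigh : ∀ z : ℍ, Real.sqrt 3 / (2 * N) ≤ z.im → ‖nf m F z‖ ≤ μ / 2 := by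
    intro z hz
    have hz2 : 2 * y₁ ≤ z.im := by rw [hy₁]; linarith
    have h1 := hmax z (by linarith)
    rw [fdv_nf]
    set s : ℝ := z.im / y₁ with hs
    have hs2 : 2 ≤ s := by rw [hs, le_div_iff₀ hy0]; exact hz2
    have hzs : z.im = s * y₁ := by rw [hs, div_mul_cancel₀ _ hy0.ne']
    have h2 := fdv_exp hK hs2
    calc ‖F z‖ * z.im ^ m ≤ μ / y₁ ^ m * Real.exp (-2 * Real.pi * (M + 1) * (z.im - y₁)) *
          z.im ^ m := by
          gcongr
      _ = μ * (s ^ m * Real.exp (-(2 * Real.pi * (M + 1) * y₁ * (s - 1)))) := by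
          rw [hzs, mul_pow]
          have e1 : -2 * Real.pi * ((M : ℝ) + 1) * (s * y₁ - y₁) =
              -(2 * Real.pi * (M + 1) * y₁ * (s - 1)) := by ring
          rw [e1]
          field_simp
      _ ≤ μ * (1 / 2) := by gcongr
      _ = μ / 2 := by ring
  obtain ⟨hi1, hi2⟩ := nf_inv hε hF
  have hall : ∀ z : ℍ, ‖nf m F z‖ ≤ μ / 2 := by
    intro z
    obtain ⟨g, hg, h1 | h1⟩ := cov (N := N) z
    · rw [← hi1 g hg z]
      exact hhigh _ h1
    · rw [← hi2 z, ← hi1 g hg (wz N z)]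
      exact hhigh _ h1
  have hμ2 : μ ≤ μ / 2 := ciSup_le hall
  have hμ3 : μ = 0 := by linarith
  funext z
  have h4 := hle z
  rw [hμ3, fdv_nf] at h4
  have h5 : 0 < z.im ^ m := pow_pos z.im_pos m
  have h6 : ‖F z‖ ≤ 0 := by
    by_contra hcon
    have := mul_pos (not_le.1 hcon) h5
    linarith
  simpa using h6

theorem fdv_pr (m : ℕ) {ε : ℂ} (hε : ε = 1 ∨ ε = -1) : FiniteDimensional ℂ (VV N m ε) := by
  obtain ⟨M, hM⟩ := fdv_zero (N := N) m hε
  choose l hl using fun n : ℕ => fc_lin (N := N) (m := m) (ε := ε) n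
  set Φ : VV N m ε →ₗ[ℂ] (Fin (M + 1) → ℂ) := LinearMap.pi fun n : Fin (M + 1) => l n with hΦ
  have hinj : Function.Injective Φ := by
    rw [← LinearMap.ker_eq_bot, LinearMap.ker_eq_bot']
    intro F hF
    apply Subtype.ext
    refine hM F F.2 fun n hn => ?_
    have h1 := congrFun hF ⟨n, by omega⟩
    rw [hΦ, LinearMap.pi_apply] at h1
    rw [← hl n F]
    exact h1
  exact FiniteDimensional.of_injective Φ hinj

end

theorem fdv : type_of% @fdv_pr := @fdv_pr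

end Pool.Agent.DIMK
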