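import Pool.Agent.Lib_helper41.DIM.Defs
import Pool.Agent.Lib_helper98.WAF.A1
import Pool.Agent.Lib_helper98.WAF.A2
import Pool.Agent.Lib_helper98.WAF.A4
import Pool.Agent.Lib_helper68.LEV.FAM
import Pool.Agent.Lib_helper41.DIMF.COV
import Pool.Agent.Lib_helper41.DIMF.QMX
import Pool.Agent.Lib_helper41.DIMF.FDV
import Pool.Agent.Lib_helper41.DIMF.COS

/-! # DIM, block DVN: division by the discriminant (cites fc_max fc_zero fc_lin cov fdv wz_im) -/

namespace Pool.Agent.DIMK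

open Complex MeasureTheory Filter Topology UpperHalfPlane ModularGroup CongruenceSubgroup
open scoped MatrixGroups Modular ENNReal ModularForm ComplexConjugate Manifold
open Pool.Agent.LEV (PX pa sg wz S2 G0 co IsFricke Hol)
open Pool.Agent.WA (ch)

theorem dvn_denom (g : SL(2, ℤ)) (z : ℍ) : denom g z = LEV.jd g z := by
  rw [denom_apply]
  rfl

theorem dvn_ne (g : SL(2, ℤ)) (z : ℍ) : LEV.jd g z ≠ 0 := by
  rw [← dvn_denom]
  exact denom_ne_zero _ _

/-- the discriminant under `SL(2,Z)` -/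
theorem dvn_disc (g : SL(2, ℤ)) (z : ℍ) :
    ModularForm.discriminant (g • z) = LEV.jd g z ^ 12 * ModularForm.discriminant z := by
  have h := congrFun (SlashInvariantForm.slash_action_generators_SL2Z ModularForm.discriminant_S_invariant
    ModularForm.discriminant_T_invariant g) z
  rw [ModularForm.SL_slash_apply, dvn_denom] at h
  have hn := dvn_ne g z
  have e : LEV.jd g z ^ (-(12 : ℤ)) = (LEV.jd g z ^ 12)⁻¹ := by
    rw [zpow_neg]
    norm_cast
  rw [e] at h
  rw [← h]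
  field_simp

section
variable {N : ℕ} [Fact N.Prime]

theorem dvn_Npos : (0 : ℝ) < N := by exact_mod_cast (Fact.out : N.Prime).pos

theorem dvn_Nc : (N : ℂ) ≠ 0 := by exact_mod_cast (Fact.out : N.Prime).ne_zero

variable (N) in
/-- `N z` -/
noncomputable def dvn_nz (z : ℍ) : ℍ :=
  ⟨(N : ℂ) * (z : ℂ), by
    have h1 : ((N : ℂ) * (z : ℂ)).im = N * z.im := by simp
    rw [h1]
    exact mul_pos dvn_Npos z.im_pos⟩

theorem dvn_nz_coe (z : ℍ) : ((dvn_nz N z : ℍ) : ℂ) = (N : ℂ) * (z : ℂ) := rfl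

theorem dvn_nz_im (z : ℍ) : (dvn_nz N z).im = N * z.im := by
  have h1 : ((N : ℂ) * (z : ℂ)).im = N * z.im := by simp
  exact h1

variable (N) in
/-- `Δ(z) Δ(N z)` -/
noncomputable def dvn_D (z : ℍ) : ℂ :=
  ModularForm.discriminant z * ModularForm.discriminant (dvn_nz N z)

theorem dvn_D_ne (z : ℍ) : dvn_D N z ≠ 0 :=
  mul_ne_zero (ModularForm.discriminant_ne_zero _) (ModularForm.discriminant_ne_zero _)

theorem dvn_D_slash (g : SL(2, ℤ)) (hg : g ∈ Gamma0 N) (z : ℍ) :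
    dvn_D N (g • z) = LEV.jd g z ^ 24 * dvn_D N z := by
  have hc : ((g 1 0 : ℤ) : ZMod N) = 0 := by
    rw [Gamma0_mem] at hg
    exact hg
  obtain ⟨c', hc'⟩ := (ZMod.intCast_zmod_eq_zero_iff_dvd _ _).1 hc
  have hdet : (g 0 0 : ℤ) * g 1 1 - g 0 1 * g 1 0 = 1 := by
    have := g.det_coe
    rwa [Matrix.det_fin_two] at this
  set g' : SL(2, ℤ) := ⟨!![g 0 0, g 0 1 * N; c', g 1 1], by
    rw [Matrix.det_fin_two_of]
    rw [hc'] at hdet
    linear_combination hdet⟩ with hg'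
  have e00 : (g' 0 0 : ℤ) = g 0 0 := rfl
  have e01 : (g' 0 1 : ℤ) = g 0 1 * N := rfl
  have e10 : (g' 1 0 : ℤ) = c' := rfl
  have e11 : (g' 1 1 : ℤ) = g 1 1 := rfl
  have hj : LEV.jd g' (dvn_nz N z) = LEV.jd g z := by
    unfold LEV.jd
    rw [e10, e11, dvn_nz_coe, hc']
    push_cast
    ring
  have hnz : dvn_nz N (g • z) = g' • dvn_nz N z := by
    apply UpperHalfPlane.ext
    rw [dvn_nz_coe, Pool.Agent.GL2.RSA_coe_smul, Pool.Agent.GL2.RSA_coe_smul]
    have h1 : ((g' 1 0 : ℤ) : ℂ) * ((dvn_nz N z : ℍ) : ℂ) + ((g' 1 1 : ℤ) : ℂ) =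
      LEV.jd g z := hj
    have h2 : ((g 1 0 : ℤ) : ℂ) * (z : ℂ) + ((g 1 1 : ℤ) : ℂ) = LEV.jd g z := rfl
    rw [h1, h2, e00, e01, dvn_nz_coe]
    push_cast
    ring
  unfold dvn_D
  rw [hnz, dvn_disc, dvn_disc, hj]
  ring

theorem dvn_D_fricke (z : ℍ) : dvn_D N (wz N z) = (N : ℂ) ^ 12 * (z : ℂ) ^ 24 * dvn_D N z := by
  have hN := dvn_Nc (N := N)
  have hz : (z : ℂ) ≠ 0 := z.ne_zero
  have h1 : wz N z = S • dvn_nz N z := by
    apply UpperHalfPlane.ext
    rw [Pool.Agent.GL2.RSA_coe_smul]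
    have : ((wz N z : ℍ) : ℂ) = -1 / ((N : ℂ) * (z : ℂ)) := rfl
    rw [this, dvn_nz_coe]
    simp [S]
  have h2 : dvn_nz N (wz N z) = S • z := by
    apply UpperHalfPlane.ext
    rw [dvn_nz_coe, Pool.Agent.GL2.RSA_coe_smul]
    have : ((wz N z : ℍ) : ℂ) = -1 / ((N : ℂ) * (z : ℂ)) := rfl
    rw [this]
    simp [S]
    field_simp
  have j1 : LEV.jd S (dvn_nz N z) = (N : ℂ) * (z : ℂ) := by
    unfold LEV.jd
    rw [dvn_nz_coe]
    simp [S]
  have j2 : LEV.jd S z = (z : ℂ) := by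
    unfold LEV.jd
    simp [S]
  unfold dvn_D
  rw [h2]
  rw [h1]
  rw [dvn_disc, dvn_disc, j1, j2]
  ring

theorem dvn_D_hol : Hol (dvn_D N) := by
  have h := UpperHalfPlane.mdifferentiable_iff.mp CuspForm.discriminant.holo'
  have h0 : DifferentiableOn ℂ (fun z : ℂ => ModularForm.discriminant (UpperHalfPlane.ofComplex z))
      {z : ℂ | 0 < z.im} := h
  have h1 : DifferentiableOn ℂ
      (fun z : ℂ => ModularForm.discriminant (UpperHalfPlane.ofComplex ((N : ℂ) * z)))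
      {z : ℂ | 0 < z.im} := by
    refine h0.comp (g := fun z : ℂ => ModularForm.discriminant (UpperHalfPlane.ofComplex z))
      (f := fun z : ℂ => (N : ℂ) * z) (by fun_prop) ?_
    intro z hz
    have h2 : ((N : ℂ) * z).im = N * z.im := by simp
    change 0 < ((N : ℂ) * z).im
    rw [h2]
    exact mul_pos dvn_Npos hz
  refine (h0.mul h1).congr ?_
  intro z hz
  have hz' : 0 < z.im := hz
  have h3 : dvn_nz N (UpperHalfPlane.ofComplex z) = UpperHalfPlane.ofComplex ((N : ℂ) * z) := by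
    apply UpperHalfPlane.ext
    have h2 : ((N : ℂ) * z).im = N * z.im := by simp
    rw [dvn_nz_coe, ofComplex_apply_of_im_pos hz', ofComplex_apply_of_im_pos]
    rw [h2]
    exact mul_pos dvn_Npos hz'
  change dvn_D N (UpperHalfPlane.ofComplex z) = _
  unfold dvn_D
  rw [h3]
  rfl

/-- lower bound for the discriminant -/
theorem dvn_low {y₀ : ℝ} (hy : 0 < y₀) : ∃ c : ℝ, 0 < c ∧ ∀ z : ℍ, y₀ ≤ z.im →
    c * Real.exp (-2 * Real.pi * z.im) ≤ ‖ModularForm.discriminant z‖ := by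
  set r : ℝ := Real.exp (-2 * Real.pi * y₀) with hr
  have hr0 : 0 < r := Real.exp_pos _
  have hr1 : r < 1 := by
    have h1 : Real.exp (-2 * Real.pi * y₀) < Real.exp 0 := by
      apply Real.exp_lt_exp.mpr
      have := Real.pi_pos
      nlinarith
    rwa [Real.exp_zero] at h1
  set G : ℂ → ℂ := fun q => ∏' n : ℕ, (1 - q ^ (n + 1)) ^ 24 with hG
  have hcont : ContinuousOn G (Metric.closedBall 0 r) :=
    (ModularForm.differentiableOn_tprod_one_sub_pow_pow 24).continuousOn.mono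
      (Metric.closedBall_subset_ball hr1)
  have hne : ∀ q ∈ Metric.closedBall (0 : ℂ) r, G q ≠ 0 := by
    intro q hq
    have hq1 : ‖q‖ < 1 := by
      have : ‖q‖ ≤ r := by simpa using hq
      linarith
    have h1 : G q = (∏' n : ℕ, (1 - q ^ (n + 1))) ^ 24 :=
      (ModularForm.multipliable_one_sub_pow hq1).tprod_pow 24
    rw [h1]
    apply pow_ne_zero
    have h2 : ∏' n : ℕ, (1 + (-q ^ (n + 1))) ≠ 0 := by
      apply tprod_one_add_ne_zero_of_summable
      · intro i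
        rw [← sub_eq_add_neg, sub_ne_zero]
        intro h
        have h3 : ‖q ^ (i + 1)‖ < 1 := by
          rw [norm_pow]
          exact pow_lt_one₀ (norm_nonneg _) hq1 (by omega)
        rw [← h, norm_one] at h3
        exact lt_irrefl _ h3
      · simpa using (summable_nat_add_iff 1).mpr (summable_geometric_of_lt_one (norm_nonneg _) hq1)
    simpa [sub_eq_add_neg] using h2
  obtain ⟨q₀, hq₀, hmin⟩ := (isCompact_closedBall (0 : ℂ) r).exists_isMinOn
    ⟨0, by simp [hr0.le]⟩ hcont.norm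
  refine ⟨‖G q₀‖, norm_pos_iff.mpr (hne q₀ hq₀), ?_⟩
  intro z hz
  rw [ModularForm.discriminant_eq_q_prod, norm_mul]
  have hqn : ‖Function.Periodic.qParam 1 (z : ℂ)‖ = Real.exp (-2 * Real.pi * z.im) := by
    simp [Function.Periodic.qParam, Complex.norm_exp]
  have hqe : ∀ n : ℕ, ModularForm.eta_q n z = (Function.Periodic.qParam 1 (z : ℂ)) ^ (n + 1) := by
    intro n
    rfl
  have hmem : Function.Periodic.qParam 1 (z : ℂ) ∈ Metric.closedBall (0 : ℂ) r := by
    rw [mem_closedBall_zero_iff, hqn, hr]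
    apply Real.exp_le_exp.mpr
    have := Real.pi_pos
    nlinarith
  have h4 : ‖G q₀‖ ≤ ‖G (Function.Periodic.qParam 1 (z : ℂ))‖ := hmin hmem
  have h5 : ∏' n : ℕ, (1 - ModularForm.eta_q n z) ^ 24 = G (Function.Periodic.qParam 1 (z : ℂ)) := by
    rw [hG]
  rw [h5, hqn, mul_comm]
  exact mul_le_mul_of_nonneg_left h4 (Real.exp_pos _).le

/-- invariance of `‖G‖ y` for the quotient -/
theorem dvn_inv {ε : ℂ} (hε : ε = 1 ∨ ε = -1) {G : ℍ → ℂ}
    (h1 : ∀ g : SL(2, ℤ), g ∈ Gamma0 N → ∀ z : ℍ, G (g • z) = LEV.jd g z ^ (2 * 1) * G z)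
    (h2 : ∀ z : ℍ, G (wz N z) = ε * (N : ℂ) ^ 1 * (z : ℂ) ^ (2 * 1) * G z) :
    (∀ g : SL(2, ℤ), g ∈ Gamma0 N → ∀ z : ℍ, ‖G (g • z)‖ * (g • z).im = ‖G z‖ * z.im) ∧
    (∀ z : ℍ, ‖G (wz N z)‖ * (wz N z).im = ‖G z‖ * z.im) := by
  constructor
  · intro g hg z
    rw [h1 g hg z, Pool.Agent.GL2.RSA_im_smul, norm_mul, norm_pow]
    have hj : ((g 1 0 : ℤ) * (z : ℂ) + (g 1 1 : ℤ)) = LEV.jd g z := rfl
    rw [hj]
    have hn : ‖LEV.jd g z‖ ≠ 0 := norm_ne_zero_iff.mpr (dvn_ne g z)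
    field_simp
    ring
  · intro z
    have hεn : ‖ε‖ = 1 := by
      rcases hε with h | h <;> rw [h] <;> simp
    have hN := dvn_Npos (N := N)
    have hz : ‖(z : ℂ)‖ ≠ 0 := norm_ne_zero_iff.mpr z.ne_zero
    rw [h2, wz_im, norm_mul, norm_mul, norm_mul, hεn, norm_pow, norm_pow, Complex.norm_natCast,
      Complex.normSq_eq_norm_sq]
    field_simp
    ring

/-- the quotient by `D` -/
theorem dvn_quot {ε : ℂ} (hε : ε = 1 ∨ ε = -1) {F : ℍ → ℂ} (hF : IsV N 13 ε F)
    (h0 : ∀ n : ℕ, 1 ≤ n → n ≤ N + 1 → fc F n = 0) : IsV N 1 ε (fun z => F z / dvn_D N z) := by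
  have hslash : ∀ g : SL(2, ℤ), g ∈ Gamma0 N → ∀ z : ℍ,
      (fun z => F z / dvn_D N z) (g • z) = LEV.jd g z ^ (2 * 1) * (fun z => F z / dvn_D N z) z := by
    intro g hg z
    simp only
    rw [hF.slash g hg, dvn_D_slash g hg]
    have h1 := dvn_ne g z
    have h2 := dvn_D_ne (N := N) z
    field_simp
    ring
  have hfr : ∀ z : ℍ, (fun z => F z / dvn_D N z) (wz N z) =
      ε * (N : ℂ) ^ 1 * (z : ℂ) ^ (2 * 1) * (fun z => F z / dvn_D N z) z := by
    intro z
    simp only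
    rw [hF.fricke, dvn_D_fricke]
    have h1 : (z : ℂ) ≠ 0 := z.ne_zero
    have h2 := dvn_D_ne (N := N) z
    have h3 := dvn_Nc (N := N)
    field_simp
    ring
  refine ⟨?_, hslash, hfr, ?_⟩
  · exact hF.holo.div dvn_D_hol (fun z _ => dvn_D_ne _)
  -- the bound
  have hN := dvn_Npos (N := N)
  have hN1 : (1 : ℝ) ≤ N := by exact_mod_cast (Fact.out : N.Prime).one_lt.le
  set y₀ : ℝ := Real.sqrt 3 / (2 * N) with hy₀
  have hy0 : 0 < y₀ := by positivity
  obtain ⟨C, hC⟩ := hF.bound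
  have hC0 : 0 ≤ C := by
    have := hC UpperHalfPlane.I
    refine le_trans ?_ this
    positivity
  have hper : ∀ z : ℍ, F ((1 : ℝ) +ᵥ z) = F z := by
    intro z
    have hT : T ∈ Gamma0 N := by
      rw [Gamma0_mem]
      simp [T]
    have h := hF.slash T hT z
    rw [modular_T_smul] at h
    rw [h]
    have : LEV.jd T z = 1 := by
      unfold LEV.jd
      simp [T]
    rw [this, one_pow, one_mul]
  have hb1 : ∀ z : ℍ, 1 ≤ z.im → ‖F z‖ * z.im ≤ C := by
    intro z hz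
    refine le_trans ?_ (hC z)
    apply mul_le_mul_of_nonneg_left _ (norm_nonneg _)
    calc z.im = z.im ^ 1 := (pow_one _).symm
      _ ≤ z.im ^ 13 := pow_le_pow_right₀ hz (by norm_num)
  have hb2 : ∀ z : ℍ, 1 ≤ z.im → ‖F z‖ ≤ C := by
    intro z hz
    refine le_trans ?_ (hb1 z hz)
    nlinarith [norm_nonneg (F z)]
  have hz0 : ∀ n ≤ N + 1, fc F n = 0 := by
    intro n hn
    rcases Nat.eq_zero_or_pos n with h | h
    · rw [h]
      exact fc_zero hF.holo hper ⟨C, hb1⟩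
    · exact h0 n h hn
  have hB : ∀ z : ℍ, z.im = y₀ → ‖F z‖ ≤ C / y₀ ^ 13 := by
    intro z hz
    rw [le_div_iff₀ (by positivity), ← hz]
    exact hC z
  have hmax := fun z hz => fc_max hF.holo hper ⟨C, hb2⟩ (N + 1) hz0 hy0 hB z hz
  obtain ⟨c, hc, hlow⟩ := dvn_low hy0
  set K : ℝ := C / y₀ ^ 13 * Real.exp (2 * Real.pi * (N + 2) * y₀) / c ^ 2 with hK
  have hK0 : 0 ≤ K := by positivity
  have hhigh : ∀ z : ℍ, y₀ ≤ z.im → ‖F z / dvn_D N z‖ * z.im ≤ K := by
    intro z hz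
    have h1 := hmax z hz
    have h2 := hlow z hz
    have h3 := hlow (dvn_nz N z) (by
      rw [dvn_nz_im]
      nlinarith)
    rw [dvn_nz_im] at h3
    have hD : c ^ 2 * Real.exp (-2 * Real.pi * (N + 1) * z.im) ≤ ‖dvn_D N z‖ := by
      unfold dvn_D
      rw [norm_mul]
      calc c ^ 2 * Real.exp (-2 * Real.pi * (N + 1) * z.im) =
            (c * Real.exp (-2 * Real.pi * z.im)) * (c * Real.exp (-2 * Real.pi * (N * z.im))) := by
            have : Real.exp (-2 * Real.pi * (N + 1) * z.im) =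
                Real.exp (-2 * Real.pi * z.im) * Real.exp (-2 * Real.pi * (N * z.im)) := by
              rw [← Real.exp_add]; congr 1; ring
            rw [this]; ring
        _ ≤ _ := mul_le_mul h2 h3 (by positivity) (norm_nonneg _)
    have hDp : 0 < c ^ 2 * Real.exp (-2 * Real.pi * (N + 1) * z.im) := by positivity
    rw [norm_div]
    have hE : Real.exp (-2 * Real.pi * (((N + 1 : ℕ) : ℝ) + 1) * (z.im - y₀)) =
        Real.exp (2 * Real.pi * (N + 2) * y₀) * Real.exp (-2 * Real.pi * z.im) *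
          Real.exp (-2 * Real.pi * (N + 1) * z.im) := by
      rw [← Real.exp_add, ← Real.exp_add]
      congr 1
      push_cast
      ring
    have hye : Real.exp (-2 * Real.pi * z.im) * z.im ≤ 1 := by
      have h4 : z.im ≤ Real.exp (2 * Real.pi * z.im) := by
        have h5 := Real.add_one_le_exp (2 * Real.pi * z.im)
        have h6 : 1 ≤ 2 * Real.pi := by
          have := Real.pi_gt_three
          linarith
        nlinarith [z.im_pos]
      have h7 : Real.exp (-2 * Real.pi * z.im) = (Real.exp (2 * Real.pi * z.im))⁻¹ := by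
        rw [← Real.exp_neg]; congr 1; ring
      rw [h7, inv_mul_le_iff₀ (Real.exp_pos _), mul_one]
      exact h4
    calc ‖F z‖ / ‖dvn_D N z‖ * z.im
        ≤ (C / y₀ ^ 13 * Real.exp (-2 * Real.pi * (((N + 1 : ℕ) : ℝ) + 1) * (z.im - y₀))) /
            (c ^ 2 * Real.exp (-2 * Real.pi * (N + 1) * z.im)) * z.im := by
          apply mul_le_mul_of_nonneg_right _ z.im_pos.le
          exact div_le_div₀ (by positivity) h1 hDp hD
      _ = K * (Real.exp (-2 * Real.pi * z.im) * z.im) := by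
          rw [hE, hK]
          have := Real.exp_pos (-2 * Real.pi * (N + 1) * z.im)
          field_simp
      _ ≤ K * 1 := mul_le_mul_of_nonneg_left hye hK0
      _ = K := mul_one K
  obtain ⟨i1, i2⟩ := dvn_inv (N := N) hε (G := fun z => F z / dvn_D N z) hslash hfr
  refine ⟨K, fun z => ?_⟩
  rw [pow_one]
  obtain ⟨g, hg, h | h⟩ := cov (N := N) z
  · have h1 := hhigh (g • z) h
    have h2 := i1 g hg z
    rw [← h2]
    exact h1
  · have h1 := hhigh (g • wz N z) h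
    have h2 := i1 g hg (wz N z)
    have h3 := i2 z
    rw [← h3, ← h2]
    exact h1

/-- block DVN -/
theorem dvn_pr {ε : ℂ} (hε : ε = 1 ∨ ε = -1) :
    Module.finrank ℂ (VV N 13 ε) ≤ Module.finrank ℂ (VV N 1 ε) + (N + 1) := by
  have hfd13 : FiniteDimensional ℂ (VV N 13 ε) := fdv 13 hε
  have hfd1 : FiniteDimensional ℂ (VV N 1 ε) := fdv 1 hε
  choose l hl using fun n : ℕ => fc_lin (N := N) (m := 13) (ε := ε) n
  set Φ : VV N 13 ε →ₗ[ℂ] (Fin (N + 1) → ℂ) := LinearMap.pi (fun i => l (i + 1)) with hΦ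
  have hrk := LinearMap.finrank_range_add_finrank_ker Φ
  have hrange : Module.finrank ℂ (LinearMap.range Φ) ≤ N + 1 := by
    have := Submodule.finrank_le (LinearMap.range Φ)
    rwa [Module.finrank_fin_fun] at this
  have hkerfc : ∀ F : LinearMap.ker Φ, ∀ n : ℕ, 1 ≤ n → n ≤ N + 1 →
      fc ((F : VV N 13 ε) : ℍ → ℂ) n = 0 := by
    intro F n h1 h2
    have h3 := F.2
    rw [LinearMap.mem_ker] at h3
    have h4 := congrFun h3 ⟨n - 1, by omega⟩
    have h5 : l (n - 1 + 1) (F : VV N 13 ε) = 0 := h4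
    rw [hl, Nat.sub_add_cancel h1] at h5
    exact h5
  let Ψ : LinearMap.ker Φ →ₗ[ℂ] VV N 1 ε :=
    { toFun := fun F => ⟨fun z => ((F : VV N 13 ε) : ℍ → ℂ) z / dvn_D N z,
        dvn_quot hε (F : VV N 13 ε).2 (hkerfc F)⟩
      map_add' := fun F G => by
        apply Subtype.ext
        funext z
        change (((F : VV N 13 ε) : ℍ → ℂ) z + ((G : VV N 13 ε) : ℍ → ℂ) z) / dvn_D N z =
          ((F : VV N 13 ε) : ℍ → ℂ) z / dvn_D N z + ((G : VV N 13 ε) : ℍ → ℂ) z / dvn_D N z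
        rw [add_div]
      map_smul' := fun c F => by
        apply Subtype.ext
        funext z
        change (c * ((F : VV N 13 ε) : ℍ → ℂ) z) / dvn_D N z =
          c * (((F : VV N 13 ε) : ℍ → ℂ) z / dvn_D N z)
        rw [mul_div_assoc] }
  have hinj : Function.Injective Ψ := by
    intro F G h
    apply Subtype.ext
    apply Subtype.ext
    funext z
    have h1 := congrArg (fun x : VV N 1 ε => (x : ℍ → ℂ) z) h
    have h2 : ((F : VV N 13 ε) : ℍ → ℂ) z / dvn_D N z =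
      ((G : VV N 13 ε) : ℍ → ℂ) z / dvn_D N z := h1
    exact (div_left_inj' (dvn_D_ne z)).1 h2
  have hle := LinearMap.finrank_le_finrank_of_injective hinj
  omega

end

theorem dvn : type_of% @dvn_pr := @dvn_pr

end Pool.Agent.DIMK
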