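import Pool.Agent.Lib_helper41.DIM.Defs
import Pool.Agent.Lib_helper68.GL2.B7
import Pool.Agent.Lib_helper98.WAF.A1
import Pool.Agent.Lib_helper98.WAF.A2
import Pool.Agent.Lib_helper98.WAF.A4

namespace Pool.Agent.DIMK

open Complex MeasureTheory Filter Topology UpperHalfPlane ModularGroup CongruenceSubgroup
open scoped MatrixGroups Modular ENNReal ModularForm ComplexConjugate
open Pool.Agent.LEV (PX pa sg wz S2 G0 co IsFricke Hol)
open Pool.Agent.WA (ch)

theorem vol_fin_pr : volume (𝒟ᵒ : Set ℍ) < ⊤ := GL2.b7_vol_fdo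

/-- the vertical integral -/
theorem vol_vert {a Y : ℝ} (ha : 0 < a) (haY : a ≤ Y) :
    ∫⁻ y in Set.Ioc a Y, ENNReal.ofReal (1 / y ^ 2) = ENNReal.ofReal (1 / a - 1 / Y) := by
  have hY : 0 < Y := lt_of_lt_of_le ha haY
  have hcont : ContinuousOn (fun y : ℝ => 1 / y ^ 2) (Set.uIcc a Y) := by
    rw [Set.uIcc_of_le haY]
    intro y hy
    have hy0 : y ≠ 0 := (lt_of_lt_of_le ha hy.1).ne'
    exact ((continuousAt_const.div (continuousAt_id.pow 2) (pow_ne_zero 2 hy0))).continuousWithinAt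
  have hii : IntervalIntegrable (fun y : ℝ => 1 / y ^ 2) volume a Y := hcont.intervalIntegrable
  have h1 : ∫ y in a..Y, 1 / y ^ 2 = 1 / a - 1 / Y := by
    have h2 : ∫ y in a..Y, 1 / y ^ 2 = (-(1 / Y)) - (-(1 / a)) := by
      apply intervalIntegral.integral_eq_sub_of_hasDerivAt (f := fun y : ℝ => -(1 / y))
      · intro y hy
        rw [Set.uIcc_of_le haY] at hy
        have hy0 : y ≠ 0 := (lt_of_lt_of_le ha hy.1).ne'
        have h3 : HasDerivAt (fun y : ℝ => -(y⁻¹)) (-(-(y ^ 2)⁻¹)) y := (hasDerivAt_inv hy0).neg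
        rw [neg_neg] at h3
        simpa only [one_div] using h3
      · exact hii
    rw [h2]; ring
  rw [← h1, intervalIntegral.integral_of_le haY]
  rw [ofReal_integral_eq_lintegral_ofReal]
  · exact (intervalIntegrable_iff_integrableOn_Ioc_of_le haY).mp hii
  · exact Eventually.of_forall (fun y => by positivity)

theorem vol_fd_pr {Y : ℝ} (hY : 1 ≤ Y) :
    ENNReal.ofReal (Real.pi / 3 - 1 / Y) ≤ volume (𝒟ᵒ ∩ {z : ℍ | z.im ≤ Y}) := by
  have hY0 : 0 < Y := lt_of_lt_of_le one_pos hY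
  have hYs : MeasurableSet {z : ℍ | z.im ≤ Y} :=
    measurableSet_le (UpperHalfPlane.continuous_im.measurable) measurable_const
  have h1 := GL2.RSA_lint_fd ({z : ℂ | z.im ≤ Y}.indicator (fun _ => (1 : ℝ≥0∞)))
  have h2 : ∫⁻ w in 𝒟ᵒ, {z : ℂ | z.im ≤ Y}.indicator (fun _ => (1 : ℝ≥0∞)) ((w : ℍ) : ℂ) =
      volume (𝒟ᵒ ∩ {z : ℍ | z.im ≤ Y}) := by
    have h3 : ∀ w : ℍ, {z : ℂ | z.im ≤ Y}.indicator (fun _ => (1 : ℝ≥0∞)) ((w : ℍ) : ℂ) =
        {z : ℍ | z.im ≤ Y}.indicator 1 w := by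
      intro w
      by_cases h : w.im ≤ Y
      · rw [Set.indicator_of_mem (show w ∈ {z : ℍ | z.im ≤ Y} from h),
          Set.indicator_of_mem (show (w : ℂ) ∈ {z : ℂ | z.im ≤ Y} from h)]
        rfl
      · rw [Set.indicator_of_notMem (show w ∉ {z : ℍ | z.im ≤ Y} from h),
          Set.indicator_of_notMem (show (w : ℂ) ∉ {z : ℂ | z.im ≤ Y} from h)]
    rw [lintegral_congr h3, lintegral_indicator_one hYs, Measure.restrict_apply hYs,
      Set.inter_comm]
  rw [← h2, h1]
  have hFD : MeasurableSet GL2.FD := by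
    have h3 : GL2.FD = {z : ℂ | 0 < z.im} ∩ ({z : ℂ | 1 < ‖z‖} ∩ {z : ℂ | |z.re| < 1 / 2}) := rfl
    rw [h3]
    refine (measurableSet_lt measurable_const Complex.measurable_im).inter
      ((measurableSet_lt measurable_const measurable_norm).inter
      (measurableSet_lt (Complex.measurable_re.abs) measurable_const))
  rw [← lintegral_indicator hFD,
    (Complex.volume_preserving_equiv_real_prod.symm).lintegral_map_equiv]
  have h4 : ∀ p : ℝ × ℝ, GL2.FD.indicator (fun z : ℂ => {z : ℂ | z.im ≤ Y}.indicator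
      (fun _ => (1 : ℝ≥0∞)) z * ENNReal.ofReal (1 / z.im ^ 2)) (Complex.measurableEquivRealProd.symm p) =
      (Set.Ioo (-(1 / 2) : ℝ) (1 / 2)).indicator (fun x =>
        (Set.Ioc (Real.sqrt (1 - x ^ 2)) Y).indicator (fun y => ENNReal.ofReal (1 / y ^ 2)) p.2) p.1 := by
    rintro ⟨x, y⟩
    have e : Complex.measurableEquivRealProd.symm (x, y) = (⟨x, y⟩ : ℂ) := rfl
    rw [e]
    simp only
    by_cases hx : x ∈ Set.Ioo (-(1 / 2) : ℝ) (1 / 2)
    · rw [Set.indicator_of_mem hx]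
      have hx1 : 0 ≤ 1 - x ^ 2 := by nlinarith [hx.1, hx.2]
      have hxa : |x| < 1 / 2 := abs_lt.mpr ⟨by linarith [hx.1], hx.2⟩
      by_cases hy : y ∈ Set.Ioc (Real.sqrt (1 - x ^ 2)) Y
      · rw [Set.indicator_of_mem hy]
        have hs : Real.sqrt (1 - x ^ 2) < y := hy.1
        have hy0 : 0 < y := lt_of_le_of_lt (Real.sqrt_nonneg _) hs
        have hsq : 1 - x ^ 2 < y ^ 2 := (Real.sqrt_lt hx1 hy0.le).mp hs
        have hm : (⟨x, y⟩ : ℂ) ∈ GL2.FD := by
          refine ⟨hy0, ?_, hxa⟩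
          have h5 : (1 : ℝ) ^ 2 < ‖(⟨x, y⟩ : ℂ)‖ ^ 2 := by
            rw [← Complex.normSq_eq_norm_sq, Complex.normSq_mk]
            nlinarith
          exact lt_of_pow_lt_pow_left₀ 2 (norm_nonneg _) h5
        rw [Set.indicator_of_mem hm, Set.indicator_of_mem (show (⟨x, y⟩ : ℂ) ∈ {z : ℂ | z.im ≤ Y} from hy.2),
          one_mul]
      · rw [Set.indicator_of_notMem hy]
        by_cases hm : (⟨x, y⟩ : ℂ) ∈ GL2.FD
        · rw [Set.indicator_of_mem hm]
          have h5 : ¬ y ≤ Y := by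
            intro h6
            apply hy
            refine ⟨?_, h6⟩
            have hy0 : 0 < y := hm.1
            rw [Real.sqrt_lt hx1 hy0.le]
            have h7 : 1 < ‖(⟨x, y⟩ : ℂ)‖ := hm.2.1
            have h8 : 1 < ‖(⟨x, y⟩ : ℂ)‖ ^ 2 := by nlinarith
            rw [← Complex.normSq_eq_norm_sq, Complex.normSq_mk] at h8
            nlinarith
          rw [Set.indicator_of_notMem (show (⟨x, y⟩ : ℂ) ∉ {z : ℂ | z.im ≤ Y} from h5), zero_mul]
        · rw [Set.indicator_of_notMem hm]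
    · rw [Set.indicator_of_notMem hx, Set.indicator_of_notMem]
      intro hm
      apply hx
      have := abs_lt.mp (show |x| < 1 / 2 from hm.2.2)
      exact ⟨this.1, this.2⟩
  rw [lintegral_congr h4, Measure.volume_eq_prod, lintegral_prod]
  · have h5 : ∀ x : ℝ, ∫⁻ y : ℝ, (Set.Ioo (-(1 / 2) : ℝ) (1 / 2)).indicator (fun x =>
        (Set.Ioc (Real.sqrt (1 - x ^ 2)) Y).indicator (fun y => ENNReal.ofReal (1 / y ^ 2)) y) x =
        (Set.Ioo (-(1 / 2) : ℝ) (1 / 2)).indicator
          (fun x => ENNReal.ofReal (1 / Real.sqrt (1 - x ^ 2) - 1 / Y)) x := by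
      intro x
      by_cases hx : x ∈ Set.Ioo (-(1 / 2) : ℝ) (1 / 2)
      · simp only [Set.indicator_of_mem hx]
        rw [lintegral_indicator measurableSet_Ioc]
        have hx1 : 0 < 1 - x ^ 2 := by nlinarith [hx.1, hx.2]
        apply vol_vert (Real.sqrt_pos.mpr hx1)
        refine le_trans ?_ hY
        exact Real.sqrt_le_iff.mpr ⟨by norm_num, by nlinarith [sq_nonneg x]⟩
      · simp only [Set.indicator_of_notMem hx]
        exact lintegral_zero
    rw [lintegral_congr h5, lintegral_indicator measurableSet_Ioo]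
    have hc : ContinuousOn (fun x : ℝ => 1 / Real.sqrt (1 - x ^ 2) - 1 / Y)
        (Set.uIcc (-(1 / 2) : ℝ) (1 / 2)) := by
      rw [Set.uIcc_of_le (by norm_num)]
      apply ContinuousOn.sub _ continuousOn_const
      apply ContinuousOn.div continuousOn_const
      · fun_prop
      · intro x hx
        have hx1 : 0 < 1 - x ^ 2 := by nlinarith [hx.1, hx.2]
        exact (Real.sqrt_pos.mpr hx1).ne'
    have hii : IntervalIntegrable (fun x : ℝ => 1 / Real.sqrt (1 - x ^ 2) - 1 / Y) volume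
        (-(1 / 2) : ℝ) (1 / 2) := hc.intervalIntegrable
    have hio : IntegrableOn (fun x : ℝ => 1 / Real.sqrt (1 - x ^ 2) - 1 / Y)
        (Set.Ioo (-(1 / 2) : ℝ) (1 / 2)) :=
      ((intervalIntegrable_iff_integrableOn_Ioc_of_le (by norm_num)).mp hii).mono_set
        Set.Ioo_subset_Ioc_self
    rw [← ofReal_integral_eq_lintegral_ofReal hio]
    · apply ENNReal.ofReal_le_ofReal
      rw [← integral_Ioc_eq_integral_Ioo, ← intervalIntegral.integral_of_le (by norm_num)]
      have h6 : ∫ x in (-(1 / 2) : ℝ)..(1 / 2), (1 / Real.sqrt (1 - x ^ 2) - 1 / Y) =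
          (Real.arcsin (1 / 2) - 1 / Y * (1 / 2)) - (Real.arcsin (-(1 / 2)) - 1 / Y * (-(1 / 2))) := by
        apply intervalIntegral.integral_eq_sub_of_hasDerivAt
          (f := fun x : ℝ => Real.arcsin x - 1 / Y * x) _ hii
        intro x hx
        rw [Set.uIcc_of_le (by norm_num)] at hx
        have h7 : HasDerivAt (fun x : ℝ => Real.arcsin x - 1 / Y * x)
            (1 / Real.sqrt (1 - x ^ 2) - 1 / Y * 1) x :=
          (Real.hasDerivAt_arcsin (x := x) (by linarith [hx.1]) (by linarith [hx.2])).sub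
            ((hasDerivAt_id x).const_mul (1 / Y))
        rw [mul_one] at h7
        exact h7
      rw [h6, Real.arcsin_neg]
      have h8 : Real.arcsin (1 / 2) = Real.pi / 6 := by
        rw [Real.arcsin_eq_iff_eq_sin ⟨by linarith [Real.pi_pos], by linarith [Real.pi_pos]⟩]
        exact Real.sin_pi_div_six.symm
      rw [h8]
      linarith
    · filter_upwards [ae_restrict_mem measurableSet_Ioo] with x hx
      have hx1 : 0 < 1 - x ^ 2 := by nlinarith [hx.1, hx.2]
      have h9 : Real.sqrt (1 - x ^ 2) ≤ Y := by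
        refine le_trans ?_ hY
        exact Real.sqrt_le_iff.mpr ⟨by norm_num, by nlinarith [sq_nonneg x]⟩
      show 0 ≤ _
      rw [sub_nonneg]
      exact one_div_le_one_div_of_le (Real.sqrt_pos.mpr hx1) h9
  · apply Measurable.aemeasurable
    have h5 : (fun p : ℝ × ℝ => (Set.Ioo (-(1 / 2) : ℝ) (1 / 2)).indicator (fun x =>
        (Set.Ioc (Real.sqrt (1 - x ^ 2)) Y).indicator (fun y => ENNReal.ofReal (1 / y ^ 2)) p.2) p.1) =
        {p : ℝ × ℝ | p.1 ∈ Set.Ioo (-(1 / 2) : ℝ) (1 / 2) ∧ Real.sqrt (1 - p.1 ^ 2) < p.2 ∧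
          p.2 ≤ Y}.indicator (fun p => ENNReal.ofReal (1 / p.2 ^ 2)) := by
      funext p
      by_cases hx : p.1 ∈ Set.Ioo (-(1 / 2) : ℝ) (1 / 2)
      · rw [Set.indicator_of_mem hx]
        by_cases hy : p.2 ∈ Set.Ioc (Real.sqrt (1 - p.1 ^ 2)) Y
        · rw [Set.indicator_of_mem hy, Set.indicator_of_mem (by exact ⟨hx, hy.1, hy.2⟩)]
        · rw [Set.indicator_of_notMem hy, Set.indicator_of_notMem (by exact fun h => hy ⟨h.2.1, h.2.2⟩)]
      · rw [Set.indicator_of_notMem hx, Set.indicator_of_notMem (by exact fun h => hx h.1)]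
    rw [h5]
    apply Measurable.indicator
    · fun_prop
    · refine (measurable_fst measurableSet_Ioo).inter
        ((measurableSet_lt (by fun_prop) measurable_snd).inter
          (measurableSet_le measurable_snd measurable_const))

theorem vol_fd : type_of% @vol_fd_pr := @vol_fd_pr

theorem vol_fin : type_of% @vol_fin_pr := @vol_fin_pr

end Pool.Agent.DIMK
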