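import Pool.Agent.Lib_helper41.DIM.Defs
import Pool.Agent.Lib_helper98.WAF.A1
import Pool.Agent.Lib_helper98.WAF.A2
import Pool.Agent.Lib_helper98.WAF.A4
import Pool.Agent.Lib_helper68.LEV.FAM
import Pool.Agent.Lib_helper41.DIMF.VOL

namespace Pool.Agent.DIMK

open Complex MeasureTheory Filter Topology UpperHalfPlane ModularGroup CongruenceSubgroup
open scoped MatrixGroups Modular ENNReal ModularForm ComplexConjugate
open Pool.Agent.LEV (PX pa sg wz S2 G0 co IsFricke Hol)
open Pool.Agent.WA (ch)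

theorem ipp_cont {F : ℍ → ℂ} (hF : Hol F) : Continuous F := by
  have h1 : ContinuousOn (fun z : ℂ => F (UpperHalfPlane.ofComplex z)) {z : ℂ | 0 < z.im} :=
    hF.continuousOn
  have h2 : F = fun w : ℍ => (fun z : ℂ => F (UpperHalfPlane.ofComplex z)) (w : ℂ) := by
    funext z
    simp only [UpperHalfPlane.ofComplex_apply]
  rw [h2]
  exact h1.comp_continuous UpperHalfPlane.continuous_coe (fun z => z.im_pos)

theorem ipp_nf_cont (m : ℕ) {F : ℍ → ℂ} (hF : Hol F) : Continuous (nf m F) :=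
  (ipp_cont hF).mul (Complex.continuous_ofReal.comp (UpperHalfPlane.continuous_im.pow m))

theorem ipp_norm (m : ℕ) (F : ℍ → ℂ) (z : ℍ) : ‖nf m F z‖ = ‖F z‖ * z.im ^ m := by
  unfold nf
  rw [norm_mul, Complex.norm_real, Real.norm_of_nonneg (pow_nonneg z.im_pos.le m)]

theorem ipp_open_pos {U : Set ℍ} (hU : IsOpen U) (hne : U.Nonempty) : 0 < volume U := by
  have hop : IsOpen ((fun z : ℍ => (z : ℂ)) '' U) := isOpenEmbedding_coe.isOpenMap U hU
  rw [volume_eq_lintegral]
  rw [lintegral_pos_iff_support]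
  · rw [Measure.restrict_apply']
    · have h1 : ((fun z : ℍ => (z : ℂ)) '' U) ⊆
          (Function.support fun z : ℂ => (((1 / ‖z.im‖₊) ^ 2 : NNReal) : ℝ≥0∞)) ∩
            ((fun z : ℍ => (z : ℂ)) '' U) := by
        rintro z ⟨w, hw, rfl⟩
        refine ⟨?_, ⟨w, hw, rfl⟩⟩
        rw [Function.mem_support]
        have h2 : ‖(w : ℂ).im‖₊ ≠ 0 := by
          rw [nnnorm_ne_zero_iff]
          exact w.im_pos.ne'
        rw [ENNReal.coe_ne_zero]
        positivity
      exact lt_of_lt_of_le (hop.measure_pos volume (hne.image _)) (measure_mono h1)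
    · exact hop.measurableSet
  · have : Measurable (fun z : ℂ => ((1 / ‖z.im‖₊) ^ 2 : NNReal)) := by fun_prop
    exact this.coe_nnreal_ennreal

section
variable {N : ℕ} [Fact N.Prime]

theorem ipp_bd {m : ℕ} {ε : ℂ} {F : ℍ → ℂ} (hF : F ∈ VV N m ε) : ∃ C : ℝ, ∀ z, ‖nf m F z‖ ≤ C := by
  obtain ⟨C, hC⟩ := (show IsV N m ε F from hF).bound
  refine ⟨C, fun z => ?_⟩
  rw [ipp_norm]
  exact hC z

theorem ip_int_pr {m : ℕ} {ε : ℂ} {F G : ℍ → ℂ} (hF : F ∈ VV N m ε) (hG : G ∈ VV N m ε) (q : PX N) :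
    IntegrableOn (fun z : ℍ => nf m F ((sg q)⁻¹ • z) * conj (nf m G ((sg q)⁻¹ • z))) 𝒟ᵒ := by
  obtain ⟨C, hC⟩ := ipp_bd hF
  obtain ⟨D, hD⟩ := ipp_bd hG
  have hm : Measurable (fun z : ℍ => (sg q)⁻¹ • z) := (GL2.RSA_mp _).measurable
  have hF' : IsV N m ε F := hF
  have hG' : IsV N m ε G := hG
  refine Measure.integrableOn_of_bounded (M := C * D) vol_fin.ne ?_ ?_
  · apply Measurable.aestronglyMeasurable
    exact ((ipp_nf_cont m hF'.holo).measurable.comp hm).mul
      (Complex.continuous_conj.measurable.comp ((ipp_nf_cont m hG'.holo).measurable.comp hm))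
  · filter_upwards with z
    rw [norm_mul, RCLike.norm_conj]
    exact mul_le_mul (hC _) (hD _) (norm_nonneg _) (le_trans (norm_nonneg _) (hC z))

theorem ip_add_pr {m : ℕ} {ε : ℂ} {F G H : ℍ → ℂ} (hF : F ∈ VV N m ε) (hG : G ∈ VV N m ε)
    (hH : H ∈ VV N m ε) : ip N m (F + G) H = ip N m F H + ip N m G H := by
  unfold ip
  rw [← Finset.sum_add_distrib]
  apply Finset.sum_congr rfl
  intro q _
  rw [← integral_add (ip_int_pr hF hH q) (ip_int_pr hG hH q)]
  congr 1
  funext z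
  simp only [nf, Pi.add_apply]
  ring

theorem ip_smul_pr {m : ℕ} (c : ℂ) (F G : ℍ → ℂ) : ip N m (c • F) G = c * ip N m F G := by
  unfold ip
  rw [Finset.mul_sum]
  apply Finset.sum_congr rfl
  intro q _
  rw [← integral_const_mul]
  congr 1
  funext z
  simp only [nf, Pi.smul_apply, smul_eq_mul]
  ring

theorem ip_conj_pr {m : ℕ} (F G : ℍ → ℂ) : conj (ip N m F G) = ip N m G F := by
  unfold ip
  rw [map_sum]
  apply Finset.sum_congr rfl
  intro q _
  rw [← integral_conj]
  congr 1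
  funext z
  rw [map_mul, Complex.conj_conj, mul_comm]

theorem ip_self_pr {m : ℕ} {ε : ℂ} {F : ℍ → ℂ} (hF : F ∈ VV N m ε) :
    ip N m F F = ((∑ q : PX N, ∫ z in 𝒟ᵒ, ‖nf m F ((sg q)⁻¹ • z)‖ ^ 2 : ℝ) : ℂ) := by
  unfold ip
  rw [Complex.ofReal_sum]
  apply Finset.sum_congr rfl
  intro q _
  rw [← integral_complex_ofReal]
  congr 1
  funext z
  rw [Complex.mul_conj, Complex.normSq_eq_norm_sq]

theorem ipp_ne {F : ℍ → ℂ} (hF : Hol F) (h0 : F ≠ 0) : ∃ z ∈ (𝒟ᵒ : Set ℍ), F z ≠ 0 := by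
  by_contra hcon
  push Not at hcon
  apply h0
  have hopen : IsOpen {z : ℂ | 0 < z.im} := isOpen_lt continuous_const Complex.continuous_im
  have hana : AnalyticOnNhd ℂ (fun z : ℂ => F (UpperHalfPlane.ofComplex z)) {z : ℂ | 0 < z.im} :=
    hF.analyticOnNhd hopen
  have hpre : IsPreconnected {z : ℂ | 0 < z.im} := (convex_halfSpace_im_gt 0).isPreconnected
  have him : (0 : ℝ) < (2 * Complex.I).im := by simp
  have hz0 : (2 * Complex.I) ∈ {z : ℂ | 0 < z.im} := him
  have hmem : (⟨2 * Complex.I, him⟩ : ℍ) ∈ (𝒟ᵒ : Set ℍ) := by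
    constructor
    · show 1 < Complex.normSq (2 * Complex.I)
      simp
      norm_num
    · show |(2 * Complex.I).re| < 1 / 2
      simp
  have hop : IsOpen ((fun z : ℍ => (z : ℂ)) '' 𝒟ᵒ) := isOpenEmbedding_coe.isOpenMap _ isOpen_fdo
  have hev : (fun z : ℂ => F (UpperHalfPlane.ofComplex z)) =ᶠ[𝓝 (2 * Complex.I)] 0 := by
    filter_upwards [hop.mem_nhds ⟨⟨2 * Complex.I, him⟩, hmem, rfl⟩] with z hz
    obtain ⟨w, hw, rfl⟩ := hz
    simp only [UpperHalfPlane.ofComplex_apply, Pi.zero_apply]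
    exact hcon w hw
  have := hana.eqOn_zero_of_preconnected_of_eventuallyEq_zero hpre hz0 hev
  funext z
  have h2 := this (show (z : ℂ) ∈ {z : ℂ | 0 < z.im} from z.im_pos)
  simpa only [UpperHalfPlane.ofComplex_apply, Pi.zero_apply] using h2

theorem ip_pos_pr {m : ℕ} {ε : ℂ} {F : ℍ → ℂ} (hF : F ∈ VV N m ε) (h0 : F ≠ 0) :
    0 < (ip N m F F).re := by
  have hF' : IsV N m ε F := hF
  rw [ip_self_pr hF, Complex.ofReal_re]
  apply Finset.sum_pos'
  · intro q _
    exact integral_nonneg (fun z => by positivity)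
  · refine ⟨OnePoint.infty, Finset.mem_univ _, ?_⟩
    have hs : sg (OnePoint.infty : PX N) = 1 := rfl
    rw [hs]
    simp only [inv_one, one_smul]
    have hcont := ipp_nf_cont m hF'.holo
    obtain ⟨C, hC⟩ := ipp_bd hF
    have hint : IntegrableOn (fun z : ℍ => ‖nf m F z‖ ^ 2) 𝒟ᵒ := by
      refine Measure.integrableOn_of_bounded (M := C ^ 2) vol_fin.ne ?_ ?_
      · exact (hcont.norm.pow 2).aestronglyMeasurable
      · filter_upwards with z
        rw [norm_pow, norm_norm]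
        exact pow_le_pow_left₀ (norm_nonneg _) (hC z) 2
    rw [setIntegral_pos_iff_support_of_nonneg_ae]
    · apply ipp_open_pos
      · apply IsOpen.inter _ isOpen_fdo
        exact (hcont.norm.pow 2).isOpen_support
      · obtain ⟨z, hz, hne⟩ := ipp_ne hF'.holo h0
        refine ⟨z, ?_, hz⟩
        rw [Function.mem_support]
        have : nf m F z ≠ 0 := by
          unfold nf
          apply mul_ne_zero hne
          rw [Complex.ofReal_ne_zero]
          exact pow_ne_zero m z.im_pos.ne'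
        exact pow_ne_zero 2 (norm_ne_zero_iff.mpr this)
    · filter_upwards with z
      show 0 ≤ _
      positivity
    · exact hint

end

theorem ip_int : type_of% @ip_int_pr := @ip_int_pr

theorem ip_add : type_of% @ip_add_pr := @ip_add_pr

theorem ip_smul : type_of% @ip_smul_pr := @ip_smul_pr

theorem ip_conj : type_of% @ip_conj_pr := @ip_conj_pr

theorem ip_self : type_of% @ip_self_pr := @ip_self_pr

theorem ip_pos : type_of% @ip_pos_pr := @ip_pos_pr

end Pool.Agent.DIMK
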