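import Pool.Agent.Lib_helper41.DIM.Defs
import Pool.Agent.Lib_helper98.WAF.A1
import Pool.Agent.Lib_helper98.WAF.A2
import Pool.Agent.Lib_helper98.WAF.A4

/-! DIM block LAT: lattice sums -/

namespace Pool.Agent.DIMK

open Complex MeasureTheory Filter Topology UpperHalfPlane ModularGroup CongruenceSubgroup
open scoped MatrixGroups Modular ENNReal ModularForm ComplexConjugate
open Pool.Agent.LEV (PX pa sg wz S2 G0 co IsFricke Hol)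
open Pool.Agent.WA (ch)

/-- `4 y² qq = (X - c y²)² + y² (a + d)²` -/
theorem lat_qq (a b c d : ℤ) (z : ℍ) : qq a b c d z =
    ((a * z.re + b - c * (z.re ^ 2 + z.im ^ 2) - d * z.re) ^ 2 +
      z.im ^ 2 * ((a : ℝ) + d) ^ 2) / (4 * z.im ^ 2) := by
  unfold qq
  congr 1
  rw [Complex.sq_norm, Complex.normSq_apply]
  have hre : (z : ℂ).re = z.re := rfl
  have him : (z : ℂ).im = z.im := rfl
  have e1 : ((a : ℂ) * (z : ℂ) + b - conj (z : ℂ) * ((c : ℂ) * (z : ℂ) + d)).re =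
      a * z.re + b - c * (z.re ^ 2 + z.im ^ 2) - d * z.re := by
    simp only [Complex.add_re, Complex.sub_re, Complex.mul_re, Complex.intCast_re,
      Complex.intCast_im, Complex.conj_re, Complex.conj_im, Complex.add_im, Complex.mul_im, hre,
      him]
    ring
  have e2 : ((a : ℂ) * (z : ℂ) + b - conj (z : ℂ) * ((c : ℂ) * (z : ℂ) + d)).im =
      z.im * ((a : ℝ) + d) := by
    simp only [Complex.add_re, Complex.sub_im, Complex.mul_re, Complex.intCast_re,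
      Complex.intCast_im, Complex.conj_re, Complex.conj_im, Complex.add_im, Complex.mul_im, hre,
      him]
    ring
  rw [e1, e2]
  ring

theorem lat_fd {z : ℍ} (hz : z ∈ 𝒟) : z.re ^ 2 ≤ 1 / 4 ∧ 3 / 4 ≤ z.im ^ 2 := by
  obtain ⟨h1, h2⟩ := hz
  rw [Complex.normSq_apply] at h1
  have hre : (z : ℂ).re = z.re := rfl
  have him : (z : ℂ).im = z.im := rfl
  rw [hre, him] at h1
  have h3 : z.re ^ 2 ≤ 1 / 4 := by
    have : |z.re| ^ 2 ≤ (1 / 2) ^ 2 := pow_le_pow_left₀ (abs_nonneg _) h2 2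
    rw [sq_abs] at this
    linarith
  exact ⟨h3, by nlinarith⟩

theorem lat_alg {a b c d x y Y : ℝ} (hy0 : 0 < y) (hx : x ^ 2 ≤ 1 / 4) (hy : 3 / 4 ≤ y ^ 2)
    (hyY : y ≤ Y) (hdet : 0 < a * d - b * c) :
    1 / (4 * (4 * Y ^ 2 + 3)) * (a ^ 2 + b ^ 2 + c ^ 2 + d ^ 2) ≤
      ((a * x + b - c * (x ^ 2 + y ^ 2) - d * x) ^ 2 + y ^ 2 * (a + d) ^ 2) / (4 * y ^ 2) ∧
    a * d - b * c ≤
      ((a * x + b - c * (x ^ 2 + y ^ 2) - d * x) ^ 2 + y ^ 2 * (a + d) ^ 2) / (4 * y ^ 2) := by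
  have hY2 : y ^ 2 ≤ Y ^ 2 := pow_le_pow_left₀ hy0.le hyY 2
  have hy2 : 0 < y ^ 2 := by positivity
  set X : ℝ := a * x + b - x * (c * x + d) with hX
  set p : ℝ := a - c * x with hp
  set q : ℝ := c * x + d with hq
  have hD : a * d - b * c = p * q - c * X := by rw [hX, hp, hq]; ring
  have hnum : (a * x + b - c * (x ^ 2 + y ^ 2) - d * x) ^ 2 + y ^ 2 * (a + d) ^ 2 =
      X ^ 2 + c ^ 2 * (y ^ 2) ^ 2 + y ^ 2 * (p ^ 2 + q ^ 2) + 2 * y ^ 2 * (p * q - c * X) := by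
    rw [hX, hp, hq]; ring
  rw [hnum, hD]
  rw [hD] at hdet
  constructor
  · rw [div_mul_eq_mul_div, one_mul, div_le_div_iff₀ (by positivity) (by positivity)]
    have hsum : a ^ 2 + b ^ 2 + c ^ 2 + d ^ 2 ≤ 3 * p ^ 2 + 3 * q ^ 2 + 4 * X ^ 2 + 9 / 4 * c ^ 2 := by
      have ha : a = p + c * x := by rw [hp]; ring
      have hd : d = q - c * x := by rw [hq]; ring
      have hb : b = X - x * p + x * q - c * x ^ 2 := by rw [hX, hp, hq]; ring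
      have hcx : (c * x) ^ 2 ≤ 1 / 4 * c ^ 2 := by
        rw [mul_pow]; nlinarith [sq_nonneg c]
      have h1 : a ^ 2 ≤ 2 * p ^ 2 + 1 / 2 * c ^ 2 := by
        rw [ha]; nlinarith [sq_nonneg (p - c * x)]
      have h2 : d ^ 2 ≤ 2 * q ^ 2 + 1 / 2 * c ^ 2 := by
        rw [hd]; nlinarith [sq_nonneg (q + c * x)]
      have hxp : (x * p) ^ 2 ≤ 1 / 4 * p ^ 2 := by rw [mul_pow]; nlinarith [sq_nonneg p]
      have hxq : (x * q) ^ 2 ≤ 1 / 4 * q ^ 2 := by rw [mul_pow]; nlinarith [sq_nonneg q]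
      have hcxx : (c * x ^ 2) ^ 2 ≤ 1 / 16 * c ^ 2 := by
        have : (x ^ 2) ^ 2 ≤ (1 / 4) ^ 2 := pow_le_pow_left₀ (by positivity) hx 2
        rw [mul_pow]; nlinarith [sq_nonneg c]
      have h3 : b ^ 2 ≤ 4 * (X ^ 2 + (x * p) ^ 2 + (x * q) ^ 2 + (c * x ^ 2) ^ 2) := by
        rw [hb]
        nlinarith [sq_nonneg (X + x * p), sq_nonneg (X - x * q), sq_nonneg (X + c * x ^ 2),
          sq_nonneg (x * p + x * q), sq_nonneg (x * p - c * x ^ 2), sq_nonneg (x * q + c * x ^ 2)]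
      linarith
    have h4 : (3 * p ^ 2 + 3 * q ^ 2 + 4 * X ^ 2 + 9 / 4 * c ^ 2) * y ^ 2 ≤
        (X ^ 2 + c ^ 2 * (y ^ 2) ^ 2 + y ^ 2 * (p ^ 2 + q ^ 2)) * (4 * Y ^ 2 + 3) := by
      have e1 : 4 * X ^ 2 * y ^ 2 ≤ X ^ 2 * (4 * Y ^ 2 + 3) := by nlinarith [sq_nonneg X]
      have e2 : 3 * (y ^ 2 * (p ^ 2 + q ^ 2)) ≤ y ^ 2 * (p ^ 2 + q ^ 2) * (4 * Y ^ 2 + 3) := by
        have h5 : 0 ≤ y ^ 2 * (p ^ 2 + q ^ 2) := by positivity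
        nlinarith [mul_nonneg h5 (sq_nonneg Y)]
      have e3 : 9 / 4 * c ^ 2 * y ^ 2 ≤ c ^ 2 * (y ^ 2) ^ 2 * (4 * Y ^ 2 + 3) := by
        have h5 : 0 ≤ c ^ 2 * (y ^ 2) ^ 2 := by positivity
        have h6 : 9 / 4 * c ^ 2 * y ^ 2 ≤ c ^ 2 * (y ^ 2) ^ 2 * 3 := by
          have h7 : 0 ≤ c ^ 2 * y ^ 2 := by positivity
          nlinarith
        nlinarith [mul_nonneg h5 (sq_nonneg Y)]
      linarith
    have h5 : 0 ≤ 2 * y ^ 2 * (p * q - c * X) := by positivity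
    have h6 : (a ^ 2 + b ^ 2 + c ^ 2 + d ^ 2) * y ^ 2 ≤
        (3 * p ^ 2 + 3 * q ^ 2 + 4 * X ^ 2 + 9 / 4 * c ^ 2) * y ^ 2 := by gcongr
    have h7 : 0 < 4 * Y ^ 2 + 3 := by positivity
    nlinarith [mul_nonneg h5 h7.le]
  · rw [le_div_iff₀ (by positivity)]
    nlinarith [sq_nonneg (X + c * y ^ 2), mul_nonneg hy2.le (sq_nonneg (p - q))]

theorem lat_low_pr (Y : ℝ) : ∃ κ : ℝ, 0 < κ ∧ ∀ z : ℍ, z ∈ 𝒟 → z.im ≤ Y → ∀ a b c d : ℤ,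
    0 < a * d - b * c → κ * ((a : ℝ) ^ 2 + (b : ℝ) ^ 2 + (c : ℝ) ^ 2 + (d : ℝ) ^ 2) ≤ qq a b c d z ∧
      ((a * d - b * c : ℤ) : ℝ) ≤ qq a b c d z := by
  refine ⟨1 / (4 * (4 * Y ^ 2 + 3)), by positivity, fun z hz hzY a b c d hdet => ?_⟩
  obtain ⟨h1, h2⟩ := lat_fd hz
  have hdet' : (0 : ℝ) < a * d - b * c := by exact_mod_cast hdet
  have := lat_alg (a := a) (b := b) (c := c) (d := d) z.im_pos h1 h2 hzY hdet'
  rw [lat_qq]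
  push_cast
  exact this

theorem lat_i (g : SL(2, ℤ)) (z : ℍ) : ch (g • z) UpperHalfPlane.I =
    ((((g 0 0 : ℤ) : ℝ) * z.re + ((g 0 1 : ℤ) : ℝ)) ^ 2 + (((g 0 0 : ℤ) : ℝ) * z.im) ^ 2 +
      ((((g 1 0 : ℤ) : ℝ) * z.re + ((g 1 1 : ℤ) : ℝ)) ^ 2 + (((g 1 0 : ℤ) : ℝ) * z.im) ^ 2) +
      2 * z.im) / (4 * z.im) := by
  have hdet := WA.A4_det g
  unfold ch
  rw [GL2.RSA_coe_smul, GL2.RSA_im_smul, UpperHalfPlane.coe_I, UpperHalfPlane.I_im,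
    Complex.conj_I, sub_neg_eq_add]
  have hden := GL2.RSA_denom_ne g z
  set a : ℝ := ((g 0 0 : ℤ) : ℝ) with ha
  set b : ℝ := ((g 0 1 : ℤ) : ℝ) with hb
  set c : ℝ := ((g 1 0 : ℤ) : ℝ) with hc
  set d : ℝ := ((g 1 1 : ℤ) : ℝ) with hd
  have hac : ((g 0 0 : ℤ) : ℂ) = (a : ℂ) := by rw [ha]; push_cast; rfl
  have hbc : ((g 0 1 : ℤ) : ℂ) = (b : ℂ) := by rw [hb]; push_cast; rfl
  have hcc : ((g 1 0 : ℤ) : ℂ) = (c : ℂ) := by rw [hc]; push_cast; rfl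
  have hdc : ((g 1 1 : ℤ) : ℂ) = (d : ℂ) := by rw [hd]; push_cast; rfl
  rw [hac, hbc, hcc, hdc]
  rw [hcc, hdc] at hden
  have hn : ‖(c : ℂ) * (z : ℂ) + d‖ ≠ 0 := norm_ne_zero_iff.2 hden
  have e1 : ((a : ℂ) * (z : ℂ) + b) / ((c : ℂ) * (z : ℂ) + d) + Complex.I =
      (((a : ℂ) * (z : ℂ) + b) + Complex.I * ((c : ℂ) * (z : ℂ) + d)) /
        ((c : ℂ) * (z : ℂ) + d) := by
    rw [eq_div_iff hden, add_mul, div_mul_cancel₀ _ hden]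
  rw [e1, norm_div, div_pow]
  have hre : (z : ℂ).re = z.re := rfl
  have him : (z : ℂ).im = z.im := rfl
  have e2 : ‖((a : ℂ) * (z : ℂ) + b) + Complex.I * ((c : ℂ) * (z : ℂ) + d)‖ ^ 2 =
      (a * z.re + b) ^ 2 + (a * z.im) ^ 2 + ((c * z.re + d) ^ 2 + (c * z.im) ^ 2) + 2 * z.im := by
    rw [Complex.sq_norm, Complex.normSq_apply]
    simp only [Complex.add_re, Complex.mul_re, Complex.ofReal_re, Complex.ofReal_im,
      Complex.add_im, Complex.mul_im, Complex.I_re, Complex.I_im, hre, him]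
    linear_combination (2 * z.im) * hdet
  rw [e2]
  have := z.im_pos.ne'
  field_simp

theorem lat_i_low {g : SL(2, ℤ)} {z : ℍ} (hz : z ∈ 𝒟) :
    (1 + ((g 0 0 : ℤ) : ℝ) ^ 2 + ((g 0 1 : ℤ) : ℝ) ^ 2 + ((g 1 0 : ℤ) : ℝ) ^ 2 +
      ((g 1 1 : ℤ) : ℝ) ^ 2) / 96 ≤ ch (g • z) UpperHalfPlane.I ^ 2 := by
  obtain ⟨h1, h2⟩ := lat_fd hz
  have hdet := WA.A4_det g
  have hdetZ : (g 0 0 : ℤ) * g 1 1 - g 0 1 * g 1 0 = 1 := by
    have := g.det_coe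
    rwa [Matrix.det_fin_two] at this
  rw [lat_i]
  have hA : (1 : ℝ) ≤ ((g 0 0 : ℤ) : ℝ) ^ 2 + ((g 1 0 : ℤ) : ℝ) ^ 2 := by
    have : (1 : ℤ) ≤ (g 0 0) ^ 2 + (g 1 0) ^ 2 := by
      by_contra hcon
      have h3 : (g 0 0) ^ 2 + (g 1 0) ^ 2 = (0 : ℤ) := by
        have := sq_nonneg (g 0 0)
        have := sq_nonneg (g 1 0)
        omega
      have h4 : (g 0 0 : ℤ) = 0 := by
        have := sq_nonneg (g 0 0)
        have := sq_nonneg (g 1 0)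
        have h5 : (g 0 0 : ℤ) ^ 2 = 0 := by omega
        exact pow_eq_zero_iff (two_ne_zero) |>.1 h5
      have h5 : (g 1 0 : ℤ) = 0 := by
        have := sq_nonneg (g 0 0)
        have := sq_nonneg (g 1 0)
        have h5 : (g 1 0 : ℤ) ^ 2 = 0 := by omega
        exact pow_eq_zero_iff (two_ne_zero) |>.1 h5
      rw [h4, h5] at hdetZ
      simp at hdetZ
    exact_mod_cast this
  have hB : (1 : ℝ) ≤ ((g 0 1 : ℤ) : ℝ) ^ 2 + ((g 1 1 : ℤ) : ℝ) ^ 2 := by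
    have : (1 : ℤ) ≤ (g 0 1) ^ 2 + (g 1 1) ^ 2 := by
      by_contra hcon
      have h4 : (g 0 1 : ℤ) = 0 := by
        have := sq_nonneg (g 0 1)
        have := sq_nonneg (g 1 1)
        have h5 : (g 0 1 : ℤ) ^ 2 = 0 := by omega
        exact pow_eq_zero_iff (two_ne_zero) |>.1 h5
      have h5 : (g 1 1 : ℤ) = 0 := by
        have := sq_nonneg (g 0 1)
        have := sq_nonneg (g 1 1)
        have h5 : (g 1 1 : ℤ) ^ 2 = 0 := by omega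
        exact pow_eq_zero_iff (two_ne_zero) |>.1 h5
      rw [h4, h5] at hdetZ
      simp at hdetZ
    exact_mod_cast this
  set a : ℝ := ((g 0 0 : ℤ) : ℝ) with ha
  set b : ℝ := ((g 0 1 : ℤ) : ℝ) with hb
  set c : ℝ := ((g 1 0 : ℤ) : ℝ) with hc
  set d : ℝ := ((g 1 1 : ℤ) : ℝ) with hd
  set x : ℝ := z.re with hx
  set y : ℝ := z.im with hy
  have hy0 : 0 < y := z.im_pos
  have hax : (a * x) ^ 2 ≤ 1 / 4 * a ^ 2 := by rw [mul_pow]; nlinarith [sq_nonneg a]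
  have hcx : (c * x) ^ 2 ≤ 1 / 4 * c ^ 2 := by rw [mul_pow]; nlinarith [sq_nonneg c]
  have hay : 3 / 4 * a ^ 2 ≤ (a * y) ^ 2 := by rw [mul_pow]; nlinarith [sq_nonneg a]
  have hcy : 3 / 4 * c ^ 2 ≤ (c * y) ^ 2 := by rw [mul_pow]; nlinarith [sq_nonneg c]
  have k1 : ((a * y) ^ 2 + b ^ 2) / 2 ≤ (a * x + b) ^ 2 + (a * y) ^ 2 := by
    nlinarith [sq_nonneg (2 * (a * x) + b)]
  have k2 : ((c * y) ^ 2 + d ^ 2) / 2 ≤ (c * x + d) ^ 2 + (c * y) ^ 2 := by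
    nlinarith [sq_nonneg (2 * (c * x) + d)]
  set A : ℝ := a ^ 2 + c ^ 2 with hAd
  set B : ℝ := b ^ 2 + d ^ 2 with hBd
  have h3 : (A * y ^ 2 + B) / (8 * y) ≤ ((a * x + b) ^ 2 + (a * y) ^ 2 +
      ((c * x + d) ^ 2 + (c * y) ^ 2) + 2 * y) / (4 * y) := by
    rw [div_le_div_iff₀ (by positivity) (by positivity)]
    have : A * y ^ 2 + B ≤ 2 * ((a * x + b) ^ 2 + (a * y) ^ 2 +
      ((c * x + d) ^ 2 + (c * y) ^ 2) + 2 * y) := by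
      rw [hAd, hBd]
      nlinarith
    nlinarith
  have h4 : 0 ≤ (A * y ^ 2 + B) / (8 * y) := by positivity
  have h5 : ((A * y ^ 2 + B) / (8 * y)) ^ 2 ≤ (((a * x + b) ^ 2 + (a * y) ^ 2 +
      ((c * x + d) ^ 2 + (c * y) ^ 2) + 2 * y) / (4 * y)) ^ 2 := pow_le_pow_left₀ h4 h3 2
  refine le_trans ?_ h5
  have h6 : A * B / 16 ≤ ((A * y ^ 2 + B) / (8 * y)) ^ 2 := by
    rw [div_pow, div_le_div_iff₀ (by positivity) (by positivity)]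
    nlinarith [sq_nonneg (A * y ^ 2 - B)]
  refine le_trans ?_ h6
  have h7 : A + B ≤ 2 * (A * B) := by nlinarith
  have h8 : 1 + a ^ 2 + b ^ 2 + c ^ 2 + d ^ 2 = 1 + A + B := by rw [hAd, hBd]; ring
  rw [h8]
  nlinarith

theorem lat_i_term {g : SL(2, ℤ)} {z : ℍ} (hz : z ∈ 𝒟) :
    ch (g • z) UpperHalfPlane.I ^ (-(13 : ℝ)) ≤ 96 ^ (13 / 2 : ℝ) *
    (1 + ((g 0 0 : ℤ) : ℝ) ^ 2 + ((g 0 1 : ℤ) : ℝ) ^ 2 + ((g 1 0 : ℤ) : ℝ) ^ 2 +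
      ((g 1 1 : ℤ) : ℝ) ^ 2) ^ (-(4 : ℝ)) := by
  have h1 := lat_i_low (g := g) hz
  have h2 : 1 ≤ ch (g • z) UpperHalfPlane.I := WA.one_le_ch _ _
  set n : ℝ := 1 + ((g 0 0 : ℤ) : ℝ) ^ 2 + ((g 0 1 : ℤ) : ℝ) ^ 2 + ((g 1 0 : ℤ) : ℝ) ^ 2 +
      ((g 1 1 : ℤ) : ℝ) ^ 2 with hn
  have hn1 : 1 ≤ n := by
    rw [hn]
    have k1 := sq_nonneg ((g 0 0 : ℤ) : ℝ)
    have k2 := sq_nonneg ((g 0 1 : ℤ) : ℝ)
    have k3 := sq_nonneg ((g 1 0 : ℤ) : ℝ)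
    have k4 := sq_nonneg ((g 1 1 : ℤ) : ℝ)
    linarith
  set t : ℝ := ch (g • z) UpperHalfPlane.I with ht
  have ht0 : 0 < t := by linarith
  have e1 : t ^ (-(13 : ℝ)) = (t ^ 2) ^ (-(13 / 2 : ℝ)) := by
    rw [← Real.rpow_natCast, ← Real.rpow_mul ht0.le]
    norm_num
  rw [e1]
  calc (t ^ 2) ^ (-(13 / 2 : ℝ)) ≤ (n / 96) ^ (-(13 / 2 : ℝ)) :=
        Real.rpow_le_rpow_of_nonpos (by positivity) h1 (by norm_num)
    _ = 96 ^ (13 / 2 : ℝ) * n ^ (-(13 / 2 : ℝ)) := by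
        rw [Real.div_rpow (by linarith) (by norm_num), Real.rpow_neg (by norm_num : (0 : ℝ) ≤ 96)]
        rw [div_inv_eq_mul, mul_comm]
    _ ≤ _ := by
        gcongr
        norm_num

theorem lat_sup_pr (w : ℍ) : ∃ C : ℝ, ∀ z : ℍ,
    ∑' g : SL(2, ℤ), ENNReal.ofReal (ch (g • z) w ^ (-(13 : ℝ))) ≤ ENNReal.ofReal C := by
  set K : ℝ := (4 * ch w UpperHalfPlane.I) ^ (13 : ℝ) * 96 ^ (13 / 2 : ℝ) with hK
  have hch : 0 < ch w UpperHalfPlane.I := lt_of_lt_of_le one_pos (WA.one_le_ch _ _)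
  have hK0 : 0 ≤ K := by positivity
  set s0 : ℝ≥0∞ := ∑' g : SL(2, ℤ), ENNReal.ofReal
    ((1 + ((g 0 0 : ℤ) : ℝ) ^ 2 + ((g 0 1 : ℤ) : ℝ) ^ 2 + ((g 1 0 : ℤ) : ℝ) ^ 2 +
      ((g 1 1 : ℤ) : ℝ) ^ 2) ^ (-(4 : ℝ))) with hs0
  have hfin : s0 < ⊤ := WA.A4_sumSL
  refine ⟨(ENNReal.ofReal K * s0).toReal, fun z => ?_⟩
  rw [ENNReal.ofReal_toReal (ENNReal.mul_lt_top ENNReal.ofReal_lt_top hfin).ne]
  obtain ⟨h, hh⟩ := ModularGroup.exists_smul_mem_fd z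
  have e1 : ∑' g : SL(2, ℤ), ENNReal.ofReal (ch (g • z) w ^ (-(13 : ℝ))) =
      ∑' g : SL(2, ℤ), ENNReal.ofReal (ch (g • (h • z)) w ^ (-(13 : ℝ))) := by
    rw [← (Equiv.mulRight h).tsum_eq (fun g : SL(2, ℤ) =>
      ENNReal.ofReal (ch (g • z) w ^ (-(13 : ℝ))))]
    refine tsum_congr fun g => ?_
    rw [Equiv.coe_mulRight, mul_smul]
  rw [e1, hs0, ← ENNReal.tsum_mul_left]
  refine ENNReal.tsum_le_tsum fun g => ?_
  rw [← ENNReal.ofReal_mul hK0]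
  apply ENNReal.ofReal_le_ofReal
  have h1 := lat_i_term (g := g) hh
  have h2 := WA.ch_tri (g • (h • z)) w UpperHalfPlane.I
  have h3 : 0 < ch (g • (h • z)) w := lt_of_lt_of_le one_pos (WA.one_le_ch _ _)
  have h4 : 0 < ch (g • (h • z)) UpperHalfPlane.I := lt_of_lt_of_le one_pos (WA.one_le_ch _ _)
  have h5 : ch (g • (h • z)) w ^ (-(13 : ℝ)) ≤
      (4 * ch w UpperHalfPlane.I) ^ (13 : ℝ) *
        ch (g • (h • z)) UpperHalfPlane.I ^ (-(13 : ℝ)) := by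
    have h6 : (4 * ch w UpperHalfPlane.I * ch (g • (h • z)) w) ^ (-(13 : ℝ)) ≤
        ch (g • (h • z)) UpperHalfPlane.I ^ (-(13 : ℝ)) :=
      Real.rpow_le_rpow_of_nonpos h4 (by linarith) (by norm_num)
    rw [Real.mul_rpow (by positivity) h3.le, Real.rpow_neg (by positivity)] at h6
    have h7 : 0 < (4 * ch w UpperHalfPlane.I) ^ (13 : ℝ) := by positivity
    rw [inv_mul_le_iff₀ h7] at h6
    exact h6
  calc ch (g • (h • z)) w ^ (-(13 : ℝ)) ≤ (4 * ch w UpperHalfPlane.I) ^ (13 : ℝ) *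
        ch (g • (h • z)) UpperHalfPlane.I ^ (-(13 : ℝ)) := h5
    _ ≤ (4 * ch w UpperHalfPlane.I) ^ (13 : ℝ) * (96 ^ (13 / 2 : ℝ) *
      (1 + ((g 0 0 : ℤ) : ℝ) ^ 2 + ((g 0 1 : ℤ) : ℝ) ^ 2 + ((g 1 0 : ℤ) : ℝ) ^ 2 +
      ((g 1 1 : ℤ) : ℝ) ^ 2) ^ (-(4 : ℝ))) := by gcongr
    _ = _ := by rw [hK]; ring

theorem lat_low : type_of% @lat_low_pr := @lat_low_pr

theorem lat_sup : type_of% @lat_sup_pr := @lat_sup_pr

end Pool.Agent.DIMK
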