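import Pool.Agent.Lib_helper41.DIM.Defs
import Pool.Agent.Lib_helper98.WAF.A1
import Pool.Agent.Lib_helper98.WAF.A2
import Pool.Agent.Lib_helper98.WAF.A4
import Pool.Agent.Lib_helper41.DIMF.LAT
import Pool.Agent.Lib_helper41.DIMF.COS

/-! Block POA: the averages `AA N 13 w`. -/

namespace Pool.Agent.DIMK

open Complex MeasureTheory Filter Topology UpperHalfPlane ModularGroup CongruenceSubgroup
open scoped MatrixGroups Modular ENNReal ModularForm ComplexConjugate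
open Pool.Agent.LEV (PX pa sg wz S2 G0 co IsFricke Hol)
open Pool.Agent.WA (ch)
open Pool.Agent.GL2 (RSA_mp RSA_count_ae RSA_coe_smul RSA_im_smul RSA_denom_ne)

section
variable {N : ℕ} [Fact N.Prime]

theorem POA_ch_pos (z w : ℍ) : 0 < ch z w := lt_of_lt_of_le one_pos (WA.one_le_ch z w)

theorem POA_rp {x : ℝ} (hx : 0 < x) : x ^ (-(13 : ℝ)) = (x ^ 13)⁻¹ := by
  rw [Real.rpow_neg hx.le]
  congr 1
  exact_mod_cast Real.rpow_natCast x 13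

theorem POA_ne (w : ℍ) {u : ℂ} (hu : 0 < u.im) : u - conj (w : ℂ) ≠ 0 := by
  intro h
  have h1 := congrArg Complex.im h
  rw [Complex.sub_im, Complex.conj_im, Complex.zero_im] at h1
  have h2 := w.im_pos
  have h3 : (w : ℂ).im = w.im := rfl
  rw [h3] at h1
  linarith

theorem POA_kr_norm (m : ℕ) (w z : ℍ) : ‖kr m w z‖ * z.im ^ m = (ch z w ^ m)⁻¹ := by
  have h1 : 0 < ‖(z : ℂ) - conj (w : ℂ)‖ := norm_pos_iff.mpr (POA_ne w z.im_pos)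
  have h2 := z.im_pos
  have h3 := w.im_pos
  have h4 : ch z w = ‖(z : ℂ) - conj (w : ℂ)‖ ^ 2 / (4 * z.im * w.im) := rfl
  unfold kr
  rw [h4, norm_div, norm_mul, norm_pow, norm_pow, Complex.norm_real,
    norm_mul, Complex.norm_I, mul_one,
    Real.norm_of_nonneg (pow_nonneg h3.le m), Complex.norm_ofNat, ← inv_pow, inv_div, div_pow,
    pow_mul, pow_mul, mul_pow, mul_pow]
  norm_num
  ring

theorem kr_norm_pr (w z : ℍ) : ‖nf 13 (kr 13 w) z‖ = ch z w ^ (-(13 : ℝ)) := by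
  rw [POA_rp (POA_ch_pos z w), ← POA_kr_norm 13 w z]
  unfold nf
  rw [norm_mul, Complex.norm_real, Real.norm_of_nonneg (pow_nonneg z.im_pos.le 13)]

theorem POA_jd_eq (g : SL(2, ℤ)) (z : ℍ) :
    LEV.jd g (z : ℂ) = ((g 1 0 : ℤ) : ℂ) * (z : ℂ) + ((g 1 1 : ℤ) : ℂ) := rfl

theorem POA_jd_ne (g : SL(2, ℤ)) (z : ℍ) : LEV.jd g (z : ℂ) ≠ 0 := RSA_denom_ne g z

theorem POA_coe (g : SL(2, ℤ)) (z : ℍ) : ((g • z : ℍ) : ℂ) =
    (((g 0 0 : ℤ) : ℂ) * (z : ℂ) + ((g 0 1 : ℤ) : ℂ)) / LEV.jd g (z : ℂ) := RSA_coe_smul g z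

theorem POA_im (g : SL(2, ℤ)) (z : ℍ) : (g • z : ℍ).im = z.im / ‖LEV.jd g (z : ℂ)‖ ^ 2 :=
  RSA_im_smul g z

theorem POA_jd_mul (g h : SL(2, ℤ)) (z : ℍ) :
    LEV.jd (g * h) (z : ℂ) = LEV.jd g ((h • z : ℍ) : ℂ) * LEV.jd h (z : ℂ) :=
  WA.A1_jd_mul g h z

/-- the linear form in the denominator -/
noncomputable def POA_L (w : ℍ) (g : SL(2, ℤ)) (z : ℂ) : ℂ :=
  (((g 0 0 : ℤ) : ℂ) * z + ((g 0 1 : ℤ) : ℂ)) -
    conj (w : ℂ) * (((g 1 0 : ℤ) : ℂ) * z + ((g 1 1 : ℤ) : ℂ))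

theorem POA_L_eq (w : ℍ) (g : SL(2, ℤ)) (z : ℍ) :
    ((g • z : ℍ) : ℂ) - conj (w : ℂ) = POA_L w g z / LEV.jd g (z : ℂ) := by
  have h1 := POA_jd_ne g z
  rw [POA_coe]
  unfold POA_L
  rw [← POA_jd_eq]
  field_simp

theorem POA_L_ne (w : ℍ) (g : SL(2, ℤ)) (z : ℍ) : POA_L w g (z : ℂ) ≠ 0 := by
  intro h
  apply POA_ne w (g • z : ℍ).im_pos
  have h1 := POA_L_eq w g z
  rw [h, zero_div] at h1
  exact h1

/-- the term of the sum -/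
theorem POA_term (m : ℕ) (w : ℍ) (g : SL(2, ℤ)) (z : ℍ) :
    (LEV.jd g (z : ℂ) ^ (2 * m))⁻¹ * kr m w (g • z) =
      ((2 * Complex.I) ^ (2 * m) * ((w.im ^ m : ℝ) : ℂ)) / POA_L w g (z : ℂ) ^ (2 * m) := by
  have h1 := pow_ne_zero (2 * m) (POA_jd_ne g z)
  have h3 := pow_ne_zero (2 * m) (POA_L_ne w g z)
  unfold kr
  rw [POA_L_eq, div_pow]
  field_simp

theorem POA_term_norm (m : ℕ) (w : ℍ) (g : SL(2, ℤ)) (z : ℍ) :
    ‖(LEV.jd g (z : ℂ) ^ (2 * m))⁻¹ * kr m w (g • z)‖ * z.im ^ m = (ch (g • z) w ^ m)⁻¹ := by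
  have h1 : 0 < ‖LEV.jd g (z : ℂ)‖ := norm_pos_iff.mpr (POA_jd_ne g z)
  have h2 := pow_ne_zero (2 * m) h1.ne'
  rw [← POA_kr_norm m w (g • z), norm_mul, POA_im, norm_inv, norm_pow, div_pow, ← pow_mul]
  field_simp

theorem POA_sum (w z : ℍ) :
    Summable (fun g : Gamma0 N => (ch ((g : SL(2, ℤ)) • z) w ^ 13)⁻¹) := by
  obtain ⟨C, hC⟩ := lat_sup w
  have h1 : ∑' g : Gamma0 N, ENNReal.ofReal (ch ((g : SL(2, ℤ)) • z) w ^ (-(13 : ℝ))) ≠ ⊤ := by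
    apply ne_top_of_le_ne_top (ENNReal.ofReal_ne_top (r := C))
    refine le_trans ?_ (hC z)
    exact ENNReal.tsum_comp_le_tsum_of_injective Subtype.val_injective
      (fun g : SL(2, ℤ) => ENNReal.ofReal (ch (g • z) w ^ (-(13 : ℝ))))
  have h2 := ENNReal.summable_toReal h1
  refine h2.congr fun g => ?_
  rw [ENNReal.toReal_ofReal (Real.rpow_nonneg (POA_ch_pos _ _).le _), POA_rp (POA_ch_pos _ _)]

theorem POA_summable (m : ℕ) (w z : ℍ)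
    (h : Summable (fun g : Gamma0 N => (ch ((g : SL(2, ℤ)) • z) w ^ m)⁻¹)) :
    Summable (fun g : Gamma0 N =>
      (LEV.jd (g : SL(2, ℤ)) z ^ (2 * m))⁻¹ * kr m w ((g : SL(2, ℤ)) • z)) := by
  apply Summable.of_norm
  have h1 := h.mul_right ((z.im ^ m)⁻¹)
  refine h1.congr fun g => ?_
  rw [← POA_term_norm m w (g : SL(2, ℤ)) z, mul_assoc,
    mul_inv_cancel₀ (pow_pos z.im_pos m).ne', mul_one]

theorem aa_summable_pr (w z : ℍ) : Summable (fun g : Gamma0 N =>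
    (LEV.jd (g : SL(2, ℤ)) z ^ (2 * 13))⁻¹ * kr 13 w ((g : SL(2, ℤ)) • z)) :=
  POA_summable 13 w z (POA_sum w z)

theorem POA_ball {z₀ z : ℍ} (h : ‖(z : ℂ) - (z₀ : ℂ)‖ < z₀.im / 2) :
    z₀.im / 2 ≤ z.im ∧ ch z₀ z ≤ 7 := by
  have h0 := z₀.im_pos
  have h1 : |z.im - z₀.im| < z₀.im / 2 := by
    have : |((z : ℂ) - (z₀ : ℂ)).im| ≤ ‖(z : ℂ) - (z₀ : ℂ)‖ := Complex.abs_im_le_norm _
    rw [Complex.sub_im] at this
    exact lt_of_le_of_lt this h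
  rw [abs_lt] at h1
  have h2 : z₀.im / 2 ≤ z.im := by linarith
  refine ⟨h2, ?_⟩
  have h3 : ‖(z : ℂ) - conj (z : ℂ)‖ = 2 * z.im := by
    rw [Complex.sub_conj, norm_mul, Complex.norm_I, mul_one, Complex.norm_real]
    have : (z : ℂ).im = z.im := rfl
    rw [this, Real.norm_of_nonneg (by have := z.im_pos; positivity)]
  have h4 : ‖(z₀ : ℂ) - conj (z : ℂ)‖ ≤ z₀.im / 2 + 2 * z.im := by
    calc ‖(z₀ : ℂ) - conj (z : ℂ)‖ = ‖((z₀ : ℂ) - (z : ℂ)) + ((z : ℂ) - conj (z : ℂ))‖ := by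
          congr 1; ring
      _ ≤ ‖(z₀ : ℂ) - (z : ℂ)‖ + ‖(z : ℂ) - conj (z : ℂ)‖ := norm_add_le _ _
      _ ≤ z₀.im / 2 + 2 * z.im := by rw [norm_sub_rev, h3]; linarith
  have h5 : ‖(z₀ : ℂ) - conj (z : ℂ)‖ ^ 2 ≤ (z₀.im / 2 + 2 * z.im) ^ 2 :=
    pow_le_pow_left₀ (norm_nonneg _) h4 2
  unfold ch
  have h6 : 0 < 4 * z₀.im * z.im := by have := z.im_pos; positivity
  rw [div_le_iff₀ h6]
  refine le_trans h5 ?_
  nlinarith [z.im_pos]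

theorem POA_diff {ι : Type} (F : ι → ℂ → ℂ) (hF : ∀ i (z : ℂ), 0 < z.im → DifferentiableAt ℂ (F i) z)
    (hb : ∀ z₀ : ℍ, ∃ u : ι → ℝ, Summable u ∧
      ∀ i (z : ℍ), ‖(z : ℂ) - (z₀ : ℂ)‖ < z₀.im / 2 → ‖F i z‖ ≤ u i) :
    DifferentiableOn ℂ (fun z => ∑' i, F i z) {z : ℂ | 0 < z.im} := by
  intro z₀ hz₀
  set y₀ : ℍ := ⟨z₀, hz₀⟩ with hy₀
  apply DifferentiableAt.differentiableWithinAt
  set r : ℝ := z₀.im / 2 with hr
  have hr0 : 0 < r := half_pos hz₀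
  have hbl : ∀ z ∈ Metric.ball z₀ r, 0 < z.im := by
    intro z hz
    rw [Metric.mem_ball, Complex.dist_eq] at hz
    have h1 : |(z - z₀).im| ≤ ‖z - z₀‖ := Complex.abs_im_le_norm _
    rw [Complex.sub_im] at h1
    have h2 := abs_lt.mp (lt_of_le_of_lt h1 hz)
    have : 0 < z₀.im := hz₀
    linarith [h2.1]
  obtain ⟨u, hu, hub⟩ := hb y₀
  have hdiff : DifferentiableOn ℂ (fun z => ∑' i, F i z) (Metric.ball z₀ r) := by
    apply differentiableOn_tsum_of_summable_norm hu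
    · intro i z hz
      exact (hF i z (hbl z hz)).differentiableWithinAt
    · exact Metric.isOpen_ball
    · intro i z hz
      apply hub i ⟨z, hbl z hz⟩
      rw [Metric.mem_ball, Complex.dist_eq] at hz
      exact hz
  exact hdiff.differentiableAt (Metric.ball_mem_nhds z₀ hr0)

theorem POA_hol (m : ℕ) (w : ℍ)
    (h : ∀ z : ℍ, Summable (fun g : Gamma0 N => (ch ((g : SL(2, ℤ)) • z) w ^ m)⁻¹)) :
    Hol (AA N m w) := by
  set K : ℂ := (2 * Complex.I) ^ (2 * m) * ((w.im ^ m : ℝ) : ℂ) with hK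
  set F : Gamma0 N → ℂ → ℂ := fun g z => K / POA_L w (g : SL(2, ℤ)) z ^ (2 * m) with hF
  have hval : ∀ (g : Gamma0 N) (z : ℍ), (LEV.jd (g : SL(2, ℤ)) z ^ (2 * m))⁻¹ *
      kr m w ((g : SL(2, ℤ)) • z) = F g (z : ℂ) := fun g z => POA_term m w g z
  have hAA : ∀ z ∈ {z : ℂ | 0 < z.im}, AA N m w (UpperHalfPlane.ofComplex z) = ∑' g, F g z := by
    intro z hz
    rw [UpperHalfPlane.ofComplex_apply_of_im_pos hz]
    unfold AA
    congr 1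
    funext g
    exact hval g ⟨z, hz⟩
  unfold Hol
  apply DifferentiableOn.congr (f := fun z => ∑' g, F g z) _ hAA
  apply POA_diff
  · intro g z hz
    simp only [hF]
    apply DifferentiableAt.div (differentiableAt_const _)
    · unfold POA_L
      fun_prop
    · exact pow_ne_zero _ (POA_L_ne w g ⟨z, hz⟩)
  · intro y₀
    refine ⟨fun g => ((28 : ℝ) ^ m * ((y₀.im / 2) ^ m)⁻¹) * (ch ((g : SL(2, ℤ)) • y₀) w ^ m)⁻¹,
      (h y₀).mul_left _, ?_⟩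
    intro g y h1
    obtain ⟨h2, h3⟩ := POA_ball h1
    have h4 := POA_term_norm m w (g : SL(2, ℤ)) y
    rw [hval g y] at h4
    have h6 := y₀.im_pos
    have p1 := POA_ch_pos ((g : SL(2, ℤ)) • y) w
    have p2 := POA_ch_pos ((g : SL(2, ℤ)) • y₀) w
    have h7 : ch ((g : SL(2, ℤ)) • y₀) w ≤ 28 * ch ((g : SL(2, ℤ)) • y) w := by
      have h8 := WA.ch_tri ((g : SL(2, ℤ)) • y₀) ((g : SL(2, ℤ)) • y) w
      rw [WA.ch_smul] at h8
      nlinarith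
    have h8 : (ch ((g : SL(2, ℤ)) • y) w ^ m)⁻¹ ≤
        (28 : ℝ) ^ m * (ch ((g : SL(2, ℤ)) • y₀) w ^ m)⁻¹ := by
      have h9 := pow_le_pow_left₀ p2.le h7 m
      rw [mul_pow] at h9
      rw [← div_eq_mul_inv, le_div_iff₀ (by positivity), inv_mul_le_iff₀ (by positivity)]
      linarith
    have h9 : ‖F g y‖ = (ch ((g : SL(2, ℤ)) • y) w ^ m)⁻¹ * (y.im ^ m)⁻¹ := by
      rw [← h4, mul_assoc, mul_inv_cancel₀ (pow_pos y.im_pos m).ne', mul_one]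
    rw [h9]
    have h10 : (y.im ^ m)⁻¹ ≤ ((y₀.im / 2) ^ m)⁻¹ := by
      apply inv_anti₀ (by positivity)
      exact pow_le_pow_left₀ (by positivity) h2 m
    calc (ch ((g : SL(2, ℤ)) • y) w ^ m)⁻¹ * (y.im ^ m)⁻¹ ≤
        ((28 : ℝ) ^ m * (ch ((g : SL(2, ℤ)) • y₀) w ^ m)⁻¹) * ((y₀.im / 2) ^ m)⁻¹ := by
          apply mul_le_mul h8 h10 (by have := y.im_pos; positivity) (by positivity)
      _ = _ := by ring

theorem aa_hol_pr (w : ℍ) : Hol (AA N 13 w) := POA_hol 13 w (fun z => POA_sum w z)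

theorem POA_slash (m : ℕ) (w : ℍ) (g : SL(2, ℤ)) (hg : g ∈ Gamma0 N) (z : ℍ) :
    AA N m w (g • z) = LEV.jd g z ^ (2 * m) * AA N m w z := by
  have h1 := pow_ne_zero (2 * m) (POA_jd_ne g z)
  unfold AA
  rw [← (Equiv.mulRight (⟨g, hg⟩ : Gamma0 N)).tsum_eq
    (fun h : Gamma0 N => (LEV.jd (h : SL(2, ℤ)) z ^ (2 * m))⁻¹ * kr m w ((h : SL(2, ℤ)) • z)),
    ← tsum_mul_left]
  congr 1
  funext h
  have h2 : ((Equiv.mulRight (⟨g, hg⟩ : Gamma0 N) h : Gamma0 N) : SL(2, ℤ)) =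
    (h : SL(2, ℤ)) * g := rfl
  rw [h2, POA_jd_mul, mul_smul, mul_pow, mul_inv,
    mul_comm ((LEV.jd (h : SL(2, ℤ)) ((g • z : ℍ) : ℂ) ^ (2 * m))⁻¹)
      ((LEV.jd g (z : ℂ) ^ (2 * m))⁻¹), mul_assoc, ← mul_assoc (LEV.jd g (z : ℂ) ^ (2 * m)),
    mul_inv_cancel₀ h1, one_mul]

theorem aa_slash_pr (w : ℍ) (g : SL(2, ℤ)) (hg : g ∈ Gamma0 N) (z : ℍ) :
    AA N 13 w (g • z) = LEV.jd g z ^ (2 * 13) * AA N 13 w z := POA_slash 13 w g hg z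

theorem POA_norm (m : ℕ) (w z : ℍ) : ‖nf m (AA N m w) z‖ₑ ≤
    ∑' g : Gamma0 N, ENNReal.ofReal ((ch ((g : SL(2, ℤ)) • z) w ^ m)⁻¹) := by
  unfold nf AA
  rw [← tsum_mul_right]
  refine le_trans enorm_tsum_le_tsum_enorm ?_
  apply le_of_eq
  congr 1
  funext g
  rw [← POA_term_norm m w (g : SL(2, ℤ)) z, ← ofReal_norm, norm_mul, Complex.norm_real,
    Real.norm_of_nonneg (pow_nonneg z.im_pos.le m)]

theorem aa_norm_pr (w z : ℍ) : ‖nf 13 (AA N 13 w) z‖ₑ ≤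
    ∑' g : Gamma0 N, ENNReal.ofReal (ch ((g : SL(2, ℤ)) • z) w ^ (-(13 : ℝ))) := by
  refine le_trans (POA_norm 13 w z) ?_
  apply le_of_eq
  congr 1
  funext g
  rw [POA_rp (POA_ch_pos _ _)]

end

theorem kr_norm : type_of% @kr_norm_pr := @kr_norm_pr

theorem aa_summable : type_of% @aa_summable_pr := @aa_summable_pr

theorem aa_hol : type_of% @aa_hol_pr := @aa_hol_pr

theorem aa_slash : type_of% @aa_slash_pr := @aa_slash_pr

theorem aa_norm : type_of% @aa_norm_pr := @aa_norm_pr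

end Pool.Agent.DIMK
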