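import Pool.Agent.Lib_helper41.DIM.Defs
import Pool.Agent.Lib_helper98.WAF.A1
import Pool.Agent.Lib_helper98.WAF.A2
import Pool.Agent.Lib_helper98.WAF.A4
import Pool.Agent.Lib_helper41.DIMF.POA
import Pool.Agent.Lib_helper41.DIMF.COS
import Pool.Agent.Lib_helper41.DIMF.LAT

/-! Block POB: the Poincare series `PP N 13 ε w` (imports POA of helper38). -/

namespace Pool.Agent.DIMK

open Complex MeasureTheory Filter Topology UpperHalfPlane ModularGroup CongruenceSubgroup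
open scoped MatrixGroups Modular ENNReal ModularForm ComplexConjugate
open Pool.Agent.LEV (PX pa sg wz S2 G0 co IsFricke Hol)
open Pool.Agent.WA (ch)
open Pool.Agent.GL2 (RSA_mp RSA_count_ae RSA_coe_smul RSA_im_smul RSA_denom_ne)

section
variable {N : ℕ} [Fact N.Prime]

theorem POB_N_ne : (N : ℂ) ≠ 0 := by
  exact_mod_cast (Fact.out : N.Prime).ne_zero

theorem POB_wz (z : ℍ) : ((wz N z : ℍ) : ℂ) = -1 / ((N : ℂ) * (z : ℂ)) := rfl

theorem POB_z_ne (z : ℍ) : (z : ℂ) ≠ 0 := z.ne_zero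

/-- `N^m (wz z)^{2m} = (N^m z^{2m})⁻¹` -/
theorem POB_fac (m : ℕ) (z : ℍ) : ((N : ℂ) ^ m * ((wz N z : ℍ) : ℂ) ^ (2 * m))⁻¹ =
    (N : ℂ) ^ m * (z : ℂ) ^ (2 * m) := by
  have h1 := POB_N_ne (N := N)
  have h2 := POB_z_ne z
  rw [POB_wz, pow_mul, pow_mul, ← mul_pow, ← mul_pow, ← inv_pow]
  congr 1
  field_simp

theorem POB_hol (m : ℕ) (ε : ℂ) (w : ℍ) (h : Hol (AA N m w)) : Hol (PP N m ε w) := by
  have hN := POB_N_ne (N := N)
  have hNr : (0 : ℝ) < N := by exact_mod_cast (Fact.out : N.Prime).pos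
  unfold Hol at h ⊢
  have him : ∀ z : ℂ, 0 < z.im → 0 < (-1 / ((N : ℂ) * z)).im := by
    intro z hz
    exact (wz N ⟨z, hz⟩).im_pos
  have h1 : DifferentiableOn ℂ (fun z : ℂ => AA N m w (UpperHalfPlane.ofComplex z) +
      ε * ((N : ℂ) ^ m * z ^ (2 * m))⁻¹ *
        AA N m w (UpperHalfPlane.ofComplex (-1 / ((N : ℂ) * z)))) {z : ℂ | 0 < z.im} := by
    apply h.add
    apply DifferentiableOn.mul
    · intro z hz
      apply DifferentiableAt.differentiableWithinAt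
      have hz0 : z ≠ 0 := by
        rintro rfl
        simp at hz
      apply DifferentiableAt.const_mul
      apply DifferentiableAt.inv
      · fun_prop
      · exact mul_ne_zero (pow_ne_zero _ hN) (pow_ne_zero _ hz0)
    · apply h.comp (g := fun z : ℂ => AA N m w (UpperHalfPlane.ofComplex z))
        (f := fun z : ℂ => -1 / ((N : ℂ) * z)) (t := {z : ℂ | 0 < z.im})
      · intro z hz
        apply DifferentiableAt.differentiableWithinAt
        have hz0 : z ≠ 0 := by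
          rintro rfl
          simp at hz
        apply DifferentiableAt.div (differentiableAt_const _)
        · fun_prop
        · exact mul_ne_zero hN hz0
      · intro z hz
        exact him z hz
  refine h1.congr ?_
  intro z hz
  have h2 : UpperHalfPlane.ofComplex z = ⟨z, hz⟩ := UpperHalfPlane.ofComplex_apply_of_im_pos hz
  have h3 : UpperHalfPlane.ofComplex (-1 / ((N : ℂ) * z)) = wz N ⟨z, hz⟩ :=
    UpperHalfPlane.ofComplex_apply_of_im_pos (him z hz)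
  rw [h3, h2]
  rfl

theorem POB_slash (m : ℕ) (ε : ℂ) (w : ℍ) (g : SL(2, ℤ)) (hg : g ∈ Gamma0 N) (z : ℍ) :
    PP N m ε w (g • z) = LEV.jd g z ^ (2 * m) * PP N m ε w z := by
  obtain ⟨τ, hτ⟩ := cosW (N := N)
  obtain ⟨h1, h2⟩ := hτ ⟨g, hg⟩ z
  have hN := pow_ne_zero m (POB_N_ne (N := N))
  have hz := pow_ne_zero (2 * m) (POB_z_ne z)
  have hgz := pow_ne_zero (2 * m) (POB_z_ne (g • z))
  have h3 : (((g • z : ℍ) : ℂ)) ^ (2 * m) * LEV.jd g (z : ℂ) ^ (2 * m) =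
      LEV.jd ((τ ⟨g, hg⟩ : Gamma0 N) : SL(2, ℤ)) (wz N z) ^ (2 * m) * (z : ℂ) ^ (2 * m) := by
    rw [← mul_pow, ← mul_pow]
    exact congrArg (· ^ (2 * m)) h2
  have h4 : AA N m w (wz N (g • z)) =
      LEV.jd ((τ ⟨g, hg⟩ : Gamma0 N) : SL(2, ℤ)) (wz N z) ^ (2 * m) * AA N m w (wz N z) := by
    have h5 : wz N (g • z) = ((τ ⟨g, hg⟩ : Gamma0 N) : SL(2, ℤ)) • wz N z := h1
    rw [h5]
    exact POA_slash m w _ (τ ⟨g, hg⟩).2 _
  unfold PP
  rw [POA_slash m w g hg z, h4, mul_add]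
  congr 1
  have key : ∀ J T A B : ℂ, A ≠ 0 → B ≠ 0 → A * J = T * B → ∀ P : ℂ,
      ε * ((N : ℂ) ^ m * A)⁻¹ * (T * P) = J * (ε * ((N : ℂ) ^ m * B)⁻¹ * P) := by
    intro J T A B hA hB h P
    have h5 : T = A * J / B := by rw [h]; field_simp
    rw [h5]
    field_simp
  exact key _ _ _ _ hgz hz h3 _

theorem POB_fricke (m : ℕ) {ε : ℂ} (hε : ε = 1 ∨ ε = -1) (w z : ℍ) :
    PP N m ε w (wz N z) = ε * (N : ℂ) ^ m * (z : ℂ) ^ (2 * m) * PP N m ε w z := by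
  have hN := pow_ne_zero m (POB_N_ne (N := N))
  have hz := pow_ne_zero (2 * m) (POB_z_ne z)
  have he : ε * ε = 1 := by rcases hε with h | h <;> rw [h] <;> ring
  unfold PP
  rw [wz_wz, POB_fac]
  have key : ∀ B P Q : ℂ, B ≠ 0 →
      Q + ε * ((N : ℂ) ^ m * B) * P = ε * (N : ℂ) ^ m * B * (P + ε * ((N : ℂ) ^ m * B)⁻¹ * Q) := by
    intro B P Q hB
    have h1 : ε * (N : ℂ) ^ m * B * (P + ε * ((N : ℂ) ^ m * B)⁻¹ * Q) =
        ε * (N : ℂ) ^ m * B * P + (ε * ε) * Q := by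
      field_simp
    rw [h1, he]
    ring
  exact key _ _ _ hz

theorem POB_nf2 (m : ℕ) (G : ℍ → ℂ) (z : ℍ) :
    ‖((N : ℂ) ^ m * (z : ℂ) ^ (2 * m))⁻¹ * G (wz N z) * ((z.im ^ m : ℝ) : ℂ)‖ =
      ‖nf m G (wz N z)‖ := by
  have h2 : 0 < ‖(z : ℂ)‖ := norm_pos_iff.mpr (POB_z_ne z)
  have hNr : (0 : ℝ) < N := by exact_mod_cast (Fact.out : N.Prime).pos
  unfold nf
  rw [norm_mul, norm_mul, norm_mul, norm_inv, norm_mul, norm_pow, norm_pow, Complex.norm_real,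
    Complex.norm_real, wz_im, Real.norm_of_nonneg (pow_nonneg z.im_pos.le m),
    Real.norm_of_nonneg (pow_nonneg (div_nonneg z.im_pos.le (by
      have := Complex.normSq_nonneg (z : ℂ); positivity)) m), Complex.normSq_eq_norm_sq,
    Complex.norm_natCast, div_pow, mul_pow, ← pow_mul]
  field_simp

theorem POB_bd (w : ℍ) : ∃ C : ℝ, ∀ z : ℍ, ‖nf 13 (AA N 13 w) z‖ ≤ C := by
  obtain ⟨C, hC⟩ := lat_sup w
  refine ⟨max C 0, fun z => ?_⟩
  have h1 : ‖nf 13 (AA N 13 w) z‖ₑ ≤ ENNReal.ofReal C := by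
    refine le_trans (aa_norm_pr w z) (le_trans ?_ (hC z))
    exact ENNReal.tsum_comp_le_tsum_of_injective Subtype.val_injective
      (fun g : SL(2, ℤ) => ENNReal.ofReal (ch (g • z) w ^ (-(13 : ℝ))))
  have h2 : ‖nf 13 (AA N 13 w) z‖ₑ ≤ ENNReal.ofReal (max C 0) :=
    le_trans h1 (ENNReal.ofReal_le_ofReal (le_max_left _ _))
  rw [← ofReal_norm] at h2
  exact (ENNReal.ofReal_le_ofReal_iff (le_max_right _ _)).mp h2

theorem pp_mem_pr {ε : ℂ} (hε : ε = 1 ∨ ε = -1) (w : ℍ) : PP N 13 ε w ∈ VV N 13 ε := by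
  have hen : ‖ε‖ = 1 := by rcases hε with h | h <;> rw [h] <;> simp
  obtain ⟨C, hC⟩ := POB_bd (N := N) w
  refine ⟨POB_hol 13 ε w (aa_hol_pr w), POB_slash 13 ε w, POB_fricke 13 hε w, ⟨C + C, fun z => ?_⟩⟩
  have h1 : ‖PP N 13 ε w z‖ * z.im ^ 13 = ‖PP N 13 ε w z * ((z.im ^ 13 : ℝ) : ℂ)‖ := by
    rw [norm_mul, Complex.norm_real, Real.norm_of_nonneg (pow_nonneg z.im_pos.le 13)]
  have h2 : PP N 13 ε w z * ((z.im ^ 13 : ℝ) : ℂ) = nf 13 (AA N 13 w) z +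
      ε * (((N : ℂ) ^ 13 * (z : ℂ) ^ (2 * 13))⁻¹ * AA N 13 w (wz N z) * ((z.im ^ 13 : ℝ) : ℂ)) := by
    unfold PP nf
    ring
  rw [h1, h2]
  refine le_trans (norm_add_le _ _) ?_
  rw [norm_mul, hen, one_mul, POB_nf2]
  exact add_le_add (hC z) (hC _)

/-- `-1` -/
def POB_mo (N : ℕ) : Gamma0 N := ⟨-1, by
  rw [CongruenceSubgroup.Gamma0_mem]
  simp⟩

theorem POB_neg_smul (z : ℍ) : (-1 : SL(2, ℤ)) • z = z := by
  apply UpperHalfPlane.ext
  rw [POA_coe]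
  unfold LEV.jd
  simp

theorem POB_t1 (w : ℍ) (g : SL(2, ℤ)) (hg : g = 1 ∨ g = -1) (m : ℕ) :
    (LEV.jd g (w : ℂ) ^ (2 * m))⁻¹ * kr m w (g • w) * ((w.im ^ m : ℝ) : ℂ) = 1 := by
  have h1 : g • w = w := by
    rcases hg with h | h
    · rw [h, one_smul]
    · rw [h, POB_neg_smul]
  have h2 : LEV.jd g (w : ℂ) ^ (2 * m) = 1 := by
    rcases hg with h | h
    · rw [h]; unfold LEV.jd; simp
    · rw [h]; unfold LEV.jd
      rw [pow_mul]
      simp
  have h3 : (w : ℂ) - conj (w : ℂ) = 2 * Complex.I * (w.im : ℂ) := by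
    rw [Complex.sub_conj]
    have : (w : ℂ).im = w.im := rfl
    rw [this]
    push_cast
    ring
  have h4 : (w.im : ℂ) ≠ 0 := by
    rw [Ne, Complex.ofReal_eq_zero]
    exact w.im_pos.ne'
  have h5 : (2 * Complex.I) ^ (2 * m) ≠ 0 := pow_ne_zero _ (by simp)
  rw [h1, h2]
  unfold kr
  rw [h3, mul_pow (2 * Complex.I), inv_one, one_mul]
  push_cast
  rw [two_mul m, pow_add (w.im : ℂ)]
  rw [two_mul m] at h5
  have h6 := pow_ne_zero m h4
  field_simp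

theorem diag_le_pr {ε : ℂ} (hε : ε = 1 ∨ ε = -1) (w : ℍ) :
    ‖nf 13 (PP N 13 ε w) w - 2‖ₑ ≤ off1 N w + off2 N w := by
  have hen : ‖ε‖ = 1 := by rcases hε with h | h <;> rw [h] <;> simp
  set f : Gamma0 N → ℂ := fun g => (LEV.jd (g : SL(2, ℤ)) w ^ (2 * 13))⁻¹ *
    kr 13 w ((g : SL(2, ℤ)) • w) * ((w.im ^ 13 : ℝ) : ℂ) with hf
  have hfs : Summable f := (aa_summable_pr (N := N) w w).mul_right _
  have hA : nf 13 (AA N 13 w) w = ∑' g, f g := by
    unfold nf AA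
    rw [← tsum_mul_right]
  set s : Set (Gamma0 N) := {g : Gamma0 N | (g : SL(2, ℤ)) ≠ 1 ∧ (g : SL(2, ℤ)) ≠ -1} with hs
  have hsplit : ∑' g, f g = ∑' g : s, f g + 2 := by
    rw [← hfs.tsum_subtype_add_tsum_subtype_compl s]
    congr 1
    rw [tsum_subtype sᶜ f]
    have hne : (1 : Gamma0 N) ≠ POB_mo N := by
      intro h
      have h1 := congrArg (fun g : Gamma0 N => (g : SL(2, ℤ)) 0 0) h
      simp [POB_mo] at h1
    rw [tsum_eq_sum (s := {1, POB_mo N})]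
    · rw [Finset.sum_pair hne, Set.indicator_of_mem, Set.indicator_of_mem]
      · simp only [hf]
        have e1 := POB_t1 w ((1 : Gamma0 N) : SL(2, ℤ)) (Or.inl rfl) 13
        have e2 := POB_t1 w ((POB_mo N : Gamma0 N) : SL(2, ℤ)) (Or.inr rfl) 13
        rw [e1, e2]
        norm_num
      · simp [hs, POB_mo]
      · simp [hs]
    · intro g hg
      apply Set.indicator_of_notMem
      rw [Set.notMem_compl_iff]
      simp only [Finset.mem_insert, Finset.mem_singleton, not_or] at hg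
      refine ⟨fun h => hg.1 (Subtype.ext h), fun h => hg.2 (Subtype.ext h)⟩
  have h1 : nf 13 (PP N 13 ε w) w - 2 = ∑' g : s, f g +
      ε * (((N : ℂ) ^ 13 * (w : ℂ) ^ (2 * 13))⁻¹ * AA N 13 w (wz N w) * ((w.im ^ 13 : ℝ) : ℂ)) := by
    have h2 : nf 13 (PP N 13 ε w) w = nf 13 (AA N 13 w) w +
      ε * (((N : ℂ) ^ 13 * (w : ℂ) ^ (2 * 13))⁻¹ * AA N 13 w (wz N w) * ((w.im ^ 13 : ℝ) : ℂ)) := by
      unfold PP nf
      ring
    rw [h2, hA, hsplit]
    ring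
  rw [h1]
  refine le_trans (enorm_add_le _ _) (add_le_add ?_ ?_)
  · refine le_trans enorm_tsum_le_tsum_enorm ?_
    apply le_of_eq
    unfold off1
    apply tsum_congr
    intro g
    simp only [hf]
    rw [← ofReal_norm, norm_mul, Complex.norm_real,
      Real.norm_of_nonneg (pow_nonneg w.im_pos.le 13), POA_term_norm 13 w, POA_rp (POA_ch_pos _ _)]
  · rw [← ofReal_norm, norm_mul, hen, one_mul, POB_nf2, ofReal_norm]
    refine le_trans (aa_norm_pr w _) ?_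
    unfold off2
    exact le_refl _

end

theorem pp_mem : type_of% @pp_mem_pr := @pp_mem_pr

theorem diag_le : type_of% @diag_le_pr := @diag_le_pr

end Pool.Agent.DIMK
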