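import Pool.Agent.Lib_helper41.DIM.Defs
import Pool.Agent.Lib_helper98.WAF.A1
import Pool.Agent.Lib_helper98.WAF.A2
import Pool.Agent.Lib_helper98.WAF.A4
import Pool.Agent.Lib_helper68.LEV.FAM
import Pool.Agent.Lib_helper41.DIMF.COS

/-! Block UNF: unfolding over `Γ₀(N)`. -/

namespace Pool.Agent.DIMK

open Complex MeasureTheory Filter Topology UpperHalfPlane ModularGroup CongruenceSubgroup
open scoped MatrixGroups Modular ENNReal ModularForm ComplexConjugate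
open Pool.Agent.LEV (PX pa sg wz S2 G0 co IsFricke Hol)
open Pool.Agent.WA (ch)
open Pool.Agent.GL2 (RSA_mp RSA_count_ae)

section
variable {N : ℕ} [Fact N.Prime]

theorem UNF_emb (g : SL(2, ℤ)) : MeasurableEmbedding (fun z : ℍ => g • z) := by
  let e : ℍ ≃ᵐ ℍ :=
    { toEquiv := MulAction.toPerm g
      measurable_toFun := (RSA_mp g).measurable
      measurable_invFun := (RSA_mp g⁻¹).measurable }
  exact e.measurableEmbedding

theorem UNF_lint (G : ℍ → ℝ≥0∞) (hG : AEMeasurable G) :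
    ∑' g : SL(2, ℤ), ∫⁻ z in 𝒟ᵒ, G (g • z) = 2 * ∫⁻ w : ℍ, G w := by
  have hmo : MeasurableSet (𝒟ᵒ : Set ℍ) := isOpen_fdo.measurableSet
  have hms : ∀ g : SL(2, ℤ), Measurable (fun z : ℍ => g • z) := fun g => (RSA_mp g).measurable
  have hstep : ∀ g : SL(2, ℤ), ∫⁻ z in 𝒟ᵒ, G (g • z) =
      ∫⁻ w : ℍ, G w * 𝒟ᵒ.indicator (fun _ => (1 : ℝ≥0∞)) (g⁻¹ • w) := by
    intro g
    rw [← (RSA_mp g).lintegral_comp_emb (UNF_emb g), ← lintegral_indicator hmo]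
    congr 1
    funext z
    rw [inv_smul_smul]
    by_cases hz : z ∈ 𝒟ᵒ
    · rw [Set.indicator_of_mem hz, Set.indicator_of_mem hz, mul_one]
    · rw [Set.indicator_of_notMem hz, Set.indicator_of_notMem hz, mul_zero]
  simp_rw [hstep]
  rw [← lintegral_tsum]
  · rw [← lintegral_const_mul'' _ hG]
    apply lintegral_congr_ae
    filter_upwards [RSA_count_ae] with w hw
    rw [ENNReal.tsum_mul_left, mul_comm]
    congr 1
    rw [← hw]
    exact (Equiv.inv SL(2, ℤ)).tsum_eq (fun g => 𝒟ᵒ.indicator (fun _ => (1 : ℝ≥0∞)) (g • w))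
  · intro g
    exact hG.mul ((measurable_const.indicator hmo).comp (hms g⁻¹)).aemeasurable

theorem UNF_fin (Φ : ℍ → ℂ) (h : Integrable Φ) :
    ∑' g : SL(2, ℤ), ∫⁻ z in 𝒟ᵒ, ‖Φ (g • z)‖ₑ ≠ ⊤ := by
  rw [UNF_lint (fun w => ‖Φ w‖ₑ) h.1.enorm]
  exact ENNReal.mul_ne_top (by norm_num) h.2.ne

theorem UNF_int (Φ : ℍ → ℂ) (h : Integrable Φ) :
    HasSum (fun g : SL(2, ℤ) => ∫ z in 𝒟ᵒ, Φ (g • z)) (2 * ∫ w : ℍ, Φ w) := by
  have hmo : MeasurableSet (𝒟ᵒ : Set ℍ) := isOpen_fdo.measurableSet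
  have hfin := UNF_fin Φ h
  set F : SL(2, ℤ) → ℍ → ℂ := fun g w => 𝒟ᵒ.indicator (fun _ => (1 : ℂ)) (g⁻¹ • w) * Φ w with hF
  have hint : ∀ g, Integrable (F g) := by
    intro g
    have h1 : F g = ((fun w : ℍ => g⁻¹ • w) ⁻¹' 𝒟ᵒ).indicator Φ := by
      funext w
      simp only [hF]
      by_cases hw : g⁻¹ • w ∈ 𝒟ᵒ
      · rw [Set.indicator_of_mem hw, Set.indicator_of_mem (by exact hw), one_mul]
      · rw [Set.indicator_of_notMem hw, Set.indicator_of_notMem (by exact hw), zero_mul]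
    rw [h1]
    exact h.indicator ((RSA_mp g⁻¹).measurable hmo)
  have hstep : ∀ g : SL(2, ℤ), ∫ z in 𝒟ᵒ, Φ (g • z) = ∫ w : ℍ, F g w := by
    intro g
    rw [← (RSA_mp g).integral_comp (UNF_emb g), ← integral_indicator hmo]
    congr 1
    funext z
    simp only [hF]
    rw [inv_smul_smul]
    by_cases hz : z ∈ 𝒟ᵒ
    · rw [Set.indicator_of_mem hz, Set.indicator_of_mem hz, one_mul]
    · rw [Set.indicator_of_notMem hz, Set.indicator_of_notMem hz, zero_mul]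
  have hnorm : ∀ g, ∫ w, ‖F g w‖ = (∫⁻ z in 𝒟ᵒ, ‖Φ (g • z)‖ₑ).toReal := by
    intro g
    rw [integral_norm_eq_lintegral_enorm (hint g).1]
    congr 1
    rw [← (RSA_mp g).lintegral_comp_emb (UNF_emb g), ← lintegral_indicator hmo]
    congr 1
    funext z
    simp only [hF]
    rw [inv_smul_smul]
    by_cases hz : z ∈ 𝒟ᵒ
    · rw [Set.indicator_of_mem hz, Set.indicator_of_mem hz, one_mul]
    · rw [Set.indicator_of_notMem hz, Set.indicator_of_notMem hz, zero_mul, enorm_zero]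
  have hs := hasSum_integral_of_summable_integral_norm hint
    (by simp_rw [hnorm]; exact ENNReal.summable_toReal hfin)
  simp_rw [hstep]
  have hv : 2 * ∫ w : ℍ, Φ w = ∫ w : ℍ, ∑' g : SL(2, ℤ), F g w := by
    rw [← integral_const_mul]
    apply integral_congr_ae
    filter_upwards [RSA_count_ae] with w hw
    simp only [hF]
    rw [tsum_mul_right]
    congr 1
    have h2 : ∑' g : SL(2, ℤ), 𝒟ᵒ.indicator (fun _ => (1 : ℝ≥0∞)) (g⁻¹ • w) = 2 := by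
      rw [← hw]
      exact (Equiv.inv SL(2, ℤ)).tsum_eq (fun g => 𝒟ᵒ.indicator (fun _ => (1 : ℝ≥0∞)) (g • w))
    have h3 : ∀ g : SL(2, ℤ), 𝒟ᵒ.indicator (fun _ => (1 : ℂ)) (g⁻¹ • w) =
        (((𝒟ᵒ.indicator (fun _ => (1 : ℝ≥0∞)) (g⁻¹ • w)).toReal : ℝ) : ℂ) := by
      intro g
      by_cases hz : g⁻¹ • w ∈ 𝒟ᵒ
      · rw [Set.indicator_of_mem hz, Set.indicator_of_mem hz]
        simp
      · rw [Set.indicator_of_notMem hz, Set.indicator_of_notMem hz]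
        simp
    simp_rw [h3]
    rw [← Complex.ofReal_tsum, ← ENNReal.tsum_toReal_eq, h2]
    · simp
    · intro g
      by_cases hz : g⁻¹ • w ∈ 𝒟ᵒ
      · rw [Set.indicator_of_mem hz]
        simp
      · rw [Set.indicator_of_notMem hz]
        simp
  rw [hv]
  exact hs

theorem unf1_pr (Φ : ℍ → ℂ) (h : Integrable Φ) :
    (∀ q : PX N, ∀ᵐ z ∂(volume.restrict 𝒟ᵒ),
      Summable (fun g : Gamma0 N => Φ ((g : SL(2, ℤ)) • ((sg q)⁻¹ • z)))) ∧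
    (∀ q : PX N, IntegrableOn (fun z : ℍ => ∑' g : Gamma0 N, Φ ((g : SL(2, ℤ)) • ((sg q)⁻¹ • z)))
      𝒟ᵒ) ∧
    ∑ q : PX N, ∫ z in 𝒟ᵒ, ∑' g : Gamma0 N, Φ ((g : SL(2, ℤ)) • ((sg q)⁻¹ • z)) =
      2 * ∫ z : ℍ, Φ z := by
  obtain ⟨e, he⟩ := cosE (N := N)
  have hcount : Countable (Gamma0 N) := inferInstance
  have hS : ∀ (g : Gamma0 N) (q : PX N) (z : ℍ),
      Φ ((g : SL(2, ℤ)) • ((sg q)⁻¹ • z)) = Φ (e (g, q) • z) := by
    intro g q z
    rw [he, mul_smul]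
  have hms : ∀ (g : SL(2, ℤ)), AEStronglyMeasurable (fun z : ℍ => Φ (g • z)) := by
    intro g
    exact h.1.comp_quasiMeasurePreserving (RSA_mp g).quasiMeasurePreserving
  have hfin := UNF_fin Φ h
  have hfinq : ∀ q : PX N, ∑' g : Gamma0 N, ∫⁻ z in 𝒟ᵒ, ‖Φ (e (g, q) • z)‖ₑ ≠ ⊤ := by
    intro q
    apply ne_top_of_le_ne_top hfin
    have hinj : Function.Injective (fun g : Gamma0 N => e (g, q)) := by
      intro a b hab
      have := e.injective hab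
      exact (Prod.mk.injEq _ _ _ _ ▸ this).1
    exact ENNReal.tsum_comp_le_tsum_of_injective hinj
      (fun g : SL(2, ℤ) => ∫⁻ z in 𝒟ᵒ, ‖Φ (g • z)‖ₑ)
  have hfinq' : ∀ q : PX N, ∫⁻ z in 𝒟ᵒ, ∑' g : Gamma0 N, ‖Φ (e (g, q) • z)‖ₑ ≠ ⊤ := by
    intro q
    rw [lintegral_tsum (fun g => (hms _).enorm.restrict)]
    exact hfinq q
  simp_rw [hS]
  refine ⟨fun q => ?_, fun q => ?_, ?_⟩
  · have h1 := ae_lt_top' (μ := volume.restrict 𝒟ᵒ)
      (AEMeasurable.tsum (fun g : Gamma0 N => (hms (e (g, q))).enorm.restrict)) (hfinq' q)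
    filter_upwards [h1] with z hz
    apply Summable.of_norm
    have h2 := ENNReal.summable_toReal hz.ne
    refine h2.congr fun g => ?_
    rw [toReal_enorm]
  · refine ⟨AEStronglyMeasurable.tsum (fun g => (hms _).restrict), ?_⟩
    rw [hasFiniteIntegral_iff_enorm]
    refine lt_of_le_of_lt (lintegral_mono fun z => enorm_tsum_le_tsum_enorm) ?_
    exact lt_top_iff_ne_top.mpr (hfinq' q)
  · have h1 : ∀ q : PX N, ∫ z in 𝒟ᵒ, ∑' g : Gamma0 N, Φ (e (g, q) • z) =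
        ∑' g : Gamma0 N, ∫ z in 𝒟ᵒ, Φ (e (g, q) • z) := by
      intro q
      exact integral_tsum (fun g => (hms _).restrict) (hfinq q)
    simp_rw [h1]
    have h2 := UNF_int Φ h
    have h3 : HasSum (fun x : Gamma0 N × PX N => ∫ z in 𝒟ᵒ, Φ (e x • z)) (2 * ∫ w : ℍ, Φ w) :=
      e.hasSum_iff.mpr h2
    rw [← h3.tsum_eq]
    have h4 : Summable (fun x : PX N × Gamma0 N => ∫ z in 𝒟ᵒ, Φ (e (x.2, x.1) • z)) :=
      (Equiv.prodComm (PX N) (Gamma0 N)).summable_iff.mpr h3.summable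
    have h5 : ∑' x : Gamma0 N × PX N, ∫ z in 𝒟ᵒ, Φ (e x • z) =
        ∑' x : PX N × Gamma0 N, ∫ z in 𝒟ᵒ, Φ (e (x.2, x.1) • z) :=
      ((Equiv.prodComm (PX N) (Gamma0 N)).tsum_eq (fun x => ∫ z in 𝒟ᵒ, Φ (e x • z))).symm
    rw [h5, h4.tsum_prod, tsum_fintype]

theorem unf2_pr (Φ : ℍ → ℂ) (h : Integrable Φ) :
    (∀ q : PX N, ∀ᵐ z ∂(volume.restrict 𝒟ᵒ),
      Summable (fun g : Gamma0 N => Φ ((g : SL(2, ℤ)) • wz N ((sg q)⁻¹ • z)))) ∧
    (∀ q : PX N, IntegrableOn (fun z : ℍ => ∑' g : Gamma0 N, Φ ((g : SL(2, ℤ)) • wz N ((sg q)⁻¹ • z)))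
      𝒟ᵒ) ∧
    ∑ q : PX N, ∫ z in 𝒟ᵒ, ∑' g : Gamma0 N, Φ ((g : SL(2, ℤ)) • wz N ((sg q)⁻¹ • z)) =
      2 * ∫ z : ℍ, Φ z := by
  obtain ⟨τ, hτ⟩ := cosW (N := N)
  have hi : Integrable (fun z : ℍ => Φ (wz N z)) :=
    ((wz_mp (N := N)).integrable_comp h.1).mpr h
  have he : ∫ z : ℍ, Φ (wz N z) = ∫ z : ℍ, Φ z := by
    rw [← integral_map (wz_mp (N := N)).measurable.aemeasurable
      (by rw [(wz_mp (N := N)).map_eq]; exact h.1), (wz_mp (N := N)).map_eq]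
  obtain ⟨h1, h2, h3⟩ := unf1_pr (N := N) (fun z => Φ (wz N z)) hi
  have hk : ∀ (g : Gamma0 N) (z : ℍ), Φ (wz N ((g : SL(2, ℤ)) • z)) =
      (fun g : Gamma0 N => Φ ((g : SL(2, ℤ)) • wz N z)) (τ g) := by
    intro g z
    simp only
    rw [(hτ g z).1]
  have hts : ∀ z : ℍ, ∑' g : Gamma0 N, Φ (wz N ((g : SL(2, ℤ)) • z)) =
      ∑' g : Gamma0 N, Φ ((g : SL(2, ℤ)) • wz N z) := by
    intro z
    simp_rw [hk]
    exact τ.tsum_eq (fun g : Gamma0 N => Φ ((g : SL(2, ℤ)) • wz N z))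
  refine ⟨fun q => ?_, fun q => ?_, ?_⟩
  · filter_upwards [h1 q] with z hz
    simp_rw [hk] at hz
    exact τ.summable_iff.mp hz
  · have := h2 q
    simp_rw [hts] at this
    exact this
  · simp_rw [hts] at h3
    rw [h3, he]

end

theorem unf1 : type_of% @unf1_pr := @unf1_pr

theorem unf2 : type_of% @unf2_pr := @unf2_pr

end Pool.Agent.DIMK
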