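import Pool.Agent.Lib_helper41.DIM.Defs
import Pool.Agent.Lib_helper98.WAF.A1
import Pool.Agent.Lib_helper98.WAF.A2
import Pool.Agent.Lib_helper98.WAF.A4
import Pool.Agent.Lib_helper41.DIMF.UNF
import Pool.Agent.Lib_helper41.DIMF.COS
import Pool.Agent.Lib_helper41.DIMF.POA

/-! block REP -/

namespace Pool.Agent.DIMK

open Complex MeasureTheory Filter Topology UpperHalfPlane ModularGroup CongruenceSubgroup
open scoped MatrixGroups Modular ENNReal ModularForm ComplexConjugate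
open Pool.Agent.LEV (PX pa sg wz S2 G0 co IsFricke Hol)
open Pool.Agent.WA (ch)

section
variable {N : ℕ} [Fact N.Prime]

theorem REP_im (g : SL(2, ℤ)) (u : ℍ) : (g • u : ℍ).im = u.im / ‖LEV.jd g u‖ ^ 2 :=
  Pool.Agent.GL2.RSA_im_smul g u

theorem REP_jd_ne (g : SL(2, ℤ)) (u : ℍ) : LEV.jd g u ≠ 0 :=
  Pool.Agent.GL2.RSA_denom_ne g u

theorem REP_key1 {ε : ℂ} {F : ℍ → ℂ} (hF : F ∈ VV N 13 ε) (w u : ℍ) :
    nf 13 F u * conj (nf 13 (AA N 13 w) u) =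
      ∑' g : Gamma0 N, (nf 13 F ((g : SL(2, ℤ)) • u) *
        conj (nf 13 (kr 13 w) ((g : SL(2, ℤ)) • u))) := by
  have hV : IsV N 13 ε F := hF
  rw [nf, nf, AA, map_mul, Complex.conj_tsum, Complex.conj_ofReal, ← tsum_mul_right,
    ← tsum_mul_left]
  refine tsum_congr fun g => ?_
  rw [nf, nf, hV.slash _ g.2, REP_im]
  have hj := REP_jd_ne (g : SL(2, ℤ)) u
  set J := LEV.jd (g : SL(2, ℤ)) u with hJ
  have hcj : conj J ≠ 0 := by
    rw [Ne, map_eq_zero]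
    exact hj
  have hn : ((‖J‖ ^ 2 : ℝ) : ℂ) = J * conj J := by
    rw [Complex.mul_conj, Complex.normSq_eq_norm_sq]
  have h1 : (((u.im / ‖J‖ ^ 2) ^ 13 : ℝ) : ℂ) = (u.im : ℂ) ^ 13 / (J * conj J) ^ 13 := by
    rw [← hn]
    push_cast
    rw [div_pow]
  rw [h1, map_mul, map_mul, map_inv₀, map_pow, map_div₀, map_pow, map_pow, map_mul,
    Complex.conj_conj, Complex.conj_ofReal]
  push_cast
  field_simp

theorem REP_key2 {ε : ℂ} (hε : ε = 1 ∨ ε = -1) {F : ℍ → ℂ} (hF : F ∈ VV N 13 ε) (w u : ℍ) :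
    nf 13 F u * conj (nf 13 (fun z : ℍ => ε * ((N : ℂ) ^ 13 * (z : ℂ) ^ (2 * 13))⁻¹ *
      AA N 13 w (wz N z)) u) =
      nf 13 F (wz N u) * conj (nf 13 (AA N 13 w) (wz N u)) := by
  have hV : IsV N 13 ε F := hF
  have hce : conj ε = ε := by
    rcases hε with rfl | rfl <;> simp
  have hN : (N : ℂ) ≠ 0 := by exact_mod_cast (Fact.out : N.Prime).ne_zero
  have hu : (u : ℂ) ≠ 0 := u.ne_zero
  have hcu : conj (u : ℂ) ≠ 0 := by
    rw [Ne, map_eq_zero]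
    exact hu
  have hn : ((Complex.normSq (u : ℂ) : ℝ) : ℂ) = (u : ℂ) * conj (u : ℂ) := by
    rw [Complex.mul_conj]
  rw [nf, nf, nf, nf, hV.fricke, wz_im]
  have h1 : (((u.im / (N * Complex.normSq (u : ℂ))) ^ 13 : ℝ) : ℂ) =
      (u.im : ℂ) ^ 13 / ((N : ℂ) * ((u : ℂ) * conj (u : ℂ))) ^ 13 := by
    rw [← hn]
    push_cast
    rw [div_pow]
  rw [h1]
  simp only [map_mul, map_inv₀, map_pow, map_div₀, Complex.conj_conj, Complex.conj_ofReal,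
    Complex.conj_natCast, hce]
  push_cast
  field_simp

theorem REP_int {ε : ℂ} {F : ℍ → ℂ} (hF : F ∈ VV N 13 ε) (w : ℍ) :
    Integrable (fun u : ℍ => nf 13 F u * conj (nf 13 (kr 13 w) u)) ∧
      ∫ u : ℍ, nf 13 F u * conj (nf 13 (kr 13 w) u) =
        ((4 * Real.pi / 25 : ℝ) : ℂ) * nf 13 F w := by
  have hV : IsV N 13 ε F := hF
  obtain ⟨C, hC⟩ := hV.bound
  have hrp : ∀ y : ℝ, 0 < y → y ^ (((26 : ℕ) : ℝ) / 2) = y ^ 13 := by
    intro y _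
    rw [show (((26 : ℕ) : ℝ) / 2) = ((13 : ℕ) : ℝ) by norm_num, Real.rpow_natCast]
  have hb : ∀ z : ℂ, 0 < z.im → ‖F (UpperHalfPlane.ofComplex z)‖ ≤
      C * z.im ^ (-((26 : ℕ) : ℝ) / 2) := by
    intro z hz
    have h1 := hC (UpperHalfPlane.ofComplex z)
    have h2 : (UpperHalfPlane.ofComplex z).im = z.im := by
      rw [UpperHalfPlane.ofComplex_apply_of_im_pos hz]
      rfl
    rw [h2] at h1
    rw [neg_div, Real.rpow_neg hz.le, hrp _ hz, ← div_eq_mul_inv, le_div_iff₀ (pow_pos hz 13)]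
    exact h1
  have hr := Pool.Agent.WA.rep (k := 26) (by norm_num) (F := fun z => F (UpperHalfPlane.ofComplex z))
    hV.holo hb w
  have hp1 : ∀ u : ℍ, Pool.Agent.WA.phf 26 (fun z => F (UpperHalfPlane.ofComplex z)) u =
      nf 13 F u := by
    intro u
    rw [Pool.Agent.WA.phf, nf, hrp _ u.im_pos, UpperHalfPlane.ofComplex_apply]
  have hp2 : ∀ u : ℍ, Pool.Agent.WA.phf 26 (Pool.Agent.WA.ez 26 w) u = nf 13 (kr 13 w) u := by
    intro u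
    rw [Pool.Agent.WA.phf, nf, hrp _ u.im_pos, Pool.Agent.WA.ez, kr, hrp _ w.im_pos]
  simp only [hp1, hp2] at hr
  refine ⟨hr.1, ?_⟩
  rw [hr.2]
  norm_num

theorem rep_ip_pr {ε : ℂ} (hε : ε = 1 ∨ ε = -1) {F : ℍ → ℂ} (hF : F ∈ VV N 13 ε) (w : ℍ) :
    ip N 13 F (PP N 13 ε w) = ((16 * Real.pi / 25 : ℝ) : ℂ) * nf 13 F w := by
  obtain ⟨hi, hI⟩ := REP_int hF w
  obtain ⟨_, hA2, hA3⟩ := unf1 (N := N) _ hi
  obtain ⟨_, hB2, hB3⟩ := unf2 (N := N) _ hi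
  have hsplit : ∀ u : ℍ, nf 13 F u * conj (nf 13 (PP N 13 ε w) u) =
      ∑' g : Gamma0 N, (nf 13 F ((g : SL(2, ℤ)) • u) *
        conj (nf 13 (kr 13 w) ((g : SL(2, ℤ)) • u))) +
      ∑' g : Gamma0 N, (nf 13 F ((g : SL(2, ℤ)) • wz N u) *
        conj (nf 13 (kr 13 w) ((g : SL(2, ℤ)) • wz N u))) := by
    intro u
    rw [← REP_key1 hF w u, ← REP_key1 hF w (wz N u), ← REP_key2 hε hF w u, ← mul_add, ← map_add]
    congr 2
    simp only [nf, PP]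
    ring
  rw [ip]
  have h1 : ∀ q : PX N, ∫ z in 𝒟ᵒ, nf 13 F ((sg q)⁻¹ • z) *
      conj (nf 13 (PP N 13 ε w) ((sg q)⁻¹ • z)) =
      (∫ z in 𝒟ᵒ, ∑' g : Gamma0 N, (nf 13 F ((g : SL(2, ℤ)) • ((sg q)⁻¹ • z)) *
        conj (nf 13 (kr 13 w) ((g : SL(2, ℤ)) • ((sg q)⁻¹ • z))))) +
      ∫ z in 𝒟ᵒ, ∑' g : Gamma0 N, (nf 13 F ((g : SL(2, ℤ)) • wz N ((sg q)⁻¹ • z)) *
        conj (nf 13 (kr 13 w) ((g : SL(2, ℤ)) • wz N ((sg q)⁻¹ • z)))) := by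
    intro q
    rw [← integral_add (hA2 q) (hB2 q)]
    refine integral_congr_ae (Eventually.of_forall fun z => ?_)
    exact hsplit _
  rw [Finset.sum_congr rfl fun q _ => h1 q, Finset.sum_add_distrib, hA3, hB3, hI]
  push_cast
  ring

end

theorem rep_ip : type_of% @rep_ip_pr := @rep_ip_pr

end Pool.Agent.DIMK
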