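import Pool.Agent.Lib_helper41.DIM.Defs
import Pool.Agent.Lib_helper98.WAF.A1
import Pool.Agent.Lib_helper98.WAF.A2
import Pool.Agent.Lib_helper98.WAF.A4
import Pool.Agent.Lib_helper41.DIMF.IPP
import Pool.Agent.Lib_helper41.DIMF.REP
import Pool.Agent.Lib_helper41.DIMF.POB

/-! DIM, block HIL: orthonormal basis and the trace inequality (helper41). -/

namespace Pool.Agent.DIMK

open Complex MeasureTheory Filter Topology UpperHalfPlane ModularGroup CongruenceSubgroup
open scoped MatrixGroups Modular ENNReal ModularForm ComplexConjugate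
open Pool.Agent.LEV (PX pa sg wz S2 G0 co IsFricke Hol)
open Pool.Agent.WA (ch)

/-- an orthonormal basis for a positive definite Hermitian form (linear in the first variable) -/
theorem HIL_onb {V : Type} [AddCommGroup V] [Module ℂ V] [FiniteDimensional ℂ V]
    (B : V → V → ℂ) (hsymm : ∀ x y, conj (B x y) = B y x)
    (hadd : ∀ x y z, B (x + y) z = B x z + B y z)
    (hsmul : ∀ (r : ℂ) x y, B (r • x) y = r * B x y)
    (hpos : ∀ x, x ≠ 0 → 0 < (B x x).re) :
    ∃ e : Fin (Module.finrank ℂ V) → V, (∀ i, B (e i) (e i) = 1) ∧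
      ∀ x, x = ∑ i, B x (e i) • e i := by
  have h00 : ∀ y, B 0 y = 0 := by
    intro y
    have := hsmul 0 0 y
    simpa using this
  let core : InnerProductSpace.Core ℂ V :=
    { inner := fun x y => B y x
      conj_inner_symm := fun x y => hsymm x y
      re_inner_nonneg := by
        intro x
        rcases eq_or_ne x 0 with rfl | hx
        · change 0 ≤ (B 0 0).re
          rw [h00]; simp
        · exact (hpos x hx).le
      add_left := by
        intro x y z
        change B z (x + y) = B z x + B z y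
        rw [← hsymm (x + y) z, hadd, map_add, hsymm, hsymm]
      smul_left := by
        intro x y r
        change B y (r • x) = conj r * B y x
        rw [← hsymm (r • x) y, hsmul, map_mul, hsymm]
      definite := by
        intro x hx
        by_contra hne
        have h1 := hpos x hne
        have h2 : B x x = 0 := hx
        rw [h2] at h1
        simp at h1 }
  let _ : NormedAddCommGroup V := core.toNormedAddCommGroup
  let _ : InnerProductSpace ℂ V := InnerProductSpace.ofCore core.toCore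
  let b := stdOrthonormalBasis ℂ V
  refine ⟨fun i => b i, fun i => ?_, fun x => ?_⟩
  · have h1 : inner ℂ (b i) (b i) = (1 : ℂ) := by
      rw [inner_self_eq_norm_sq_to_K, b.orthonormal.1 i]
      norm_num
    exact h1
  · exact (b.sum_repr' x).symm

section
variable {N : ℕ} [Fact N.Prime]

theorem hil_pr {ε : ℂ} (hε : ε = 1 ∨ ε = -1) (hfd : FiniteDimensional ℂ (VV N 13 ε)) {S : Set ℍ}
    (hS : MeasurableSet S) (hS' : S ⊆ 𝒟ᵒ) :
    (∀ q : PX N, IntegrableOn
      (fun z : ℍ => (nf 13 (PP N 13 ε ((sg q)⁻¹ • z)) ((sg q)⁻¹ • z)).re) S) ∧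
    ∑ q : PX N, ∫ z in S, (nf 13 (PP N 13 ε ((sg q)⁻¹ • z)) ((sg q)⁻¹ • z)).re ≤
      16 * Real.pi / 25 * Module.finrank ℂ (VV N 13 ε) := by
  obtain ⟨e, he1, he2⟩ := HIL_onb (V := VV N 13 ε) (fun F G => ip N 13 F G)
    (fun F G => ip_conj _ _) (fun F G H => ip_add F.2 G.2 H.2) (fun r F G => ip_smul r _ _)
    (fun F hF => ip_pos F.2 (fun h => hF (Subtype.ext h)))
  -- the kernel on the diagonal
  have hker : ∀ w : ℍ, (nf 13 (PP N 13 ε w) w).re =
      16 * Real.pi / 25 * ∑ i, ‖nf 13 (e i : ℍ → ℂ) w‖ ^ 2 := by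
    intro w
    have h1 := he2 ⟨PP N 13 ε w, pp_mem hε w⟩
    have h2 : PP N 13 ε w = ∑ i, ip N 13 (PP N 13 ε w) (e i : ℍ → ℂ) • (e i : ℍ → ℂ) := by
      have h3 := congrArg Subtype.val h1
      simpa using h3
    have h4 : ∀ i, ip N 13 (PP N 13 ε w) (e i : ℍ → ℂ) =
        ((16 * Real.pi / 25 : ℝ) : ℂ) * conj (nf 13 (e i : ℍ → ℂ) w) := by
      intro i
      rw [← ip_conj, rep_ip hε (e i).2, map_mul, Complex.conj_ofReal]
    have h5 : nf 13 (PP N 13 ε w) w =
        ((16 * Real.pi / 25 * ∑ i, ‖nf 13 (e i : ℍ → ℂ) w‖ ^ 2 : ℝ) : ℂ) := by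
      have h6 : nf 13 (PP N 13 ε w) w =
          ∑ i, ip N 13 (PP N 13 ε w) (e i : ℍ → ℂ) * nf 13 (e i : ℍ → ℂ) w := by
        have h7 : PP N 13 ε w w = ∑ i, ip N 13 (PP N 13 ε w) (e i : ℍ → ℂ) * (e i : ℍ → ℂ) w := by
          conv_lhs => rw [h2]
          rw [Finset.sum_apply]
          exact Finset.sum_congr rfl (fun i _ => by rw [Pi.smul_apply, smul_eq_mul])
        unfold nf
        rw [h7, Finset.sum_mul]
        exact Finset.sum_congr rfl (fun i _ => by ring)
      rw [h6]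
      rw [Complex.ofReal_mul, Complex.ofReal_sum, Finset.mul_sum]
      refine Finset.sum_congr rfl (fun i _ => ?_)
      rw [h4 i, mul_assoc, Complex.ofReal_pow, ← Complex.conj_mul']
    rw [h5, Complex.ofReal_re]
  have hint : ∀ (q : PX N) (i : Fin (Module.finrank ℂ (VV N 13 ε))),
      IntegrableOn (fun z : ℍ => ‖nf 13 (e i : ℍ → ℂ) ((sg q)⁻¹ • z)‖ ^ 2) 𝒟ᵒ := by
    intro q i
    have h1 := (ip_int (e i).2 (e i).2 q).re
    refine h1.congr ?_
    filter_upwards with z
    rw [Complex.mul_conj', ← Complex.ofReal_pow]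
    exact Complex.ofReal_re _
  have hSum : ∀ q : PX N, IntegrableOn (fun z : ℍ => 16 * Real.pi / 25 *
      ∑ i, ‖nf 13 (e i : ℍ → ℂ) ((sg q)⁻¹ • z)‖ ^ 2) 𝒟ᵒ := fun q =>
    (integrable_finsetSum _ (fun i _ => hint q i)).const_mul _
  have hfun : ∀ q : PX N, (fun z : ℍ => (nf 13 (PP N 13 ε ((sg q)⁻¹ • z)) ((sg q)⁻¹ • z)).re) =
      (fun z : ℍ => 16 * Real.pi / 25 * ∑ i, ‖nf 13 (e i : ℍ → ℂ) ((sg q)⁻¹ • z)‖ ^ 2) := by
    intro q
    funext z
    exact hker _
  refine ⟨fun q => ?_, ?_⟩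
  · rw [hfun q]
    exact (hSum q).mono_set hS'
  · calc ∑ q : PX N, ∫ z in S, (nf 13 (PP N 13 ε ((sg q)⁻¹ • z)) ((sg q)⁻¹ • z)).re
        ≤ ∑ q : PX N, ∫ z in 𝒟ᵒ, 16 * Real.pi / 25 *
            ∑ i, ‖nf 13 (e i : ℍ → ℂ) ((sg q)⁻¹ • z)‖ ^ 2 := by
          apply Finset.sum_le_sum
          intro q _
          rw [hfun q]
          apply setIntegral_mono_set (hSum q)
          · exact Filter.Eventually.of_forall (fun z => by positivity)
          · exact HasSubset.Subset.eventuallyLE hS'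
      _ = 16 * Real.pi / 25 * ∑ i, ∑ q : PX N, ∫ z in 𝒟ᵒ,
            ‖nf 13 (e i : ℍ → ℂ) ((sg q)⁻¹ • z)‖ ^ 2 := by
          rw [Finset.sum_comm, Finset.mul_sum]
          refine Finset.sum_congr rfl (fun q _ => ?_)
          rw [integral_const_mul, integral_finsetSum _ (fun i _ => hint q i)]
      _ = 16 * Real.pi / 25 * ∑ i : Fin (Module.finrank ℂ (VV N 13 ε)), (1 : ℝ) := by
          congr 1
          refine Finset.sum_congr rfl (fun i _ => ?_)
          have h1 := ip_self (e i).2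
          have h2 : ip N 13 (e i : ℍ → ℂ) (e i : ℍ → ℂ) = 1 := he1 i
          rw [h2] at h1
          exact_mod_cast h1.symm
      _ = 16 * Real.pi / 25 * Module.finrank ℂ (VV N 13 ε) := by
          rw [Finset.sum_const, Finset.card_univ, Fintype.card_fin, nsmul_eq_mul, mul_one]

end

theorem hil : type_of% @hil_pr := @hil_pr

end Pool.Agent.DIMK
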