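import Pool.Agent.Lib_helper41.DIM.Defs
import Pool.Agent.Lib_helper98.WAF.A1
import Pool.Agent.Lib_helper98.WAF.A2
import Pool.Agent.Lib_helper98.WAF.A4
import Pool.Agent.Lib_helper68.LEV.FAM
import Pool.Agent.Lib_helper68.LEV.FRK
import Pool.Agent.Lib_helper68.LEV.QEX

/-! DIM, block LNK: the link with Mathlib cusp forms (helper41). -/

namespace Pool.Agent.DIMK

open Complex MeasureTheory Filter Topology UpperHalfPlane ModularGroup CongruenceSubgroup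
open scoped MatrixGroups Modular ENNReal ModularForm ComplexConjugate Manifold
open Pool.Agent.LEV (PX pa sg wz S2 G0 co IsFricke Hol)
open Pool.Agent.WA (ch)
open Matrix.SpecialLinearGroup (mapGL)

section
variable {N : ℕ} [Fact N.Prime]

theorem LNK_N0 : (N : ℂ) ≠ 0 := by
  exact_mod_cast (Fact.out : N.Prime).ne_zero

theorem LNK_fwd {W : S2 N →ₗ[ℂ] S2 N} (hW : IsFricke W) {ε : ℂ} (f : S2 N)
    (hf : W f = ε • f) : (f : ℍ → ℂ) ∈ VV N 1 ε := by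
  refine ⟨?_, ?_, ?_, ?_⟩
  · have := LEV.fam_hol f OnePoint.infty
    rwa [LEV.fam_inf] at this
  · intro g hg z
    have h1 := LEV.fam_equi f g OnePoint.infty z
    rw [(LEV.pa_inf_iff g).mpr hg, LEV.fam_inf] at h1
    exact h1
  · intro z
    have h1 := hW f z
    rw [hf] at h1
    have h2 : (ε • f : S2 N) z = ε * f z := rfl
    rw [h2] at h1
    have hz : (z : ℂ) ≠ 0 := z.ne_zero
    have hN := LNK_N0 (N := N)
    rw [eq_inv_mul_iff_mul_eq₀ (mul_ne_zero hN (pow_ne_zero 2 hz))] at h1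
    rw [← h1]
    ring
  · obtain ⟨C, hC⟩ := LEV.f_bound f
    refine ⟨C, fun z => ?_⟩
    have h1 := hC OnePoint.infty z
    rw [LEV.fam_inf] at h1
    rw [pow_one]
    exact h1

theorem LNK_slash (F : ℍ → ℂ) (g : SL(2, ℤ)) (z : ℍ) :
    (F ∣[(2 : ℤ)] g) z = F (g • z) * (LEV.jd g z ^ 2)⁻¹ := by
  rw [ModularForm.SL_slash_apply]
  rfl

theorem LNK_bwd {ε : ℂ} {F : ℍ → ℂ} (hF : F ∈ VV N 1 ε) : ∃ f : S2 N, (f : ℍ → ℂ) = F := by
  have hF' : IsV N 1 ε F := hF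
  obtain ⟨C, hC⟩ := hF'.bound
  have hjd : ∀ (g : SL(2, ℤ)) (z : ℍ), LEV.jd g z ≠ 0 := fun g z => GL2.RSA_denom_ne g z
  have him : ∀ (g : SL(2, ℤ)) (z : ℍ), (g • z : ℍ).im = z.im / ‖LEV.jd g z‖ ^ 2 := by
    intro g z
    rw [GL2.RSA_im_smul]
    rfl
  refine ⟨{ toFun := F, slash_action_eq' := ?_, holo' := ?_, zero_at_cusps' := ?_ }, rfl⟩
  · rintro γ hγ
    obtain ⟨g, hg, rfl⟩ := hγ
    have h1 : (F ∣[(2 : ℤ)] g) = F := by
      ext z
      rw [LNK_slash, hF'.slash g hg, mul_comm (LEV.jd g z ^ (2 * 1)), mul_assoc, mul_one,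
        mul_inv_cancel₀ (pow_ne_zero 2 (hjd g z)), mul_one]
    exact h1
  · exact UpperHalfPlane.mdifferentiable_iff.mpr hF'.holo
  · intro c hc
    have hc' : IsCusp c 𝒮ℒ := (Subgroup.IsArithmetic.isCusp_iff_isCusp_SL2Z (G0 N)).mp hc
    rw [OnePoint.isZeroAt_iff_forall_SL2Z hc']
    intro g _
    -- `F ∣ g` is `O(1/y)`
    rw [UpperHalfPlane.isZeroAtImInfty_iff]
    intro e he
    refine ⟨max (C / e) 1, fun z hz => ?_⟩
    have hzim : 0 < z.im := z.im_pos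
    have h1 := hC (g • z)
    have hj : 0 < ‖LEV.jd g z‖ := norm_pos_iff.mpr (hjd g z)
    rw [pow_one, him] at h1
    change ‖(F ∣[(2 : ℤ)] g) z‖ ≤ e
    rw [LNK_slash, norm_mul, norm_inv, norm_pow]
    have h2 : ‖F (g • z)‖ * (‖LEV.jd g z‖ ^ 2)⁻¹ * z.im ≤ C := by
      calc ‖F (g • z)‖ * (‖LEV.jd g z‖ ^ 2)⁻¹ * z.im
          = ‖F (g • z)‖ * (z.im / ‖LEV.jd g z‖ ^ 2) := by
            rw [div_eq_mul_inv]
            ring
        _ ≤ C := h1
    have h3 : C ≤ e * z.im := by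
      have := (le_max_left (C / e) 1).trans hz
      rwa [div_le_iff₀ he, mul_comm] at this
    exact le_of_mul_le_mul_right (h2.trans h3) hzim

theorem lnk_pr {W : S2 N →ₗ[ℂ] S2 N} (hW : IsFricke W) {ε : ℂ} (hε : ε = 1 ∨ ε = -1) :
    Nonempty (LinearMap.ker (W - ε • (1 : S2 N →ₗ[ℂ] S2 N)) ≃ₗ[ℂ] VV N 1 ε) := by
  have hk : ∀ f : S2 N, f ∈ LinearMap.ker (W - ε • (1 : S2 N →ₗ[ℂ] S2 N)) ↔ W f = ε • f := by
    intro f
    rw [LinearMap.mem_ker, LinearMap.sub_apply, LinearMap.smul_apply, Module.End.one_apply,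
      sub_eq_zero]
  let φ : LinearMap.ker (W - ε • (1 : S2 N →ₗ[ℂ] S2 N)) →ₗ[ℂ] VV N 1 ε :=
    { toFun := fun f => ⟨((f : S2 N) : ℍ → ℂ), LNK_fwd hW (f : S2 N) ((hk f).mp f.2)⟩
      map_add' := fun f g => by
        apply Subtype.ext
        rfl
      map_smul' := fun c f => by
        apply Subtype.ext
        rfl }
  refine ⟨LinearEquiv.ofBijective φ ⟨?_, ?_⟩⟩
  · intro f g h
    apply Subtype.ext
    have h1 : ((f : S2 N) : ℍ → ℂ) = ((g : S2 N) : ℍ → ℂ) := congrArg Subtype.val h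
    exact DFunLike.coe_injective h1
  · rintro ⟨F, hF⟩
    obtain ⟨f, rfl⟩ := LNK_bwd hF
    refine ⟨⟨f, (hk f).mpr ?_⟩, rfl⟩
    have hF' : IsV N 1 ε f := hF
    apply DFunLike.ext
    intro z
    rw [hW f z, hF'.fricke z]
    have h2 : (ε • f : S2 N) z = ε * f z := rfl
    rw [h2]
    have hz : (z : ℂ) ≠ 0 := z.ne_zero
    have hN := LNK_N0 (N := N)
    field_simp
    ring

end

theorem lnk : type_of% @lnk_pr := @lnk_pr

end Pool.Agent.DIMK
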