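import Pool.Agent.Lib_helper41.DIM.Defs
import Pool.Agent.Lib_helper98.WAF.A1
import Pool.Agent.Lib_helper98.WAF.A2
import Pool.Agent.Lib_helper98.WAF.A4
import Pool.Agent.Lib_helper68.LEV.FAM

namespace Pool.Agent.DIMK

open Complex MeasureTheory Filter Topology UpperHalfPlane ModularGroup CongruenceSubgroup
open scoped MatrixGroups Modular ENNReal ModularForm ComplexConjugate
open Pool.Agent.LEV (PX pa sg wz S2 G0 co IsFricke Hol)
open Pool.Agent.WA (ch)

section
variable {N : ℕ} [Fact N.Prime]

theorem fix_some (g : SL(2, ℤ)) (x : ZMod N) (h : pa g (some x : PX N) = some x) :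
    ((g 0 0 : ℤ) : ZMod N) * x + ((g 0 1 : ℤ) : ZMod N) =
      x * (((g 1 0 : ℤ) : ZMod N) * x + ((g 1 1 : ℤ) : ZMod N)) := by
  have h1 := (LEV.pa_some g x).symm.trans h
  generalize ((g 0 0 : ℤ) : ZMod N) = a at *
  generalize ((g 0 1 : ℤ) : ZMod N) = b at *
  generalize ((g 1 0 : ℤ) : ZMod N) = c at *
  generalize ((g 1 1 : ℤ) : ZMod N) = d at *
  by_cases h2 : c * x + d = 0
  · have h3 : (OnePoint.infty : PX N) = some x := (if_pos h2).symm.trans h1
    exact absurd h3 (OnePoint.infty_ne_coe x)
  · have h4 : (some ((a * x + b) / (c * x + d)) : PX N) = some x := (if_neg h2).symm.trans h1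
    have h3 := Option.some.inj h4
    rwa [div_eq_iff h2] at h3

theorem fix_inf (g : SL(2, ℤ)) (h : pa g (OnePoint.infty : PX N) = OnePoint.infty) :
    ((g 1 0 : ℤ) : ZMod N) = 0 := by
  have h1 := (LEV.pa_inf g).symm.trans h
  generalize ((g 0 0 : ℤ) : ZMod N) = a at *
  generalize ((g 1 0 : ℤ) : ZMod N) = c at *
  by_contra h2
  have h3 : (some (a / c) : PX N) = OnePoint.infty := (if_neg h2).symm.trans h1
  exact absurd h3.symm (OnePoint.infty_ne_coe _)

theorem fix_le_pr (g : SL(2, ℤ)) (h : ¬ ((N : ℤ) ∣ g 0 1 ∧ (N : ℤ) ∣ g 1 0 ∧ (N : ℤ) ∣ g 0 0 - g 1 1)) :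
    {q : PX N | pa g q = q}.ncard ≤ 2 := by
  have h' : ¬ (((g 0 1 : ℤ) : ZMod N) = 0 ∧ ((g 1 0 : ℤ) : ZMod N) = 0 ∧
      ((g 0 0 : ℤ) : ZMod N) - ((g 1 1 : ℤ) : ZMod N) = 0) := by
    rintro ⟨h1, h2, h3⟩
    refine h ⟨(ZMod.intCast_zmod_eq_zero_iff_dvd _ _).mp h1,
      (ZMod.intCast_zmod_eq_zero_iff_dvd _ _).mp h2,
      (ZMod.intCast_zmod_eq_zero_iff_dvd _ _).mp ?_⟩
    push_cast
    exact h3
  have hs := fix_some (N := N) g
  have hi := fix_inf (N := N) g
  clear h
  have hsub : ∃ u v : PX N, {q : PX N | pa g q = q} ⊆ {u, v} := by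
    generalize ((g 0 0 : ℤ) : ZMod N) = a at *
    generalize ((g 0 1 : ℤ) : ZMod N) = b at *
    generalize ((g 1 0 : ℤ) : ZMod N) = c at *
    generalize ((g 1 1 : ℤ) : ZMod N) = d at *
    by_cases hc : c = 0
    · refine ⟨OnePoint.infty, ((b / (d - a) : ZMod N) : PX N), ?_⟩
      intro q hq
      induction q using OnePoint.rec with
      | infty => left; rfl
      | coe x =>
        right
        have h3 := hs x hq
        rw [hc, zero_mul, zero_add] at h3
        have h4 : d - a ≠ 0 := by
          intro h5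
          apply h'
          refine ⟨?_, hc, ?_⟩
          · linear_combination h3 + x * h5
          · linear_combination -h5
        have h6 : x = b / (d - a) := by
          rw [eq_div_iff h4]
          linear_combination -h3
        exact congrArg _ h6
    · by_cases he : ∃ x0 : ZMod N, pa g (x0 : PX N) = x0
      · obtain ⟨x0, h0⟩ := he
        refine ⟨(x0 : PX N), (((a - d) / c - x0 : ZMod N) : PX N), ?_⟩
        intro q hq
        induction q using OnePoint.rec with
        | infty => exact absurd (hi hq) hc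
        | coe x =>
          have h3 := hs x hq
          have h3' := hs x0 h0
          by_cases hx : x = x0
          · left; rw [hx]
          · right
            have h6 : x = (a - d) / c - x0 := by
              rw [eq_sub_iff_add_eq, eq_div_iff hc]
              have h4 : x - x0 ≠ 0 := sub_ne_zero.mpr hx
              apply mul_left_cancel₀ h4
              linear_combination h3' - h3
            exact congrArg _ h6
      · refine ⟨OnePoint.infty, OnePoint.infty, ?_⟩
        intro q hq
        induction q using OnePoint.rec with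
        | infty => left; rfl
        | coe x => exact absurd ⟨x, hq⟩ he
  obtain ⟨u, v, huv⟩ := hsub
  refine (Set.ncard_le_ncard huv (Set.toFinite _)).trans ?_
  refine (Set.ncard_insert_le _ _).trans ?_
  rw [Set.ncard_singleton]

end

theorem fix_le : type_of% @fix_le_pr := @fix_le_pr

end Pool.Agent.DIMK
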