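import Pool.Agent.Lib_helper41.DIM.Defs
import Pool.Agent.Lib_helper98.WAF.A1
import Pool.Agent.Lib_helper98.WAF.A2
import Pool.Agent.Lib_helper98.WAF.A4
import Pool.Agent.Lib_helper68.LEV.FAM
import Pool.Agent.Lib_helper41.DIMF.FIX
import Pool.Agent.Lib_helper41.DIMF.LAT
import Pool.Agent.Lib_helper41.DIMF.COS

/-! DIM block OFA: the off-diagonal elements of the group -/

namespace Pool.Agent.DIMK

open Complex MeasureTheory Filter Topology UpperHalfPlane ModularGroup CongruenceSubgroup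
open scoped MatrixGroups Modular ENNReal ModularForm ComplexConjugate
open Pool.Agent.LEV (PX pa sg wz S2 G0 co IsFricke Hol)
open Pool.Agent.WA (ch)

theorem ofa_ch (g : SL(2, ℤ)) (z : ℍ) : ch (g • z) z = qq (g 0 0) (g 0 1) (g 1 0) (g 1 1) z := by
  unfold ch qq
  rw [GL2.RSA_coe_smul, GL2.RSA_im_smul]
  have hden := GL2.RSA_denom_ne g z
  have hn : ‖((g 1 0 : ℤ) : ℂ) * (z : ℂ) + ((g 1 1 : ℤ) : ℂ)‖ ≠ 0 := norm_ne_zero_iff.2 hden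
  have e1 : (((g 0 0 : ℤ) : ℂ) * (z : ℂ) + ((g 0 1 : ℤ) : ℂ)) /
      (((g 1 0 : ℤ) : ℂ) * (z : ℂ) + ((g 1 1 : ℤ) : ℂ)) - conj (z : ℂ) =
      (((g 0 0 : ℤ) : ℂ) * (z : ℂ) + ((g 0 1 : ℤ) : ℂ) -
        conj (z : ℂ) * (((g 1 0 : ℤ) : ℂ) * (z : ℂ) + ((g 1 1 : ℤ) : ℂ))) /
      (((g 1 0 : ℤ) : ℂ) * (z : ℂ) + ((g 1 1 : ℤ) : ℂ)) := by
    rw [eq_div_iff hden, sub_mul, div_mul_cancel₀ _ hden]
  rw [e1, norm_div, div_pow]
  have := z.im_pos.ne'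
  obtain ⟨D, hD⟩ : ∃ D : ℝ, D = ‖((g 1 0 : ℤ) : ℂ) * (z : ℂ) + ((g 1 1 : ℤ) : ℂ)‖ := ⟨_, rfl⟩
  rw [← hD] at hn ⊢
  field_simp

/-- the squared norm of the matrix -/
noncomputable def ofa_n (g : SL(2, ℤ)) : ℝ := ((g 0 0 : ℤ) : ℝ) ^ 2 + ((g 0 1 : ℤ) : ℝ) ^ 2 +
  ((g 1 0 : ℤ) : ℝ) ^ 2 + ((g 1 1 : ℤ) : ℝ) ^ 2

theorem ofa_det (g : SL(2, ℤ)) : (g 0 0 : ℤ) * g 1 1 - g 0 1 * g 1 0 = 1 := by
  have := g.det_coe
  rwa [Matrix.det_fin_two] at this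

theorem ofa_n_ge (g : SL(2, ℤ)) : 1 ≤ ofa_n g := by
  have h : (1 : ℤ) ≤ (g 0 0) ^ 2 + (g 0 1) ^ 2 + (g 1 0) ^ 2 + (g 1 1) ^ 2 := by
    have h1 := ofa_det g
    nlinarith [sq_nonneg (g 0 0 - g 1 1), sq_nonneg (g 0 1 + g 1 0)]
  unfold ofa_n
  exact_mod_cast h

theorem ofa_scalar (g : SL(2, ℤ)) (h1 : g ≠ 1) (h2 : g ≠ -1) : g 0 1 ≠ 0 ∨ g 1 0 ≠ 0 := by
  by_contra hcon
  rw [not_or, not_not, not_not] at hcon
  obtain ⟨hb, hc⟩ := hcon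
  have hdet := ofa_det g
  rw [hb, hc] at hdet
  have h3 : (g 0 0 : ℤ) * g 1 1 = 1 := by linarith
  rcases Int.eq_one_or_neg_one_of_mul_eq_one' h3 with ⟨ha, hd⟩ | ⟨ha, hd⟩
  · apply h1
    ext i j
    fin_cases i <;> fin_cases j
    · exact ha
    · exact hb
    · exact hc
    · exact hd
  · apply h2
    ext i j
    fin_cases i <;> fin_cases j
    · exact ha
    · show g 0 1 = (-1 : SL(2, ℤ)) 0 1
      rw [hb]
      rfl
    · show g 1 0 = (-1 : SL(2, ℤ)) 1 0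
      rw [hc]
      rfl
    · exact hd

theorem ofa_fix {N : ℕ} [Fact N.Prime] (g : SL(2, ℤ)) (h1 : g ≠ 1) (h2 : g ≠ -1) :
    (({q : PX N | pa g q = q}.ncard : ℕ) : ℝ) ≤ 2 * ofa_n g := by
  have hn := ofa_n_ge g
  by_cases h : (N : ℤ) ∣ g 0 1 ∧ (N : ℤ) ∣ g 1 0 ∧ (N : ℤ) ∣ g 0 0 - g 1 1
  · have hcard : {q : PX N | pa g q = q}.ncard ≤ N + 1 := by
      have h3 := Set.ncard_le_ncard (Set.subset_univ {q : PX N | pa g q = q}) (Set.toFinite _)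
      rw [Set.ncard_univ, Nat.card_eq_fintype_card, LEV.card_PX] at h3
      exact h3
    have hNpos : 1 ≤ N := (Fact.out : N.Prime).one_lt.le
    have hsq : ((N : ℝ)) ^ 2 ≤ ofa_n g := by
      have key : ∀ x : ℤ, (N : ℤ) ∣ x → x ≠ 0 → ((N : ℝ)) ^ 2 ≤ (x : ℝ) ^ 2 := by
        intro x hx hx0
        have h4 : (N : ℤ) ≤ |x| := Int.le_of_dvd (abs_pos.2 hx0) ((dvd_abs _ _).2 hx)
        have h5 : (N : ℝ) ≤ |(x : ℝ)| := by exact_mod_cast h4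
        have h6 := pow_le_pow_left₀ (Nat.cast_nonneg N) h5 2
        rwa [sq_abs] at h6
      unfold ofa_n
      rcases ofa_scalar g h1 h2 with h3 | h3
      · have := key _ h.1 h3
        have k1 := sq_nonneg ((g 0 0 : ℤ) : ℝ)
        have k3 := sq_nonneg ((g 1 0 : ℤ) : ℝ)
        have k4 := sq_nonneg ((g 1 1 : ℤ) : ℝ)
        linarith
      · have := key _ h.2.1 h3
        have k1 := sq_nonneg ((g 0 0 : ℤ) : ℝ)
        have k3 := sq_nonneg ((g 0 1 : ℤ) : ℝ)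
        have k4 := sq_nonneg ((g 1 1 : ℤ) : ℝ)
        linarith
    have h7 : (1 : ℝ) ≤ N := by exact_mod_cast hNpos
    have h8 : (({q : PX N | pa g q = q}.ncard : ℕ) : ℝ) ≤ N + 1 := by exact_mod_cast hcard
    nlinarith
  · have h3 := fix_le (N := N) g h
    have h4 : (({q : PX N | pa g q = q}.ncard : ℕ) : ℝ) ≤ 2 := by exact_mod_cast h3
    linarith

theorem ofa_term {κ : ℝ} (hκ : 0 < κ) {n t : ℝ} (hn : 1 ≤ n) (ht : κ * n ≤ t) :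
    2 * n * t ^ (-(13 : ℝ)) ≤ (2 * κ ^ (-(13 : ℝ)) * 2 ^ (12 : ℝ)) * (1 + n) ^ (-(4 : ℝ)) := by
  have hn0 : 0 < n := by linarith
  have h1 : t ^ (-(13 : ℝ)) ≤ (κ * n) ^ (-(13 : ℝ)) :=
    Real.rpow_le_rpow_of_nonpos (by positivity) ht (by norm_num)
  rw [Real.mul_rpow hκ.le hn0.le] at h1
  have h2 : n * n ^ (-(13 : ℝ)) = n ^ (-(12 : ℝ)) := by
    rw [← Real.rpow_one_add' hn0.le (by norm_num)]
    norm_num
  have h3 : n ^ (-(12 : ℝ)) ≤ ((1 + n) / 2) ^ (-(12 : ℝ)) :=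
    Real.rpow_le_rpow_of_nonpos (by positivity) (by linarith) (by norm_num)
  rw [Real.div_rpow (by linarith) (by norm_num), Real.rpow_neg (by norm_num : (0 : ℝ) ≤ 2),
    div_inv_eq_mul] at h3
  have h4 : (1 + n) ^ (-(12 : ℝ)) ≤ (1 + n) ^ (-(4 : ℝ)) :=
    Real.rpow_le_rpow_of_exponent_le (by linarith) (by norm_num)
  have hk : 0 < κ ^ (-(13 : ℝ)) := Real.rpow_pos_of_pos hκ _
  calc 2 * n * t ^ (-(13 : ℝ)) ≤ 2 * n * (κ ^ (-(13 : ℝ)) * n ^ (-(13 : ℝ))) := by gcongr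
    _ = 2 * κ ^ (-(13 : ℝ)) * (n * n ^ (-(13 : ℝ))) := by ring
    _ = 2 * κ ^ (-(13 : ℝ)) * n ^ (-(12 : ℝ)) := by rw [h2]
    _ ≤ 2 * κ ^ (-(13 : ℝ)) * ((1 + n) ^ (-(12 : ℝ)) * 2 ^ (12 : ℝ)) := by gcongr
    _ ≤ 2 * κ ^ (-(13 : ℝ)) * ((1 + n) ^ (-(4 : ℝ)) * 2 ^ (12 : ℝ)) := by gcongr
    _ = _ := by ring

theorem off1_le_pr (Y : ℝ) : ∃ C : ℝ, ∀ (N : ℕ) [Fact N.Prime] (z : ℍ), z ∈ 𝒟 → z.im ≤ Y →
    ∑ q : PX N, off1 N ((sg q)⁻¹ • z) ≤ ENNReal.ofReal C := by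
  classical
  obtain ⟨κ, hκ, hlow⟩ := lat_low Y
  set K : ℝ := 2 * κ ^ (-(13 : ℝ)) * 2 ^ (12 : ℝ) with hK
  have hK0 : 0 ≤ K := by positivity
  set s0 : ℝ≥0∞ := ∑' g : SL(2, ℤ), ENNReal.ofReal
    ((1 + ((g 0 0 : ℤ) : ℝ) ^ 2 + ((g 0 1 : ℤ) : ℝ) ^ 2 + ((g 1 0 : ℤ) : ℝ) ^ 2 +
      ((g 1 1 : ℤ) : ℝ) ^ 2) ^ (-(4 : ℝ))) with hs0
  have hfin : s0 < ⊤ := WA.A4_sumSL
  refine ⟨(ENNReal.ofReal K * s0).toReal, fun N _ z hz hzY => ?_⟩
  rw [ENNReal.ofReal_toReal (ENNReal.mul_lt_top ENNReal.ofReal_lt_top hfin).ne]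
  set F : SL(2, ℤ) → ℝ≥0∞ := fun h => ENNReal.ofReal (ch (h • z) z ^ (-(13 : ℝ))) with hF
  have hq : ∀ q : PX N, off1 N ((sg q)⁻¹ • z) ≤
      ∑' h : SL(2, ℤ), if h ≠ 1 ∧ h ≠ -1 ∧ pa h q = q then F h else 0 := by
    intro q
    unfold off1
    set emb : {g : Gamma0 N // (g : SL(2, ℤ)) ≠ 1 ∧ (g : SL(2, ℤ)) ≠ -1} → SL(2, ℤ) :=
      fun g => sg q * ((g : Gamma0 N) : SL(2, ℤ)) * (sg q)⁻¹ with hemb
    have hinj : Function.Injective emb := by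
      intro g g' hgg
      have h1 : ((g : Gamma0 N) : SL(2, ℤ)) = ((g' : Gamma0 N) : SL(2, ℤ)) := by
        have h2 : sg q * ((g : Gamma0 N) : SL(2, ℤ)) * (sg q)⁻¹ =
          sg q * ((g' : Gamma0 N) : SL(2, ℤ)) * (sg q)⁻¹ := hgg
        exact mul_left_cancel (mul_right_cancel h2)
      exact Subtype.ext (Subtype.ext h1)
    refine le_trans (le_of_eq ?_) (ENNReal.tsum_comp_le_tsum_of_injective hinj
      (fun h => if h ≠ 1 ∧ h ≠ -1 ∧ pa h q = q then F h else 0))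
    refine tsum_congr fun g => ?_
    have hg1 : emb g ≠ 1 := by
      intro h
      apply g.2.1
      have h2 : sg q * ((g : Gamma0 N) : SL(2, ℤ)) * (sg q)⁻¹ = 1 := h
      rw [mul_inv_eq_one, mul_eq_left] at h2
      exact h2
    have hg2 : emb g ≠ -1 := by
      intro h
      apply g.2.2
      have h2 : sg q * ((g : Gamma0 N) : SL(2, ℤ)) * (sg q)⁻¹ = -1 := h
      have key : ∀ x y : SL(2, ℤ), y * x * y⁻¹ = -1 → x = -1 := by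
        intro x y hxy
        have h3 : x = y⁻¹ * (y * x * y⁻¹) * y := by group
        rw [h3, hxy, mul_neg, mul_one, neg_mul, inv_mul_cancel]
      exact key _ _ h2
    have hg3 : pa (emb g) q = q := by
      show pa (sg q * ((g : Gamma0 N) : SL(2, ℤ)) * (sg q)⁻¹) q = q
      have h4 : pa (N := N) (sg q)⁻¹ q = OnePoint.infty := by
        conv_lhs => rw [← LEV.pa_sg q]
        rw [← LEV.pa_mul]
        have : (sg (pa (N := N) (sg q) OnePoint.infty))⁻¹ * sg q = 1 := by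
          rw [LEV.pa_sg, inv_mul_cancel]
        rw [this, LEV.pa_one]
      rw [LEV.pa_mul, LEV.pa_mul, h4, (LEV.pa_inf_iff _).2 (g : Gamma0 N).2, LEV.pa_sg]
    rw [if_pos ⟨hg1, hg2, hg3⟩, hF]
    show ENNReal.ofReal (ch (((g : Gamma0 N) : SL(2, ℤ)) • (sg q)⁻¹ • z) ((sg q)⁻¹ • z) ^
      (-(13 : ℝ))) = ENNReal.ofReal (ch ((sg q * ((g : Gamma0 N) : SL(2, ℤ)) * (sg q)⁻¹) • z) z ^
      (-(13 : ℝ)))
    congr 2
    rw [← WA.ch_smul (sg q) _ ((sg q)⁻¹ • z), smul_inv_smul, mul_smul, mul_smul]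
  refine (Finset.sum_le_sum fun q _ => hq q).trans ?_
  rw [← Summable.tsum_finsetSum (fun q _ => ENNReal.summable), hs0, ← ENNReal.tsum_mul_left]
  refine ENNReal.tsum_le_tsum fun h => ?_
  by_cases hh : h ≠ 1 ∧ h ≠ -1
  · have e1 : ∑ q : PX N, (if h ≠ 1 ∧ h ≠ -1 ∧ pa h q = q then F h else 0) =
        (({q : PX N | pa h q = q}.ncard : ℕ) : ℝ≥0∞) * F h := by
      have e2 : ∀ q : PX N, (if h ≠ 1 ∧ h ≠ -1 ∧ pa h q = q then F h else 0) =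
          if pa h q = q then F h else 0 := by
        intro q
        by_cases hq : pa h q = q
        · rw [if_pos ⟨hh.1, hh.2, hq⟩, if_pos hq]
        · rw [if_neg (fun hc => hq hc.2.2), if_neg hq]
      rw [Finset.sum_congr rfl fun q _ => e2 q, ← Finset.sum_filter, Finset.sum_const,
        nsmul_eq_mul]
      congr 2
      rw [Set.ncard_eq_toFinset_card', Set.toFinset_ofPred]
    rw [e1]
    have hfx := ofa_fix (N := N) h hh.1 hh.2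
    have hn := ofa_n_ge h
    have hdet := ofa_det h
    have ht := (hlow z hz hzY (h 0 0) (h 0 1) (h 1 0) (h 1 1) (by rw [hdet]; norm_num)).1
    rw [← ofa_ch] at ht
    have hterm := ofa_term hκ hn (t := ch (h • z) z) ht
    have hch : 0 < ch (h • z) z := lt_of_lt_of_le one_pos (WA.one_le_ch _ _)
    have e3 : (({q : PX N | pa h q = q}.ncard : ℕ) : ℝ≥0∞) =
        ENNReal.ofReal (({q : PX N | pa h q = q}.ncard : ℕ) : ℝ) := by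
      rw [ENNReal.ofReal_natCast]
    rw [e3, hF, ← ENNReal.ofReal_mul (Nat.cast_nonneg _), ← ENNReal.ofReal_mul hK0]
    apply ENNReal.ofReal_le_ofReal
    have e4 : 1 + ((h 0 0 : ℤ) : ℝ) ^ 2 + ((h 0 1 : ℤ) : ℝ) ^ 2 + ((h 1 0 : ℤ) : ℝ) ^ 2 +
      ((h 1 1 : ℤ) : ℝ) ^ 2 = 1 + ofa_n h := by
      unfold ofa_n
      ring
    rw [e4]
    refine le_trans ?_ hterm
    have : 0 < ch (h • z) z ^ (-(13 : ℝ)) := Real.rpow_pos_of_pos hch _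
    gcongr
  · have e1 : ∑ q : PX N, (if h ≠ 1 ∧ h ≠ -1 ∧ pa h q = q then F h else 0) = 0 := by
      apply Finset.sum_eq_zero
      intro q _
      rw [if_neg (fun hc => hh ⟨hc.1, hc.2.1⟩)]
    rw [e1]
    exact zero_le

theorem off1_le : type_of% @off1_le_pr := @off1_le_pr

end Pool.Agent.DIMK
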