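import Pool.Agent.Lib_helper41.DIM.Defs
import Pool.Agent.Lib_helper68.SEL.KA
import Pool.Agent.Lib_helper98.WAF.A1
import Pool.Agent.Lib_helper98.WAF.A2
import Pool.Agent.Lib_helper98.WAF.A4

/-! # DIM, block CNT: counting integral matrices (imports the divisor bound of SEL.KA) -/

namespace Pool.Agent.DIMK

open Complex MeasureTheory Filter Topology UpperHalfPlane ModularGroup CongruenceSubgroup
open scoped MatrixGroups Modular ENNReal ModularForm ComplexConjugate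

theorem cnt_rpow {x : ℝ} (hx : 1 ≤ x) : x ^ (-(13 : ℝ)) = (x ^ 13)⁻¹ := by
  rw [Real.rpow_neg (by linarith), show (13 : ℝ) = ((13 : ℕ) : ℝ) by norm_num, Real.rpow_natCast]

/-- the terms of nonzero trace -/
theorem cnt_big {κ : ℝ} (hκ : 0 < κ) {N : ℕ} (hN : 1 ≤ N) (a b c d : ℤ) (ht : (N : ℤ) ∣ a + d)
    (h0 : a + d ≠ 0) :
    (max 1 (κ * ((a : ℝ) ^ 2 + (b : ℝ) ^ 2 + (c : ℝ) ^ 2 + (d : ℝ) ^ 2) / N)) ^ (-(13 : ℝ)) ≤
      256 / κ ^ 8 * (1 / (1 + (a : ℝ) ^ 2) * (1 / (1 + (b : ℝ) ^ 2)) *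
        (1 / (1 + (c : ℝ) ^ 2)) * (1 / (1 + (d : ℝ) ^ 2))) := by
  have hN0 : (0 : ℝ) < N := by exact_mod_cast (by omega : 0 < N)
  set Q : ℝ := (a : ℝ) ^ 2 + (b : ℝ) ^ 2 + (c : ℝ) ^ 2 + (d : ℝ) ^ 2 with hQ
  have h1 : (N : ℝ) ≤ |(a : ℝ) + d| := by
    have h := Int.le_of_dvd (abs_pos.2 h0) ((dvd_abs _ _).2 ht)
    have h' : ((N : ℤ) : ℝ) ≤ ((|a + d| : ℤ) : ℝ) := by exact_mod_cast h
    push_cast at h'
    exact h'
  have h2 : (N : ℝ) ^ 2 ≤ 2 * Q := by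
    have h3 : (N : ℝ) ^ 2 ≤ |(a : ℝ) + d| ^ 2 := pow_le_pow_left₀ hN0.le h1 2
    rw [sq_abs] at h3
    nlinarith [sq_nonneg ((a : ℝ) - d), sq_nonneg (b : ℝ), sq_nonneg (c : ℝ)]
  have hQ1 : 1 ≤ Q := by
    have h4 : (0 : ℝ) < Q := by nlinarith
    have h5 : ((a ^ 2 + b ^ 2 + c ^ 2 + d ^ 2 : ℤ) : ℝ) = Q := by push_cast; rfl
    have h6 : (0 : ℤ) < a ^ 2 + b ^ 2 + c ^ 2 + d ^ 2 := by
      rw [← h5] at h4
      exact_mod_cast h4
    have h7 : ((1 : ℤ) : ℝ) ≤ ((a ^ 2 + b ^ 2 + c ^ 2 + d ^ 2 : ℤ) : ℝ) := by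
      exact_mod_cast h6
    rw [h5] at h7
    simpa using h7
  have hQ0 : 0 < Q := by linarith
  set x : ℝ := κ * Q / N with hx
  have hx0 : 0 < x := by positivity
  rw [cnt_rpow (le_max_left _ _)]
  have hm1 : 1 ≤ max 1 x := le_max_left _ _
  have h8 : (max 1 x) ^ 8 ≤ (max 1 x) ^ 13 := pow_le_pow_right₀ hm1 (by norm_num)
  have h9 : x ^ 8 ≤ (max 1 x) ^ 8 := pow_le_pow_left₀ hx0.le (le_max_right _ _) 8
  have h10 : ((max 1 x) ^ 13)⁻¹ ≤ (x ^ 8)⁻¹ := inv_anti₀ (by positivity) (h9.trans h8)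
  refine h10.trans ?_
  have h11 : (x ^ 8)⁻¹ = (N : ℝ) ^ 8 / (κ ^ 8 * Q ^ 8) := by
    rw [hx, div_pow, mul_pow, inv_div]
  have h12 : (N : ℝ) ^ 8 ≤ 16 * Q ^ 4 := by
    have : ((N : ℝ) ^ 2) ^ 4 ≤ (2 * Q) ^ 4 := pow_le_pow_left₀ (by positivity) h2 4
    nlinarith
  have h13 : (1 + (a : ℝ) ^ 2) * (1 + (b : ℝ) ^ 2) * (1 + (c : ℝ) ^ 2) * (1 + (d : ℝ) ^ 2) ≤
      16 * Q ^ 4 := by
    have e1 : 1 + (a : ℝ) ^ 2 ≤ 2 * Q := by
      nlinarith [sq_nonneg (b : ℝ), sq_nonneg (c : ℝ), sq_nonneg (d : ℝ)]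
    have e2 : 1 + (b : ℝ) ^ 2 ≤ 2 * Q := by
      nlinarith [sq_nonneg (a : ℝ), sq_nonneg (c : ℝ), sq_nonneg (d : ℝ)]
    have e3 : 1 + (c : ℝ) ^ 2 ≤ 2 * Q := by
      nlinarith [sq_nonneg (b : ℝ), sq_nonneg (a : ℝ), sq_nonneg (d : ℝ)]
    have e4 : 1 + (d : ℝ) ^ 2 ≤ 2 * Q := by
      nlinarith [sq_nonneg (b : ℝ), sq_nonneg (c : ℝ), sq_nonneg (a : ℝ)]
    calc (1 + (a : ℝ) ^ 2) * (1 + (b : ℝ) ^ 2) * (1 + (c : ℝ) ^ 2) * (1 + (d : ℝ) ^ 2)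
        ≤ (2 * Q) * (2 * Q) * (2 * Q) * (2 * Q) := by gcongr
      _ = 16 * Q ^ 4 := by ring
  have hP : 0 < (1 + (a : ℝ) ^ 2) * (1 + (b : ℝ) ^ 2) * (1 + (c : ℝ) ^ 2) * (1 + (d : ℝ) ^ 2) := by
    positivity
  have h14 : 1 / (1 + (a : ℝ) ^ 2) * (1 / (1 + (b : ℝ) ^ 2)) *
        (1 / (1 + (c : ℝ) ^ 2)) * (1 / (1 + (d : ℝ) ^ 2)) =
      1 / ((1 + (a : ℝ) ^ 2) * (1 + (b : ℝ) ^ 2) * (1 + (c : ℝ) ^ 2) * (1 + (d : ℝ) ^ 2)) := by
    field_simp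
  rw [h11, h14]
  have h15 : 1 / (16 * Q ^ 4) ≤
      1 / ((1 + (a : ℝ) ^ 2) * (1 + (b : ℝ) ^ 2) * (1 + (c : ℝ) ^ 2) * (1 + (d : ℝ) ^ 2)) :=
    one_div_le_one_div_of_le hP h13
  calc (N : ℝ) ^ 8 / (κ ^ 8 * Q ^ 8) ≤ 16 * Q ^ 4 / (κ ^ 8 * Q ^ 8) :=
        div_le_div_of_nonneg_right h12 (by positivity)
    _ = 256 / κ ^ 8 * (1 / (16 * Q ^ 4)) := by
        field_simp
        norm_num
    _ ≤ _ := mul_le_mul_of_nonneg_left h15 (by positivity)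

/-- the sum over all of `ℤ⁴` -/
theorem cnt_sum4 : ∃ C : ℝ, 0 ≤ C ∧ ∑' v : ℤ × ℤ × ℤ × ℤ, ENNReal.ofReal
      (1 / (1 + (v.1 : ℝ) ^ 2) * (1 / (1 + (v.2.1 : ℝ) ^ 2)) *
        (1 / (1 + (v.2.2.1 : ℝ) ^ 2)) * (1 / (1 + (v.2.2.2 : ℝ) ^ 2))) ≤ ENNReal.ofReal C := by
  have hs := Pool.Agent.WA.A4_sumZ
  set S : ℝ := ∑' a : ℤ, 1 / (1 + (a : ℝ) ^ 2) with hS
  have hS0 : 0 ≤ S := tsum_nonneg fun a => by positivity
  have hE : ∑' a : ℤ, ENNReal.ofReal (1 / (1 + (a : ℝ) ^ 2)) = ENNReal.ofReal S :=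
    (ENNReal.ofReal_tsum_of_nonneg (fun a => by positivity) hs).symm
  refine ⟨S * (S * (S * S)), by positivity, ?_⟩
  have h1 : ∀ v : ℤ × ℤ × ℤ × ℤ, ENNReal.ofReal
      (1 / (1 + (v.1 : ℝ) ^ 2) * (1 / (1 + (v.2.1 : ℝ) ^ 2)) *
        (1 / (1 + (v.2.2.1 : ℝ) ^ 2)) * (1 / (1 + (v.2.2.2 : ℝ) ^ 2))) =
      ENNReal.ofReal (1 / (1 + (v.1 : ℝ) ^ 2)) * (ENNReal.ofReal (1 / (1 + (v.2.1 : ℝ) ^ 2)) *
        (ENNReal.ofReal (1 / (1 + (v.2.2.1 : ℝ) ^ 2)) *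
          ENNReal.ofReal (1 / (1 + (v.2.2.2 : ℝ) ^ 2)))) := by
    intro v
    rw [← ENNReal.ofReal_mul (by positivity), ← ENNReal.ofReal_mul (by positivity),
      ← ENNReal.ofReal_mul (by positivity)]
    congr 1
    ring
  simp_rw [h1]
  rw [ENNReal.tsum_prod']
  simp_rw [ENNReal.tsum_prod', ENNReal.tsum_mul_left, ENNReal.tsum_mul_right]
  simp_rw [hE]
  rw [← ENNReal.ofReal_mul hS0, ← ENNReal.ofReal_mul hS0, ← ENNReal.ofReal_mul hS0]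

/-- one dimensional sum -/
theorem cnt_sum1 : ∃ C : ℝ, 0 ≤ C ∧ ∀ N : ℕ, 1 ≤ N →
    ∑' a : ℤ, ENNReal.ofReal (1 / (1 + (a : ℝ) ^ 2 / N)) ≤ ENNReal.ofReal (C * √(N : ℝ)) := by
  have hs := Pool.Agent.WA.A4_sumZ
  set S : ℝ := ∑' a : ℤ, 1 / (1 + (a : ℝ) ^ 2) with hS
  have hS0 : 0 ≤ S := tsum_nonneg fun a => by positivity
  have hE : ∑' a : ℤ, ENNReal.ofReal (1 / (1 + (a : ℝ) ^ 2)) = ENNReal.ofReal S :=
    (ENNReal.ofReal_tsum_of_nonneg (fun a => by positivity) hs).symm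
  have hE' : ∑' a : ℤ, ENNReal.ofReal (1 / (1 + ((a : ℝ) + 1) ^ 2)) = ENNReal.ofReal S := by
    rw [← hE, ← (Equiv.addRight (1 : ℤ)).tsum_eq
      (fun a : ℤ => ENNReal.ofReal (1 / (1 + (a : ℝ) ^ 2)))]
    apply tsum_congr
    intro a
    simp
  refine ⟨4 * (S + S), by positivity, ?_⟩
  intro N hN
  have hN0 : (0 : ℝ) < N := by exact_mod_cast (by omega : 0 < N)
  set m : ℕ := Nat.sqrt N with hm
  have hm1 : 1 ≤ m := by
    rw [hm, Nat.le_sqrt]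
    simpa using hN
  have hm0 : (0 : ℝ) < m := by exact_mod_cast (by omega : 0 < m)
  have hmle : (m : ℝ) ≤ √(N : ℝ) := Real.nat_sqrt_le_real_sqrt
  have hm4 : (N : ℝ) ≤ 4 * (m : ℝ) ^ 2 := by
    have h1 : N < (m + 1) * (m + 1) := Nat.lt_succ_sqrt N
    have h2 : N ≤ 4 * m ^ 2 := by nlinarith
    exact_mod_cast h2
  have : NeZero m := ⟨by omega⟩
  rw [← (Int.divModEquiv m).symm.tsum_eq, ENNReal.tsum_prod']
  have hterm : ∀ (q : ℤ) (r : Fin m),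
      ENNReal.ofReal (1 / (1 + ((((Int.divModEquiv m).symm (q, r) : ℤ) : ℝ)) ^ 2 / N)) ≤
      ENNReal.ofReal 4 * (ENNReal.ofReal (1 / (1 + (q : ℝ) ^ 2)) +
        ENNReal.ofReal (1 / (1 + ((q : ℝ) + 1) ^ 2))) := by
    intro q r
    rw [← ENNReal.ofReal_add (by positivity) (by positivity), ← ENNReal.ofReal_mul (by norm_num)]
    apply ENNReal.ofReal_le_ofReal
    have hval : (((Int.divModEquiv m).symm (q, r) : ℤ) : ℝ) = q * m + (r : ℕ) := by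
      rw [Int.divModEquiv_symm_apply]
      push_cast
      ring
    rw [hval]
    have hr0 : (0 : ℝ) ≤ ((r : ℕ) : ℝ) := Nat.cast_nonneg _
    have hr1 : ((r : ℕ) : ℝ) ≤ m := by exact_mod_cast r.2.le
    -- the key: for k = q or q + 1, (k m)^2 ≤ a^2
    have key : ∀ k : ℝ, (k * m) ^ 2 ≤ ((q : ℝ) * m + (r : ℕ)) ^ 2 →
        1 / (1 + ((q : ℝ) * m + (r : ℕ)) ^ 2 / N) ≤ 4 * (1 / (1 + k ^ 2)) := by
      intro k hk
      rw [mul_one_div, div_le_div_iff₀ (by positivity) (by positivity)]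
      have h3 : k ^ 2 / 4 ≤ ((q : ℝ) * m + (r : ℕ)) ^ 2 / N := by
        rw [div_le_div_iff₀ (by norm_num) hN0]
        have : k ^ 2 * N ≤ k ^ 2 * (4 * (m : ℝ) ^ 2) := mul_le_mul_of_nonneg_left hm4 (sq_nonneg k)
        nlinarith
      nlinarith [sq_nonneg k]
    rcases le_or_gt 0 q with hq | hq
    · have hq' : (0 : ℝ) ≤ q := by exact_mod_cast hq
      have h4 := key q (pow_le_pow_left₀ (by positivity) (by linarith) 2)
      have h5 : 0 ≤ 1 / (1 + ((q : ℝ) + 1) ^ 2) := by positivity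
      linarith
    · have hq' : (q : ℝ) + 1 ≤ 0 := by exact_mod_cast hq
      have h4 := key ((q : ℝ) + 1) (by
        rw [← neg_sq, ← neg_sq ((q : ℝ) * m + (r : ℕ))]
        apply pow_le_pow_left₀
        · nlinarith
        · nlinarith)
      have h5 : 0 ≤ 1 / (1 + (q : ℝ) ^ 2) := by positivity
      linarith
  calc ∑' q : ℤ, ∑' r : Fin m,
        ENNReal.ofReal (1 / (1 + ((((Int.divModEquiv m).symm (q, r) : ℤ) : ℝ)) ^ 2 / N))
      ≤ ∑' q : ℤ, ∑' _ : Fin m, ENNReal.ofReal 4 * (ENNReal.ofReal (1 / (1 + (q : ℝ) ^ 2)) +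
        ENNReal.ofReal (1 / (1 + ((q : ℝ) + 1) ^ 2))) :=
        ENNReal.tsum_le_tsum fun q => ENNReal.tsum_le_tsum fun r => hterm q r
    _ = (m : ℝ≥0∞) * (ENNReal.ofReal 4 * (ENNReal.ofReal S + ENNReal.ofReal S)) := by
        simp only [tsum_fintype, Finset.sum_const, Finset.card_univ, Fintype.card_fin, nsmul_eq_mul]
        rw [ENNReal.tsum_mul_left, ENNReal.tsum_mul_left, ENNReal.tsum_add, hE, hE']
    _ = ENNReal.ofReal (m * (4 * (S + S))) := by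
        rw [← ENNReal.ofReal_add hS0 hS0, ← ENNReal.ofReal_mul (by norm_num),
          ← ENNReal.ofReal_natCast, ← ENNReal.ofReal_mul hm0.le]
    _ ≤ ENNReal.ofReal (4 * (S + S) * √(N : ℝ)) := by
        apply ENNReal.ofReal_le_ofReal
        rw [mul_comm]
        exact mul_le_mul_of_nonneg_left hmle (by positivity)

/-- the number of integral solutions of `b c = -M` -/
theorem cnt_bc (M : ℕ) (hM : 0 < M) (x : ℝ≥0∞) :
    ∑' p : ℤ × ℤ, (if p.1 * p.2 = -(M : ℤ) then x else 0) ≤ 2 * (M.divisors.card : ℝ≥0∞) * x := by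
  classical
  rw [ENNReal.tsum_prod']
  have h1 : ∀ b : ℤ, ∑' c : ℤ, (if b * c = -(M : ℤ) then x else 0) ≤
      if b.natAbs ∈ M.divisors then x else 0 := by
    intro b
    by_cases hb : ∃ c : ℤ, b * c = -(M : ℤ)
    · obtain ⟨c, hc⟩ := hb
      have hb0 : b ≠ 0 := by
        rintro rfl
        rw [zero_mul] at hc
        omega
      rw [tsum_eq_single c]
      · rw [if_pos hc, if_pos]
        rw [Nat.mem_divisors]
        refine ⟨?_, hM.ne'⟩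
        have h2 : b ∣ (M : ℤ) := by
          rw [← dvd_neg]
          exact ⟨c, hc.symm⟩
        exact Int.natAbs_dvd_natAbs.2 h2
      · intro c' hc'
        rw [if_neg]
        intro h
        apply hc'
        apply mul_left_cancel₀ hb0
        rw [h, hc]
    · have : ∀ c : ℤ, (if b * c = -(M : ℤ) then x else 0) = 0 := by
        intro c
        rw [if_neg]
        intro h
        exact hb ⟨c, h⟩
      simp_rw [this]
      rw [tsum_zero]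
      exact zero_le
  refine (ENNReal.tsum_le_tsum h1).trans ?_
  set F : Finset ℤ := (M.divisors.image fun n : ℕ => (n : ℤ)) ∪
    (M.divisors.image fun n : ℕ => -(n : ℤ)) with hF
  rw [tsum_eq_sum (s := F)]
  · calc ∑ b ∈ F, (if b.natAbs ∈ M.divisors then x else 0) ≤ ∑ b ∈ F, x := by
          apply Finset.sum_le_sum
          intro b _
          split_ifs
          · exact le_rfl
          · exact zero_le
      _ = (F.card : ℝ≥0∞) * x := by rw [Finset.sum_const, nsmul_eq_mul]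
      _ ≤ 2 * (M.divisors.card : ℝ≥0∞) * x := by
          apply mul_le_mul_left
          have h3 : F.card ≤ 2 * M.divisors.card := by
            rw [hF]
            refine (Finset.card_union_le _ _).trans ?_
            have e1 := Finset.card_image_le (s := M.divisors) (f := fun n : ℕ => (n : ℤ))
            have e2 := Finset.card_image_le (s := M.divisors) (f := fun n : ℕ => -(n : ℤ))
            omega
          exact_mod_cast h3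
  · intro b hb
    rw [if_neg]
    intro h
    apply hb
    rw [hF, Finset.mem_union, Finset.mem_image, Finset.mem_image]
    rcases Int.natAbs_eq b with h4 | h4
    · left; exact ⟨_, h, h4.symm⟩
    · right; exact ⟨_, h, h4.symm⟩

/-- the weight of the matrices of trace zero -/
theorem cnt_small {κ : ℝ} (hκ : 0 < κ) {N : ℕ} (hN : 1 ≤ N) (a b c d : ℤ) :
    (max 1 (κ * ((a : ℝ) ^ 2 + (b : ℝ) ^ 2 + (c : ℝ) ^ 2 + (d : ℝ) ^ 2) / N)) ^ (-(13 : ℝ)) ≤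
      4 / (min 1 κ) ^ 2 * (1 / (1 + (a : ℝ) ^ 2 / N)) ^ 2 := by
  have hN0 : (0 : ℝ) < N := by exact_mod_cast (by omega : 0 < N)
  set x : ℝ := (a : ℝ) ^ 2 / N with hx
  have hx0 : 0 ≤ x := by positivity
  set μ : ℝ := min 1 κ with hμ
  have hμ0 : 0 < μ := lt_min one_pos hκ
  rw [cnt_rpow (le_max_left _ _)]
  set y : ℝ := κ * ((a : ℝ) ^ 2 + (b : ℝ) ^ 2 + (c : ℝ) ^ 2 + (d : ℝ) ^ 2) / N with hy
  have h1 : κ * x ≤ y := by
    have : κ * x = κ * (a : ℝ) ^ 2 / N := by rw [hx]; ring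
    rw [this, hy]
    apply div_le_div_of_nonneg_right _ hN0.le
    apply mul_le_mul_of_nonneg_left _ hκ.le
    nlinarith [sq_nonneg (b : ℝ), sq_nonneg (c : ℝ), sq_nonneg (d : ℝ)]
  have h2 : μ * (1 + x) / 2 ≤ max 1 y := by
    have e1 : μ ≤ 1 := min_le_left _ _
    have e2 : μ ≤ κ := min_le_right _ _
    have e3 : μ * x ≤ κ * x := mul_le_mul_of_nonneg_right e2 hx0
    have e4 : 1 ≤ max 1 y := le_max_left _ _
    have e5 : y ≤ max 1 y := le_max_right _ _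
    nlinarith
  have hm1 : 1 ≤ max 1 y := le_max_left _ _
  have h3 : (max 1 y) ^ 2 ≤ (max 1 y) ^ 13 := pow_le_pow_right₀ hm1 (by norm_num)
  have h4 : (μ * (1 + x) / 2) ^ 2 ≤ (max 1 y) ^ 2 := pow_le_pow_left₀ (by positivity) h2 2
  have h5 : ((max 1 y) ^ 13)⁻¹ ≤ ((μ * (1 + x) / 2) ^ 2)⁻¹ :=
    inv_anti₀ (by positivity) (h4.trans h3)
  refine h5.trans (le_of_eq ?_)
  field_simp
  norm_num

/-- block CNT -/
theorem cnt_mat_pr (κ : ℝ) (hκ : 0 < κ) : ∃ C : ℝ, ∀ N : ℕ, 1 ≤ N →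
    ∑' v : {v : ℤ × ℤ × ℤ × ℤ // v.1 * v.2.2.2 - v.2.1 * v.2.2.1 = N ∧ (N : ℤ) ∣ v.1 + v.2.2.2},
      ENNReal.ofReal ((max 1 (κ * ((v.1.1 : ℝ) ^ 2 + (v.1.2.1 : ℝ) ^ 2 + (v.1.2.2.1 : ℝ) ^ 2 +
        (v.1.2.2.2 : ℝ) ^ 2) / N)) ^ (-(13 : ℝ))) ≤
    ENNReal.ofReal (C * (N : ℝ) ^ (3 / 4 : ℝ)) := by
  classical
  obtain ⟨C4, hC4, h4⟩ := cnt_sum4
  obtain ⟨C1, hC1, h1⟩ := cnt_sum1
  obtain ⟨Cd, hCd, hd⟩ := Pool.Agent.SEL.divisor_bound (ε := 1 / 4) (by norm_num)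
  set μ : ℝ := min 1 κ with hμ
  have hμ0 : 0 < μ := lt_min one_pos hκ
  refine ⟨256 / κ ^ 8 * C4 + 8 * Cd / μ ^ 2 * C1, ?_⟩
  intro N hN
  have hN0 : (0 : ℝ) < N := by exact_mod_cast (by omega : 0 < N)
  have hN1 : (1 : ℝ) ≤ N := by exact_mod_cast hN
  set G : ℤ × ℤ × ℤ × ℤ → ℝ≥0∞ := fun v => ENNReal.ofReal (256 / κ ^ 8) * ENNReal.ofReal
      (1 / (1 + (v.1 : ℝ) ^ 2) * (1 / (1 + (v.2.1 : ℝ) ^ 2)) *
        (1 / (1 + (v.2.2.1 : ℝ) ^ 2)) * (1 / (1 + (v.2.2.2 : ℝ) ^ 2))) with hG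
  set H : ℤ → ℝ≥0∞ := fun a => ENNReal.ofReal (4 / μ ^ 2 * (1 / (1 + (a : ℝ) ^ 2 / N)) ^ 2) with hH
  set M : ℤ → ℕ := fun a => N + a.natAbs ^ 2 with hM
  have hMc : ∀ a, ((M a : ℕ) : ℤ) = N + a ^ 2 := by
    intro a
    rw [hM]
    push_cast
    rw [sq_abs]
  have hMr : ∀ a, ((M a : ℕ) : ℝ) = N + (a : ℝ) ^ 2 := by
    intro a
    have := congrArg (fun z : ℤ => (z : ℝ)) (hMc a)
    push_cast at this
    exact this
  set ψ : ℤ × ℤ × ℤ × ℤ → ℝ≥0∞ := fun v =>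
    if v.2.2.2 = -v.1 ∧ v.2.1 * v.2.2.1 = -(M v.1 : ℤ) then H v.1 else 0 with hψ
  have hpt : ∀ v : {v : ℤ × ℤ × ℤ × ℤ // v.1 * v.2.2.2 - v.2.1 * v.2.2.1 = N ∧
      (N : ℤ) ∣ v.1 + v.2.2.2},
      ENNReal.ofReal ((max 1 (κ * ((v.1.1 : ℝ) ^ 2 + (v.1.2.1 : ℝ) ^ 2 + (v.1.2.2.1 : ℝ) ^ 2 +
        (v.1.2.2.2 : ℝ) ^ 2) / N)) ^ (-(13 : ℝ))) ≤ G v.1 + ψ v.1 := by
    rintro ⟨⟨a, b, c, d⟩, hdet, htr⟩
    simp only at hdet htr ⊢
    by_cases h0 : a + d = 0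
    · have hda : d = -a := by omega
      have hbc : b * c = -(M a : ℤ) := by
        rw [hMc, ← hdet, hda]; ring
      refine le_trans ?_ le_add_self
      rw [hψ]
      simp only
      rw [if_pos ⟨hda, hbc⟩, hH]
      exact ENNReal.ofReal_le_ofReal (cnt_small hκ hN a b c d)
    · refine le_trans ?_ le_self_add
      rw [hG]
      simp only
      rw [← ENNReal.ofReal_mul (by positivity)]
      exact ENNReal.ofReal_le_ofReal (cnt_big hκ hN a b c d htr h0)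
  refine (ENNReal.tsum_le_tsum hpt).trans ?_
  rw [ENNReal.tsum_add]
  have hinj : Function.Injective (Subtype.val : {v : ℤ × ℤ × ℤ × ℤ //
      v.1 * v.2.2.2 - v.2.1 * v.2.2.1 = N ∧ (N : ℤ) ∣ v.1 + v.2.2.2} → ℤ × ℤ × ℤ × ℤ) :=
    Subtype.val_injective
  have hA := ENNReal.tsum_comp_le_tsum_of_injective hinj G
  have hB := ENNReal.tsum_comp_le_tsum_of_injective hinj ψ
  have hA2 : ∑' v : ℤ × ℤ × ℤ × ℤ, G v ≤ ENNReal.ofReal (256 / κ ^ 8 * C4) := by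
    rw [hG, ENNReal.tsum_mul_left, ENNReal.ofReal_mul (by positivity)]
    exact mul_le_mul_right h4 _
  have hB2 : ∑' v : ℤ × ℤ × ℤ × ℤ, ψ v ≤
      ENNReal.ofReal (8 * Cd / μ ^ 2 * C1 * (N : ℝ) ^ (3 / 4 : ℝ)) := by
    have e1 : ∑' v : ℤ × ℤ × ℤ × ℤ, ψ v =
        ∑' a : ℤ, ∑' p : ℤ × ℤ, (if p.1 * p.2 = -(M a : ℤ) then H a else 0) := by
      rw [ENNReal.tsum_prod']
      apply tsum_congr
      intro a
      rw [ENNReal.tsum_prod', ENNReal.tsum_prod']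
      apply tsum_congr
      intro b
      rw [ENNReal.tsum_prod']
      apply tsum_congr
      intro c
      rw [tsum_eq_single (-a)]
      · simp [hψ]
      · intro d hd'
        rw [hψ]
        simp only
        rw [if_neg]
        rintro ⟨h5, -⟩
        exact hd' h5
    rw [e1]
    have e2 : ∀ a : ℤ, ∑' p : ℤ × ℤ, (if p.1 * p.2 = -(M a : ℤ) then H a else 0) ≤
        ENNReal.ofReal (8 * Cd / μ ^ 2 * (N : ℝ) ^ (1 / 4 : ℝ)) *
          ENNReal.ofReal (1 / (1 + (a : ℝ) ^ 2 / N)) := by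
      intro a
      have hMpos : 0 < M a := by
        rw [hM]
        positivity
      refine (cnt_bc (M a) hMpos (H a)).trans ?_
      rw [← ENNReal.ofReal_natCast, show (2 : ℝ≥0∞) = ENNReal.ofReal 2 by simp, hH,
        ← ENNReal.ofReal_mul (by norm_num), ← ENNReal.ofReal_mul (by positivity),
        ← ENNReal.ofReal_mul (by positivity)]
      apply ENNReal.ofReal_le_ofReal
      have h5 := hd (M a) hMpos
      set x : ℝ := (a : ℝ) ^ 2 / N with hx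
      have hx0 : 0 ≤ x := by positivity
      have h6 : ((M a : ℕ) : ℝ) = N * (1 + x) := by
        rw [hMr, hx]
        field_simp
      rw [h6, Real.mul_rpow hN0.le (by positivity)] at h5
      have h7 : (1 + x) ^ (1 / 4 : ℝ) ≤ 1 + x := by
        calc (1 + x) ^ (1 / 4 : ℝ) ≤ (1 + x) ^ (1 : ℝ) :=
              Real.rpow_le_rpow_of_exponent_le (by linarith) (by norm_num)
          _ = 1 + x := Real.rpow_one _
      have hNq : 0 < (N : ℝ) ^ (1 / 4 : ℝ) := Real.rpow_pos_of_pos hN0 _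
      have h8 : ((M a).divisors.card : ℝ) ≤ Cd * ((N : ℝ) ^ (1 / 4 : ℝ) * (1 + x)) := by
        refine h5.trans ?_
        gcongr
      have hx1 : 0 < 1 + x := by linarith
      calc 2 * ((M a).divisors.card : ℝ) * (4 / μ ^ 2 * (1 / (1 + x)) ^ 2)
          ≤ 2 * (Cd * ((N : ℝ) ^ (1 / 4 : ℝ) * (1 + x))) * (4 / μ ^ 2 * (1 / (1 + x)) ^ 2) := by
            gcongr
        _ = 8 * Cd / μ ^ 2 * (N : ℝ) ^ (1 / 4 : ℝ) * (1 / (1 + x)) := by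
            field_simp
            ring
    refine (ENNReal.tsum_le_tsum e2).trans ?_
    rw [ENNReal.tsum_mul_left]
    refine (mul_le_mul_right (h1 N hN) _).trans ?_
    rw [← ENNReal.ofReal_mul (by positivity)]
    apply ENNReal.ofReal_le_ofReal
    apply le_of_eq
    have e3 : (N : ℝ) ^ (3 / 4 : ℝ) = (N : ℝ) ^ (1 / 4 : ℝ) * √(N : ℝ) := by
      rw [Real.sqrt_eq_rpow, ← Real.rpow_add hN0]
      norm_num
    rw [e3]
    ring
  refine (add_le_add (hA.trans hA2) (hB.trans hB2)).trans ?_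
  rw [← ENNReal.ofReal_add (by positivity) (by positivity)]
  apply ENNReal.ofReal_le_ofReal
  have hN34 : 1 ≤ (N : ℝ) ^ (3 / 4 : ℝ) := Real.one_le_rpow hN1 (by norm_num)
  have h9 : 0 ≤ 256 / κ ^ 8 * C4 := by positivity
  nlinarith

theorem cnt_mat : type_of% @cnt_mat_pr := @cnt_mat_pr

end Pool.Agent.DIMK
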