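import Pool.Agent.Lib_helper41.DIM.Defs
import Pool.Agent.Lib_helper98.WAF.A1
import Pool.Agent.Lib_helper98.WAF.A2
import Pool.Agent.Lib_helper98.WAF.A4
import Pool.Agent.Lib_helper68.LEV.FAM
import Pool.Agent.Lib_helper41.DIMF.CNT
import Pool.Agent.Lib_helper41.DIMF.LAT
import Pool.Agent.Lib_helper41.DIMF.COS

/-! DIM block OFB: the elements of the nontrivial coset of the Fricke group -/

namespace Pool.Agent.DIMK

open Complex MeasureTheory Filter Topology UpperHalfPlane ModularGroup CongruenceSubgroup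
open scoped MatrixGroups Modular ENNReal ModularForm ComplexConjugate
open Pool.Agent.LEV (PX pa sg wz S2 G0 co IsFricke Hol)
open Pool.Agent.WA (ch)

theorem ofb_det (g : SL(2, ℤ)) : (g 0 0 : ℤ) * g 1 1 - g 0 1 * g 1 0 = 1 := by
  have := g.det_coe
  rwa [Matrix.det_fin_two] at this

theorem ofb_im (a b c d : ℤ) (z : ℍ) (h : (c : ℂ) * (z : ℂ) + (d : ℂ) ≠ 0) :
    (((a : ℂ) * (z : ℂ) + b) / ((c : ℂ) * (z : ℂ) + d)).im =
      ((a * d - b * c : ℤ) : ℝ) * z.im / ‖(c : ℂ) * (z : ℂ) + d‖ ^ 2 := by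
  have hre : (z : ℂ).re = z.re := rfl
  have him : (z : ℂ).im = z.im := rfl
  have hn : Complex.normSq ((c : ℂ) * (z : ℂ) + d) ≠ 0 := (Complex.normSq_pos.2 h).ne'
  rw [Complex.div_im, Complex.sq_norm]
  obtain ⟨D, hD⟩ : ∃ D : ℝ, D = Complex.normSq ((c : ℂ) * (z : ℂ) + d) := ⟨_, rfl⟩
  rw [← hD] at hn ⊢
  simp only [Complex.add_re, Complex.mul_re, Complex.intCast_re, Complex.intCast_im,
    Complex.add_im, Complex.mul_im, hre, him]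
  push_cast
  field_simp
  ring

theorem ofb_ch {a b c d : ℤ} {M : ℝ} (hM : 0 < M) (hdet : ((a * d - b * c : ℤ) : ℝ) = M) (z u : ℍ)
    (h : (c : ℂ) * (z : ℂ) + (d : ℂ) ≠ 0)
    (hu : (u : ℂ) = ((a : ℂ) * (z : ℂ) + b) / ((c : ℂ) * (z : ℂ) + d)) :
    ch u z = qq a b c d z / M := by
  have him : u.im = M * z.im / ‖(c : ℂ) * (z : ℂ) + d‖ ^ 2 := by
    have : (u : ℂ).im = u.im := rfl
    rw [← this, hu, ofb_im a b c d z h, hdet]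
  unfold ch qq
  rw [him, hu]
  have hn : ‖(c : ℂ) * (z : ℂ) + d‖ ≠ 0 := norm_ne_zero_iff.2 h
  have e1 : ((a : ℂ) * (z : ℂ) + b) / ((c : ℂ) * (z : ℂ) + d) - conj (z : ℂ) =
      ((a : ℂ) * (z : ℂ) + b - conj (z : ℂ) * ((c : ℂ) * (z : ℂ) + d)) /
      ((c : ℂ) * (z : ℂ) + d) := by
    rw [eq_div_iff h, sub_mul, div_mul_cancel₀ _ h]
  rw [e1, norm_div, div_pow]
  have := z.im_pos.ne'
  obtain ⟨D, hD⟩ : ∃ D : ℝ, D = ‖(c : ℂ) * (z : ℂ) + d‖ := ⟨_, rfl⟩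
  rw [← hD] at hn ⊢
  field_simp

/-- the entries of `p W r`, `W = (0 -1; N 0)` -/
def ofbM (N : ℕ) (p r : SL(2, ℤ)) : ℤ × ℤ × ℤ × ℤ :=
  (-(p 0 0 * r 1 0) + p 0 1 * N * r 0 0, -(p 0 0 * r 1 1) + p 0 1 * N * r 0 1,
    -(p 1 0 * r 1 0) + p 1 1 * N * r 0 0, -(p 1 0 * r 1 1) + p 1 1 * N * r 0 1)

theorem ofbM_det (N : ℕ) (p r : SL(2, ℤ)) :
    (ofbM N p r).1 * (ofbM N p r).2.2.2 - (ofbM N p r).2.1 * (ofbM N p r).2.2.1 = N := by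
  have h1 := ofb_det p
  have h2 := ofb_det r
  unfold ofbM
  simp only
  calc _ = (N : ℤ) * ((p 0 0 * p 1 1 - p 0 1 * p 1 0) * (r 0 0 * r 1 1 - r 0 1 * r 1 0)) := by ring
    _ = N := by rw [h1, h2]; ring

theorem ofb_inv (s : SL(2, ℤ)) : (s⁻¹ : SL(2, ℤ)) 0 0 = s 1 1 ∧ (s⁻¹ : SL(2, ℤ)) 0 1 = -s 0 1 ∧
    (s⁻¹ : SL(2, ℤ)) 1 0 = -s 1 0 ∧ (s⁻¹ : SL(2, ℤ)) 1 1 = s 0 0 := by
  rw [Matrix.SpecialLinearGroup.SL2_inv_expl]
  exact ⟨rfl, rfl, rfl, rfl⟩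

theorem ofb_mul (s g : SL(2, ℤ)) (i j : Fin 2) : (s * g) i j = s i 0 * g 0 j + s i 1 * g 1 j := by
  rw [Matrix.SpecialLinearGroup.coe_mul, Matrix.mul_apply, Fin.sum_univ_two]

theorem ofbM_tr {N : ℕ} (s g : SL(2, ℤ)) (hg : g ∈ Gamma0 N) :
    (N : ℤ) ∣ (ofbM N (s * g) s⁻¹).1 + (ofbM N (s * g) s⁻¹).2.2.2 := by
  have hc : (N : ℤ) ∣ g 1 0 := (ZMod.intCast_zmod_eq_zero_iff_dvd _ _).1 (Gamma0_mem.1 hg)
  obtain ⟨t, ht⟩ := hc
  obtain ⟨i00, i01, i10, i11⟩ := ofb_inv s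
  have hs := ofb_det s
  unfold ofbM
  simp only
  rw [i00, i01, i10, i11]
  refine ⟨-t + (s * g) 0 1 * s 1 1 - (s * g) 1 1 * s 0 1, ?_⟩
  rw [ofb_mul s g 0 0, ofb_mul s g 1 0, ofb_mul s g 0 1, ofb_mul s g 1 1, ht]
  linear_combination (-(N : ℤ) * t) * hs

/-- the matrix of the Fricke involution -/
def ofbW (N : ℕ) : Matrix (Fin 2) (Fin 2) ℤ := !![0, -1; (N : ℤ), 0]

theorem ofbM_mat (N : ℕ) (p r : SL(2, ℤ)) :
    (p : Matrix (Fin 2) (Fin 2) ℤ) * ofbW N * (r : Matrix (Fin 2) (Fin 2) ℤ) =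
      !![(ofbM N p r).1, (ofbM N p r).2.1; (ofbM N p r).2.2.1, (ofbM N p r).2.2.2] := by
  ext i j
  rw [Matrix.mul_apply, Fin.sum_univ_two, Matrix.mul_apply, Fin.sum_univ_two, Matrix.mul_apply,
    Fin.sum_univ_two]
  fin_cases i <;> fin_cases j <;> simp [ofbW, ofbM] <;> ring

theorem ofb_key {N : ℕ} {p r p' r' : SL(2, ℤ)} (h : ofbM N p r = ofbM N p' r') :
    ((p'⁻¹ * p : SL(2, ℤ)) : Matrix (Fin 2) (Fin 2) ℤ) * ofbW N =
      ofbW N * ((r' * r⁻¹ : SL(2, ℤ)) : Matrix (Fin 2) (Fin 2) ℤ) := by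
  have h1 : (p : Matrix (Fin 2) (Fin 2) ℤ) * ofbW N * (r : Matrix (Fin 2) (Fin 2) ℤ) =
      (p' : Matrix (Fin 2) (Fin 2) ℤ) * ofbW N * (r' : Matrix (Fin 2) (Fin 2) ℤ) := by
    rw [ofbM_mat, ofbM_mat, h]
  have e1 : ((p'⁻¹ : SL(2, ℤ)) : Matrix (Fin 2) (Fin 2) ℤ) * (p' : Matrix (Fin 2) (Fin 2) ℤ) = 1 := by
    rw [← Matrix.SpecialLinearGroup.coe_mul, inv_mul_cancel, Matrix.SpecialLinearGroup.coe_one]
  have e2 : (r : Matrix (Fin 2) (Fin 2) ℤ) * ((r⁻¹ : SL(2, ℤ)) : Matrix (Fin 2) (Fin 2) ℤ) = 1 := by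
    rw [← Matrix.SpecialLinearGroup.coe_mul, mul_inv_cancel, Matrix.SpecialLinearGroup.coe_one]
  rw [Matrix.SpecialLinearGroup.coe_mul, Matrix.SpecialLinearGroup.coe_mul]
  calc ((p'⁻¹ : SL(2, ℤ)) : Matrix (Fin 2) (Fin 2) ℤ) * (p : Matrix (Fin 2) (Fin 2) ℤ) * ofbW N =
      ((p'⁻¹ : SL(2, ℤ)) : Matrix (Fin 2) (Fin 2) ℤ) * ((p : Matrix (Fin 2) (Fin 2) ℤ) * ofbW N *
        (r : Matrix (Fin 2) (Fin 2) ℤ)) * ((r⁻¹ : SL(2, ℤ)) : Matrix (Fin 2) (Fin 2) ℤ) := by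
        simp only [Matrix.mul_assoc]
        rw [e2, Matrix.mul_one]
    _ = _ := by
        rw [h1]
        simp only [← Matrix.mul_assoc]
        rw [e1, Matrix.one_mul]

theorem ofb_inj {N : ℕ} [Fact N.Prime] {q q' : PX N} {g g' : Gamma0 N}
    (h : ofbM N (sg q * (g : SL(2, ℤ))) (sg q)⁻¹ = ofbM N (sg q' * (g' : SL(2, ℤ))) (sg q')⁻¹) :
    q = q' ∧ g = g' := by
  have hN : (N : ℤ) ≠ 0 := by exact_mod_cast (Fact.out : N.Prime).ne_zero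
  have hk := ofb_key h
  have hq : q = q' := by
    -- `k = (sg q')⁻¹ sg q ∈ Γ₀`
    have hmem : (sg q')⁻¹ * ((sg q)⁻¹)⁻¹ ∈ Gamma0 N := by
      rw [Gamma0_mem]
      set k : SL(2, ℤ) := (sg q')⁻¹ * ((sg q)⁻¹)⁻¹ with hkd
      set hh : SL(2, ℤ) := (sg q' * (g' : SL(2, ℤ)))⁻¹ * (sg q * (g : SL(2, ℤ))) with hhd
      have h00 := congrFun (congrFun hk 0) 0
      rw [Matrix.mul_apply, Fin.sum_univ_two, Matrix.mul_apply, Fin.sum_univ_two] at h00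
      have h3 : hh 0 1 * (N : ℤ) = -(k 1 0) := by
        simpa [ofbW] using h00
      have h4 : k 1 0 = -(hh 0 1) * N := by linarith
      rw [h4]
      push_cast
      simp
    rw [inv_inv, ← LEV.pa_inf_iff, LEV.pa_mul, LEV.pa_sg] at hmem
    have h5 := congrArg (pa (N := N) (sg q')) hmem
    rw [← LEV.pa_mul, mul_inv_cancel, LEV.pa_one, LEV.pa_sg] at h5
    exact h5
  subst hq
  refine ⟨rfl, ?_⟩
  have hone : (sg q)⁻¹ * ((sg q)⁻¹)⁻¹ = 1 := mul_inv_cancel _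
  rw [hone, Matrix.SpecialLinearGroup.coe_one, Matrix.mul_one] at hk
  set hh : SL(2, ℤ) := (sg q * (g' : SL(2, ℤ)))⁻¹ * (sg q * (g : SL(2, ℤ))) with hhd
  have h1 : hh = 1 := by
    have h00 := congrFun (congrFun hk 0) 0
    have h01 := congrFun (congrFun hk 0) 1
    have h10 := congrFun (congrFun hk 1) 0
    have h11 := congrFun (congrFun hk 1) 1
    rw [Matrix.mul_apply, Fin.sum_univ_two] at h00 h01 h10 h11
    have k00 : hh 0 1 * (N : ℤ) = 0 := by simpa [ofbW] using h00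
    have k01 : hh 0 0 = 1 := by
      have : -(hh 0 0) = -1 := by simpa [ofbW] using h01
      linarith
    have k10 : hh 1 1 * (N : ℤ) = N := by simpa [ofbW] using h10
    have k11 : hh 1 0 = 0 := by
      have : -(hh 1 0) = 0 := by simpa [ofbW] using h11
      linarith
    have k00' : hh 0 1 = 0 := (mul_eq_zero.1 k00).resolve_right hN
    have k10' : hh 1 1 = 1 := by
      have : (hh 1 1 - 1) * (N : ℤ) = 0 := by rw [sub_mul, k10]; ring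
      have := (mul_eq_zero.1 this).resolve_right hN
      linarith
    ext i j
    fin_cases i <;> fin_cases j
    · exact k01
    · exact k00'
    · exact k11
    · exact k10'
  rw [hhd, inv_mul_eq_one] at h1
  exact Subtype.ext (mul_left_cancel h1).symm

theorem ofb_coe {N : ℕ} [Fact N.Prime] (p r : SL(2, ℤ)) (z : ℍ) :
    (((ofbM N p r).2.2.1 : ℤ) : ℂ) * (z : ℂ) + (((ofbM N p r).2.2.2 : ℤ) : ℂ) ≠ 0 ∧
    ((p • wz N (r • z) : ℍ) : ℂ) =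
      ((((ofbM N p r).1 : ℤ) : ℂ) * (z : ℂ) + (((ofbM N p r).2.1 : ℤ) : ℂ)) /
      ((((ofbM N p r).2.2.1 : ℤ) : ℂ) * (z : ℂ) + (((ofbM N p r).2.2.2 : ℤ) : ℂ)) := by
  have hN : (N : ℂ) ≠ 0 := Nat.cast_ne_zero.2 (Fact.out : N.Prime).ne_zero
  have hrz := GL2.RSA_coe_smul r z
  have hrd := GL2.RSA_denom_ne r z
  have hr0 : ((r 0 0 : ℤ) : ℂ) * (z : ℂ) + ((r 0 1 : ℤ) : ℂ) ≠ 0 := by
    intro h
    rw [h, zero_div] at hrz
    exact (r • z).ne_zero hrz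
  have hw : ((wz N (r • z) : ℍ) : ℂ) = -(((r 1 0 : ℤ) : ℂ) * (z : ℂ) + ((r 1 1 : ℤ) : ℂ)) /
      ((N : ℂ) * (((r 0 0 : ℤ) : ℂ) * (z : ℂ) + ((r 0 1 : ℤ) : ℂ))) := by
    show -1 / ((N : ℂ) * ((r • z : ℍ) : ℂ)) = _
    rw [hrz]
    field_simp
  have hpd := GL2.RSA_denom_ne p (wz N (r • z))
  have hpz := GL2.RSA_coe_smul p (wz N (r • z))
  rw [hw] at hpd hpz
  set α : ℂ := ((r 0 0 : ℤ) : ℂ) with hα
  set β : ℂ := ((r 0 1 : ℤ) : ℂ) with hβ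
  set γ : ℂ := ((r 1 0 : ℤ) : ℂ) with hγ
  set δ : ℂ := ((r 1 1 : ℤ) : ℂ) with hδ
  set a : ℂ := ((p 0 0 : ℤ) : ℂ) with ha
  set b : ℂ := ((p 0 1 : ℤ) : ℂ) with hb
  set c : ℂ := ((p 1 0 : ℤ) : ℂ) with hc
  set d : ℂ := ((p 1 1 : ℤ) : ℂ) with hd
  have hA0 : (N : ℂ) * (α * z + β) ≠ 0 := mul_ne_zero hN hr0
  have m1 : (((ofbM N p r).1 : ℤ) : ℂ) = -(a * γ) + b * N * α := by
    unfold ofbM; push_cast; rfl
  have m2 : (((ofbM N p r).2.1 : ℤ) : ℂ) = -(a * δ) + b * N * β := by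
    unfold ofbM; push_cast; rfl
  have m3 : (((ofbM N p r).2.2.1 : ℤ) : ℂ) = -(c * γ) + d * N * α := by
    unfold ofbM; push_cast; rfl
  have m4 : (((ofbM N p r).2.2.2 : ℤ) : ℂ) = -(c * δ) + d * N * β := by
    unfold ofbM; push_cast; rfl
  rw [m1, m2, m3, m4]
  have hζ : (-(γ * z + δ) / ((N : ℂ) * (α * z + β))) * ((N : ℂ) * (α * z + β)) = -(γ * z + δ) :=
    div_mul_cancel₀ _ hA0
  have e1 : (-(c * γ) + d * N * α) * (z : ℂ) + (-(c * δ) + d * N * β) =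
      (c * (-(γ * z + δ) / ((N : ℂ) * (α * z + β))) + d) * ((N : ℂ) * (α * z + β)) := by
    linear_combination (-c) * hζ
  have e2 : (-(a * γ) + b * N * α) * (z : ℂ) + (-(a * δ) + b * N * β) =
      (a * (-(γ * z + δ) / ((N : ℂ) * (α * z + β))) + b) * ((N : ℂ) * (α * z + β)) := by
    linear_combination (-a) * hζ
  constructor
  · rw [e1]
    exact mul_ne_zero hpd hA0
  · rw [hpz, e1, e2, mul_div_mul_right _ _ hA0]

theorem off2_le_pr (Y : ℝ) : ∃ C : ℝ, ∀ (N : ℕ) [Fact N.Prime] (z : ℍ), z ∈ 𝒟 → z.im ≤ Y →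
    ∑ q : PX N, off2 N ((sg q)⁻¹ • z) ≤ ENNReal.ofReal (C * (N : ℝ) ^ (3 / 4 : ℝ)) := by
  classical
  obtain ⟨κ, hκ, hlow⟩ := lat_low Y
  obtain ⟨C, hC⟩ := cnt_mat κ hκ
  refine ⟨C, fun N _ z hz hzY => ?_⟩
  have hNp := (Fact.out : N.Prime)
  have hN0 : (0 : ℝ) < N := Nat.cast_pos.2 hNp.pos
  refine le_trans ?_ (hC N hNp.one_lt.le)
  set V : Type := {v : ℤ × ℤ × ℤ × ℤ // v.1 * v.2.2.2 - v.2.1 * v.2.2.1 = N ∧
    (N : ℤ) ∣ v.1 + v.2.2.2} with hV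
  set F : V → ℝ≥0∞ := fun v => ENNReal.ofReal ((max 1 (κ * ((v.1.1 : ℝ) ^ 2 + (v.1.2.1 : ℝ) ^ 2 +
    (v.1.2.2.1 : ℝ) ^ 2 + (v.1.2.2.2 : ℝ) ^ 2) / N)) ^ (-(13 : ℝ))) with hF
  set emb : PX N × Gamma0 N → V := fun x =>
    ⟨ofbM N (sg x.1 * (x.2 : SL(2, ℤ))) (sg x.1)⁻¹, ofbM_det N _ _, ofbM_tr (sg x.1) _ x.2.2⟩
    with hemb
  have hinj : Function.Injective emb := by
    rintro ⟨q, g⟩ ⟨q', g'⟩ h
    have h1 := congrArg Subtype.val h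
    obtain ⟨h2, h3⟩ := ofb_inj h1
    exact Prod.ext h2 h3
  have hterm : ∀ x : PX N × Gamma0 N,
      ENNReal.ofReal (ch (((x.2 : Gamma0 N) : SL(2, ℤ)) • wz N ((sg x.1)⁻¹ • z)) ((sg x.1)⁻¹ • z) ^
        (-(13 : ℝ))) ≤ F (emb x) := by
    rintro ⟨q, g⟩
    simp only [hF, hemb]
    apply ENNReal.ofReal_le_ofReal
    set p : SL(2, ℤ) := sg q * (g : SL(2, ℤ)) with hp
    set r : SL(2, ℤ) := (sg q)⁻¹ with hr
    have e1 : ch (((g : Gamma0 N) : SL(2, ℤ)) • wz N (r • z)) (r • z) =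
        ch (p • wz N (r • z)) z := by
      rw [← WA.ch_smul (sg q) _ (r • z), hr, smul_inv_smul, ← mul_smul]
    obtain ⟨h1, h2⟩ := ofb_coe (N := N) p r z
    have hdet := ofbM_det N p r
    have e2 := ofb_ch (M := (N : ℝ)) hN0 (by rw [hdet]; simp) z (p • wz N (r • z)) h1 h2
    have h3 := hlow z hz hzY (ofbM N p r).1 (ofbM N p r).2.1 (ofbM N p r).2.2.1
      (ofbM N p r).2.2.2 (by rw [hdet]; exact_mod_cast hNp.pos)
    rw [hdet] at h3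
    rw [e1, e2]
    apply Real.rpow_le_rpow_of_nonpos (by positivity) _ (by norm_num)
    apply max_le
    · rw [one_le_div hN0]
      have := h3.2
      push_cast at this
      exact this
    · exact div_le_div_of_nonneg_right h3.1 hN0.le
  calc ∑ q : PX N, off2 N ((sg q)⁻¹ • z) = ∑' x : PX N × Gamma0 N,
      ENNReal.ofReal (ch (((x.2 : Gamma0 N) : SL(2, ℤ)) • wz N ((sg x.1)⁻¹ • z)) ((sg x.1)⁻¹ • z) ^
        (-(13 : ℝ))) := by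
        rw [ENNReal.tsum_prod', tsum_fintype]
        rfl
    _ ≤ ∑' x : PX N × Gamma0 N, F (emb x) := ENNReal.tsum_le_tsum hterm
    _ ≤ ∑' v : V, F v := ENNReal.tsum_comp_le_tsum_of_injective hinj F

theorem off2_le : type_of% @off2_le_pr := @off2_le_pr

end Pool.Agent.DIMK
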