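import Pool.Agent.Lib_helper41.DIM.Defs
import Pool.Agent.Lib_helper98.WAF.A1
import Pool.Agent.Lib_helper98.WAF.A2
import Pool.Agent.Lib_helper98.WAF.A4
import Pool.Agent.Lib_helper68.LEV.FAM
import Pool.Agent.Lib_helper68.LEV.FRK
import Pool.Agent.Lib_helper68.LEV.QEX
import Pool.Agent.Lib_helper41.DIMF.LNK
import Pool.Agent.Lib_helper41.DIMF.DVN
import Pool.Agent.Lib_helper41.DIMF.FDV
import Pool.Agent.Lib_helper41.DIMF.HIL
import Pool.Agent.Lib_helper41.DIMF.VOL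
import Pool.Agent.Lib_helper41.DIMF.OFA
import Pool.Agent.Lib_helper41.DIMF.OFB
import Pool.Agent.Lib_helper41.DIMF.POB

/-! DIM, block FIN: the dimension of the Fricke eigenspaces. -/

namespace Pool.Agent.DIMK

open Complex MeasureTheory Filter Topology UpperHalfPlane ModularGroup CongruenceSubgroup
open scoped MatrixGroups Modular ENNReal ModularForm ComplexConjugate
open Pool.Agent.LEV (PX pa sg wz S2 G0 co IsFricke Hol)
open Pool.Agent.WA (ch)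

section
variable {N : ℕ} [Fact N.Prime]

theorem fin_dim_pr : FiniteDimensional ℂ (S2 N) := by
  obtain ⟨W, hW⟩ := LEV.fricke_exists (N := N)
  have h2 := fun f => LEV.fricke_sq hW f
  obtain ⟨e1⟩ := lnk hW (ε := 1) (Or.inl rfl)
  obtain ⟨e2⟩ := lnk hW (ε := -1) (Or.inr rfl)
  have f1 : FiniteDimensional ℂ (VV N 1 1) := fdv 1 (Or.inl rfl)
  have f2 : FiniteDimensional ℂ (VV N 1 (-1)) := fdv 1 (Or.inr rfl)
  have g1 : FiniteDimensional ℂ (LinearMap.ker (W - (1 : ℂ) • (1 : S2 N →ₗ[ℂ] S2 N))) :=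
    Module.Finite.equiv e1.symm
  have g2 : FiniteDimensional ℂ (LinearMap.ker (W - (-1 : ℂ) • (1 : S2 N →ₗ[ℂ] S2 N))) :=
    Module.Finite.equiv e2.symm
  have hsup : LinearMap.ker (W - (1 : ℂ) • (1 : S2 N →ₗ[ℂ] S2 N)) ⊔
      LinearMap.ker (W - (-1 : ℂ) • (1 : S2 N →ₗ[ℂ] S2 N)) = ⊤ := by
    rw [eq_top_iff]
    intro f _
    have hf : f = (1 / 2 : ℂ) • (f + W f) + (1 / 2 : ℂ) • (f - W f) := by
      rw [← smul_add, add_add_sub_cancel, ← two_smul ℂ f, smul_smul]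
      norm_num
    rw [hf]
    apply Submodule.add_mem_sup
    · rw [LinearMap.mem_ker, LinearMap.sub_apply, LinearMap.smul_apply, one_smul,
        Module.End.one_apply, map_smul, map_add, h2, add_comm (W f) f, sub_self]
    · rw [LinearMap.mem_ker, LinearMap.sub_apply, LinearMap.smul_apply,
        Module.End.one_apply, map_smul, map_sub, h2]
      module
  have g3 : FiniteDimensional ℂ (LinearMap.ker (W - (1 : ℂ) • (1 : S2 N →ₗ[ℂ] S2 N)) ⊔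
      LinearMap.ker (W - (-1 : ℂ) • (1 : S2 N →ₗ[ℂ] S2 N)) : Submodule ℂ (S2 N)) :=
    Submodule.finiteDimensional_sup _ _
  rw [hsup] at g3
  exact Module.Finite.equiv (Submodule.topEquiv (R := ℂ) (M := S2 N))

/-- the lower bound for the dimension in weight 26 -/
theorem fin_26 (Y : ℝ) (hY : 1 ≤ Y) : ∃ K : ℝ, 0 ≤ K ∧ ∀ (N : ℕ) [Fact N.Prime] (ε : ℂ),
    ε = 1 ∨ ε = -1 → K * (1 + (N : ℝ) ^ (3 / 4 : ℝ)) ≤ 2 * (N + 1) →
    (2 * (N + 1) - K * (1 + (N : ℝ) ^ (3 / 4 : ℝ))) * (Real.pi / 3 - 1 / Y) ≤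
      16 * Real.pi / 25 * Module.finrank ℂ (VV N 13 ε) := by
  obtain ⟨C1, hC1⟩ := off1_le Y
  obtain ⟨C2, hC2⟩ := off2_le Y
  refine ⟨max C1 0 + max C2 0, by positivity, fun N hN ε hε hbig => ?_⟩
  have hNpos : (0 : ℝ) ≤ (N : ℝ) ^ (3 / 4 : ℝ) := by positivity
  have hmeas : MeasurableSet (𝒟ᵒ ∩ {z : ℍ | z.im ≤ Y} : Set ℍ) :=
    isOpen_fdo.measurableSet.inter (measurableSet_le UpperHalfPlane.continuous_im.measurable
      measurable_const)
  have hfd : FiniteDimensional ℂ (VV N 13 ε) := fdv 13 hε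
  obtain ⟨hint, hle⟩ := hil hε hfd hmeas Set.inter_subset_left
  refine le_trans ?_ hle
  rw [← integral_finsetSum _ (fun q _ => hint q)]
  have hvol : (volume (𝒟ᵒ ∩ {z : ℍ | z.im ≤ Y} : Set ℍ)) < ⊤ :=
    lt_of_le_of_lt (measure_mono Set.inter_subset_left) vol_fin
  have hpt : ∀ z ∈ (𝒟ᵒ ∩ {z : ℍ | z.im ≤ Y} : Set ℍ),
      2 * ((N : ℝ) + 1) - (max C1 0 + max C2 0) * (1 + (N : ℝ) ^ (3 / 4 : ℝ)) ≤
      ∑ q : PX N, (nf 13 (PP N 13 ε ((sg q)⁻¹ • z)) ((sg q)⁻¹ • z)).re := by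
    rintro z ⟨hz1, hz2⟩
    have hz3 : z ∈ 𝒟 := fdo_subset_fd hz1
    have hoff : ∑ q : PX N, ‖nf 13 (PP N 13 ε ((sg q)⁻¹ • z)) ((sg q)⁻¹ • z) - 2‖ₑ ≤
        ENNReal.ofReal ((max C1 0 + max C2 0) * (1 + (N : ℝ) ^ (3 / 4 : ℝ))) := by
      calc ∑ q : PX N, ‖nf 13 (PP N 13 ε ((sg q)⁻¹ • z)) ((sg q)⁻¹ • z) - 2‖ₑ
          ≤ ∑ q : PX N, (off1 N ((sg q)⁻¹ • z) + off2 N ((sg q)⁻¹ • z)) :=
            Finset.sum_le_sum (fun q _ => diag_le hε _)
        _ = ∑ q : PX N, off1 N ((sg q)⁻¹ • z) + ∑ q : PX N, off2 N ((sg q)⁻¹ • z) :=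
            Finset.sum_add_distrib
        _ ≤ ENNReal.ofReal C1 + ENNReal.ofReal (C2 * (N : ℝ) ^ (3 / 4 : ℝ)) :=
            add_le_add (hC1 N z hz3 hz2) (hC2 N z hz3 hz2)
        _ ≤ ENNReal.ofReal (max C1 0) + ENNReal.ofReal (max C2 0 * (N : ℝ) ^ (3 / 4 : ℝ)) := by
            apply add_le_add
            · exact ENNReal.ofReal_le_ofReal (le_max_left _ _)
            · exact ENNReal.ofReal_le_ofReal (mul_le_mul_of_nonneg_right (le_max_left _ _) hNpos)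
        _ = ENNReal.ofReal (max C1 0 + max C2 0 * (N : ℝ) ^ (3 / 4 : ℝ)) := by
            rw [ENNReal.ofReal_add (le_max_right _ _) (mul_nonneg (le_max_right _ _) hNpos)]
        _ ≤ ENNReal.ofReal ((max C1 0 + max C2 0) * (1 + (N : ℝ) ^ (3 / 4 : ℝ))) := by
            apply ENNReal.ofReal_le_ofReal
            nlinarith [mul_nonneg (le_max_right C1 0) hNpos, le_max_right C2 (0 : ℝ)]
    have hoff' : ∑ q : PX N, ‖nf 13 (PP N 13 ε ((sg q)⁻¹ • z)) ((sg q)⁻¹ • z) - 2‖ ≤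
        (max C1 0 + max C2 0) * (1 + (N : ℝ) ^ (3 / 4 : ℝ)) := by
      have h1 : ∑ q : PX N, ‖nf 13 (PP N 13 ε ((sg q)⁻¹ • z)) ((sg q)⁻¹ • z) - 2‖ₑ =
          ENNReal.ofReal (∑ q : PX N, ‖nf 13 (PP N 13 ε ((sg q)⁻¹ • z)) ((sg q)⁻¹ • z) - 2‖) := by
        rw [ENNReal.ofReal_sum_of_nonneg (fun _ _ => norm_nonneg _)]
        exact Finset.sum_congr rfl (fun q _ => (ofReal_norm_eq_enorm _).symm)
      rw [h1] at hoff
      exact (ENNReal.ofReal_le_ofReal_iff (by positivity)).mp hoff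
    have hcard : (Fintype.card (PX N) : ℝ) = N + 1 := by
      rw [LEV.card_PX]
      push_cast
      ring
    have h3 : ∑ q : PX N, ((2 : ℝ) - ‖nf 13 (PP N 13 ε ((sg q)⁻¹ • z)) ((sg q)⁻¹ • z) - 2‖) ≤
        ∑ q : PX N, (nf 13 (PP N 13 ε ((sg q)⁻¹ • z)) ((sg q)⁻¹ • z)).re := by
      apply Finset.sum_le_sum
      intro q _
      have h4 := Complex.abs_re_le_norm (nf 13 (PP N 13 ε ((sg q)⁻¹ • z)) ((sg q)⁻¹ • z) - 2)
      have h5 : (nf 13 (PP N 13 ε ((sg q)⁻¹ • z)) ((sg q)⁻¹ • z) - 2).re =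
          (nf 13 (PP N 13 ε ((sg q)⁻¹ • z)) ((sg q)⁻¹ • z)).re - 2 := by
        rw [Complex.sub_re]
        norm_num
      rw [h5] at h4
      have h6 := (abs_le.mp h4).1
      linarith
    rw [Finset.sum_sub_distrib, Finset.sum_const, Finset.card_univ, nsmul_eq_mul, hcard] at h3
    linarith
  have hconst : IntegrableOn (fun _ : ℍ => 2 * ((N : ℝ) + 1) -
      (max C1 0 + max C2 0) * (1 + (N : ℝ) ^ (3 / 4 : ℝ))) (𝒟ᵒ ∩ {z : ℍ | z.im ≤ Y}) :=
    integrableOn_const hvol.ne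
  have hI := setIntegral_mono_on hconst (integrable_finsetSum _ (fun q _ => hint q)) hmeas hpt
  refine le_trans ?_ hI
  rw [setIntegral_const, smul_eq_mul, mul_comm]
  apply mul_le_mul_of_nonneg_right _ (by linarith)
  have hv := vol_fd hY
  rw [measureReal_def]
  exact (ENNReal.ofReal_le_iff_le_toReal hvol.ne).mp hv

theorem dim_pm_pr {δ : ℝ} (hδ : 0 < δ) : ∃ N₀ : ℕ, ∀ (N : ℕ) [Fact N.Prime], N₀ ≤ N →
    ∀ W : S2 N →ₗ[ℂ] S2 N, IsFricke W → ∀ ε : ℂ, ε = 1 ∨ ε = -1 →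
      (1 / 24 - δ) * N ≤
        (Module.finrank ℂ (LinearMap.ker (W - ε • (1 : S2 N →ₗ[ℂ] S2 N))) : ℝ) := by
  by_cases hδ1 : 1 / 24 ≤ δ
  · refine ⟨0, fun N _ _ W _ ε _ => ?_⟩
    refine le_trans ?_ (Nat.cast_nonneg _)
    exact mul_nonpos_of_nonpos_of_nonneg (by linarith) (Nat.cast_nonneg _)
  push Not at hδ1
  have hpi := Real.pi_gt_three
  have hpi4 := Real.pi_le_four
  have hY1 : (1 : ℝ) ≤ 1 + 10 / δ := by
    have : 0 < 10 / δ := by positivity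
    linarith
  obtain ⟨K, hK0, hK⟩ := fin_26 (1 + 10 / δ) hY1
  -- the error term is small
  have hlim : Tendsto (fun n : ℕ => K * (1 + (n : ℝ) ^ (3 / 4 : ℝ)) / n) atTop (𝓝 0) := by
    have h1 : Tendsto (fun n : ℕ => (n : ℝ)⁻¹) atTop (𝓝 0) := tendsto_inv_atTop_nhds_zero_nat
    have h2 : Tendsto (fun n : ℕ => (n : ℝ) ^ (-(1 / 4) : ℝ)) atTop (𝓝 0) :=
      (tendsto_rpow_neg_atTop (by norm_num : (0 : ℝ) < 1 / 4)).comp tendsto_natCast_atTop_atTop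
    have h3 : Tendsto (fun n : ℕ => K * ((n : ℝ)⁻¹ + (n : ℝ) ^ (-(1 / 4) : ℝ))) atTop
        (𝓝 (K * (0 + 0))) := (h1.add h2).const_mul K
    rw [add_zero, mul_zero] at h3
    refine h3.congr' ?_
    filter_upwards [eventually_gt_atTop 0] with n hn
    have hn' : (0 : ℝ) < n := by exact_mod_cast hn
    have h4 : (n : ℝ) ^ (-(1 / 4) : ℝ) = (n : ℝ) ^ (3 / 4 : ℝ) / n := by
      rw [show (-(1 / 4) : ℝ) = 3 / 4 - 1 by norm_num, Real.rpow_sub hn', Real.rpow_one]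
    rw [h4]
    field_simp
  obtain ⟨n₁, hn₁⟩ := eventually_atTop.mp (hlim.eventually (gt_mem_nhds (show (0 : ℝ) < δ / 2 by
    positivity)))
  refine ⟨max n₁ 1, fun N hN hNn W hW ε hε => ?_⟩
  obtain ⟨e⟩ := lnk hW hε
  rw [e.finrank_eq]
  have hN1 : (1 : ℝ) ≤ N := by exact_mod_cast (le_max_right n₁ 1).trans hNn
  have hN0 : (0 : ℝ) < N := by linarith
  have hsm := hn₁ N ((le_max_left _ _).trans hNn)
  rw [div_lt_iff₀ hN0] at hsm
  have hδN : δ / 2 * N ≤ N := by nlinarith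
  have h26 := hK N ε hε (by linarith)
  have hdv : (Module.finrank ℂ (VV N 13 ε) : ℝ) ≤ Module.finrank ℂ (VV N 1 ε) + (N + 1) := by
    exact_mod_cast dvn hε
  have hYd : 1 / (1 + 10 / δ) ≤ δ / 10 := by
    rw [div_le_div_iff₀ (by positivity) (by norm_num)]
    have : δ * (1 + 10 / δ) = δ + 10 := by
      field_simp
    rw [this]
    linarith
  have hY0 : 0 < 1 / (1 + 10 / δ) := by positivity
  have hA : 0 ≤ 2 * ((N : ℝ) + 1) - δ / 2 * N := by linarith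
  have key : (2 * ((N : ℝ) + 1) - δ / 2 * N) * (Real.pi * (1 / 3 - δ / 30)) ≤
      16 * Real.pi / 25 * Module.finrank ℂ (VV N 13 ε) := by
    refine le_trans ?_ h26
    apply mul_le_mul
    · linarith
    · have : δ / 10 ≤ Real.pi * (δ / 30) := by nlinarith
      linarith
    · apply mul_nonneg (by linarith) (by linarith)
    · linarith
  have key2 : (2 * ((N : ℝ) + 1) - δ / 2 * N) * (1 / 3 - δ / 30) ≤
      16 / 25 * Module.finrank ℂ (VV N 13 ε) := by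
    have hp : 0 < Real.pi := by linarith
    have h7 : Real.pi * ((2 * ((N : ℝ) + 1) - δ / 2 * N) * (1 / 3 - δ / 30)) ≤
        Real.pi * (16 / 25 * Module.finrank ℂ (VV N 13 ε)) := by
      calc Real.pi * ((2 * ((N : ℝ) + 1) - δ / 2 * N) * (1 / 3 - δ / 30))
          = (2 * ((N : ℝ) + 1) - δ / 2 * N) * (Real.pi * (1 / 3 - δ / 30)) := by ring
        _ ≤ _ := key
        _ = _ := by ring
    exact le_of_mul_le_mul_left h7 hp
  nlinarith [mul_pos hδ hN0, mul_nonneg (mul_nonneg hδ.le hδ.le) hN0.le]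

end

theorem fin_dim : type_of% @fin_dim_pr := @fin_dim_pr

theorem dim_pm : type_of% @dim_pm_pr := @dim_pm_pr

end Pool.Agent.DIMK
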